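import Pool.Agent.Lib.PGB.Schur

/-!
# PGB.Bal: balanced blocks

PROOF. Let `u` be as in `Bal`. For `σ ∈ PS S` the product over `i ∈ S` of
`star (u (σ i)) * A (σ i) i * u i` is `wt A S σ` (the factors `star (u (σ i))` and `u i` cancel:
`σ` permutes `S` and `|u i| = 1`), so `0 ≤ wt A S σ` for all `σ ∈ PS S`. Hence
`pr A S • 1 - D U A S = ∑ wt A S σ • (1 - U σ)`; pair `σ` with `σ⁻¹`: `wt A S σ⁻¹ = star (wt A S σ) =
wt A S σ` (or average: `pr A S • 1 - D U A S = ½ ∑ wt A S σ • (2 - U σ - U σ⁻¹)`), and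
`0 ≤ 2 • 1 - U σ - U σ⁻¹ = star (1 - U σ) * (1 - U σ)` (`star_mul_self_nonneg`).
-/

set_option autoImplicit false

open scoped ComplexOrder
open Finset Equiv

namespace PGB

variable {V : Type*} [Fintype V] [DecidableEq V]
variable {H : Type*} [NormedAddCommGroup H] [InnerProductSpace ℂ H] [CompleteSpace H]

namespace BalAux

theorem sup_mem {S : Finset V} {σ : Perm V} (h : σ ∈ PS S) {i : V} (hi : i ∈ S) : σ i ∈ S := by
  rw [mem_PS] at h
  by_cases hσ : σ i = i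
  · rw [hσ]; exact hi
  · exact h (Perm.mem_support.2 fun h2 => hσ (σ.injective h2))

theorem inv_mem_PS {S : Finset V} {σ : Perm V} (h : σ ∈ PS S) : σ⁻¹ ∈ PS S := by
  rw [mem_PS] at h ⊢
  rwa [Perm.support_inv]

theorem prod_perm {M : Type*} [CommMonoid M] {S : Finset V} {σ : Perm V} (h : σ ∈ PS S)
    (f : V → M) : ∏ i ∈ S, f (σ i) = ∏ i ∈ S, f i := by
  refine Finset.prod_bij' (fun i _ => σ i) (fun i _ => σ⁻¹ i) ?_ ?_ ?_ ?_ ?_
  · intro i hi; exact sup_mem h hi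
  · intro i hi; exact sup_mem (inv_mem_PS h) hi
  · intro i _; simp
  · intro i _; simp
  · intro i _; rfl

theorem wt_nonneg {A : Matrix V V ℂ} {S : Finset V} (hB : Bal A S) {σ : Perm V} (h : σ ∈ PS S) :
    0 ≤ wt A S σ := by
  obtain ⟨u, hu, hA⟩ := hB
  have h1 : 0 ≤ ∏ i ∈ S, (star (u (σ i)) * A (σ i) i * u i) :=
    Finset.prod_nonneg fun i hi => hA _ (sup_mem h hi) _ hi
  have h2 : ∏ i ∈ S, (star (u (σ i)) * A (σ i) i * u i) = wt A S σ := by
    rw [Finset.prod_mul_distrib, Finset.prod_mul_distrib, prod_perm h (fun i => star (u i))]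
    have h3 : (∏ i ∈ S, star (u i)) * ∏ i ∈ S, u i = 1 := by
      rw [← Finset.prod_mul_distrib]
      refine Finset.prod_eq_one fun i hi => ?_
      rw [mul_comm, Complex.star_def, Complex.mul_conj, Complex.normSq_eq_norm_sq, hu i hi]
      simp
    rw [mul_right_comm, h3, one_mul]
    rfl
  rwa [h2] at h1

end BalAux

open BalAux

theorem D_le_bal (U : Perm V →* (H →L[ℂ] H)) (hU : Uni U) {A : Matrix V V ℂ} {S : Finset V}
    (hA : PSDon A S) (hB : Bal A S) : D U A S ≤ pr A S • (1 : H →L[ℂ] H) := by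
  rw [← sub_nonneg]
  have hh : ∀ i ∈ S, ∀ j ∈ S, star (A i j) = A j i := fun i hi j hj => hA.herm hi hj
  have hinv : ∀ σ ∈ PS S, wt A S σ⁻¹ = wt A S σ := by
    intro σ hσ
    have h1 : wt A S σ⁻¹ = star (wt A S σ) := by
      unfold wt
      rw [star_prod, ← prod_perm hσ (fun i => A (σ⁻¹ i) i)]
      refine Finset.prod_congr rfl fun i hi => ?_
      rw [hh _ (sup_mem hσ hi) _ hi]
      simp
    rw [h1]
    have h2 := wt_nonneg hB hσ
    rw [Complex.star_def]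
    exact Complex.conj_eq_iff_im.2 (Complex.nonneg_iff.1 h2).2.symm
  have e1 : pr A S • (1 : H →L[ℂ] H) - D U A S = ∑ σ ∈ PS S, wt A S σ • (1 - U σ) := by
    unfold pr D
    rw [Finset.sum_smul, ← Finset.sum_sub_distrib]
    exact Finset.sum_congr rfl fun σ _ => (smul_sub _ _ _).symm
  have e2 : ∑ σ ∈ PS S, wt A S σ • (1 - U σ) = ∑ σ ∈ PS S, wt A S σ • (1 - U σ⁻¹) := by
    refine Finset.sum_bij' (fun σ _ => σ⁻¹) (fun σ _ => σ⁻¹) ?_ ?_ ?_ ?_ ?_
    · intro σ hσ; exact inv_mem_PS hσ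
    · intro σ hσ; exact inv_mem_PS hσ
    · intro σ _; simp
    · intro σ _; simp
    · intro σ hσ
      rw [hinv σ hσ, inv_inv]
  have e3 : pr A S • (1 : H →L[ℂ] H) - D U A S =
      (2⁻¹ : ℂ) • ∑ σ ∈ PS S, wt A S σ • (star (1 - U σ) * (1 - U σ)) := by
    have h1 : ∀ σ, star (1 - U σ) * (1 - U σ) = (1 - U σ) + (1 - U σ⁻¹) := by
      intro σ
      have h2 : U σ⁻¹ * U σ = 1 := by rw [← map_mul, inv_mul_cancel, map_one]
      rw [star_sub, star_one, hU σ, sub_mul, one_mul, mul_sub, mul_one, h2]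
      abel
    have h2 : ∑ σ ∈ PS S, wt A S σ • (star (1 - U σ) * (1 - U σ)) =
        (2 : ℂ) • ∑ σ ∈ PS S, wt A S σ • (1 - U σ) := by
      rw [two_smul]
      nth_rewrite 2 [e2]
      rw [← Finset.sum_add_distrib]
      refine Finset.sum_congr rfl fun σ _ => ?_
      rw [h1, smul_add]
    rw [e1, h2, smul_smul]
    norm_num
  rw [e3]
  have h2 : (0 : ℂ) ≤ 2⁻¹ := by
    rw [Complex.nonneg_iff]
    constructor <;> norm_num
  refine smul_nonneg h2 (Finset.sum_nonneg fun σ hσ => smul_nonneg (wt_nonneg hB hσ) ?_)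
  exact star_mul_self_nonneg _

end PGB
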