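import Pool.Agent.Lib.PGB.Rec

/-!
# PGB.Basic: simple properties of `X`, `D`, `pr`
-/

set_option autoImplicit false
set_option linter.unusedSectionVars false

open scoped ComplexOrder
open Finset Equiv

namespace PGB

variable {V : Type*} [Fintype V] [DecidableEq V] {R : Type*} [Ring R] [Algebra ℂ R]

namespace BasicAux

theorem act_one (U : Perm V →* R) (C : Perm V) : act U 1 C = U C := by
  simp [act]

theorem act_zero (U : Perm V →* R) (C : Perm V) : act U 0 C = 1 := by
  simp [act]

theorem Pm_one_eq (U : Perm V →* R) (σ : Perm V) : Pm U 1 σ = U σ := by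
  have h := Perm.cycleFactorsFinset_noncommProd σ
  have h2 := Finset.map_noncommProd σ.cycleFactorsFinset id
    (Perm.cycleFactorsFinset_mem_commute σ) U
  rw [h] at h2
  rw [h2]
  unfold Pm
  exact Finset.noncommProd_congr rfl (fun C _ => act_one U C) _

theorem Pm_zero_eq (U : Perm V →* R) (σ : Perm V) : Pm U 0 σ = 1 := by
  unfold Pm
  rw [Finset.noncommProd_eq_pow_card _ _ _ (1 : R) (fun C _ => act_zero U C), one_pow]

theorem Pm_comm (U : Perm V →* R) (s : ℝ) {σ : Perm V} {y : R}
    (h : ∀ C ∈ σ.cycleFactorsFinset, Commute y (act U s C)) : Commute y (Pm U s σ) := by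
  unfold Pm
  exact Finset.noncommProd_commute _ _ _ _ h

theorem comm_act (U : Perm V →* R) (s : ℝ) {g C : Perm V} (h : Perm.Disjoint g C) :
    Commute (U g) (act U s C) := by
  have h1 : Commute (U g) (U C) := h.commute.map U
  unfold act
  exact Commute.add_right ((Commute.one_right _).smul_right _) (h1.smul_right _)

theorem supp_le {σ C : Perm V} (hC : C ∈ σ.cycleFactorsFinset) : C.support ⊆ σ.support :=
  Perm.mem_cycleFactorsFinset_support_le hC

theorem disj_of {g h : Perm V} (hd : Disjoint g.support h.support) : Perm.Disjoint g h :=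
  Perm.disjoint_iff_disjoint_support.mpr hd

theorem map_mem {S : Finset V} {σ : Perm V} (h : σ.support ⊆ S) {i : V} (hi : i ∈ S) : σ i ∈ S := by
  by_cases h1 : σ i = i
  · rw [h1]; exact hi
  · apply h
    rw [Perm.apply_mem_support]
    exact Perm.mem_support.mpr h1

theorem wt_congr {A B : Matrix V V ℂ} {S : Finset V}
    (h : ∀ i ∈ S, ∀ j ∈ S, A i j = B i j) {σ : Perm V} (hσ : σ.support ⊆ S) :
    wt A S σ = wt B S σ := by
  unfold wt
  refine Finset.prod_congr rfl fun i hi => ?_
  exact h _ (map_mem hσ hi) _ hi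

end BasicAux

open BasicAux

theorem X_one_eq (U : Perm V →* R) (A : Matrix V V ℂ) (S : Finset V) : X U A 1 S = D U A S := by
  unfold X D
  refine Finset.sum_congr rfl fun σ _ => ?_
  rw [Pm_one_eq]

theorem X_zero_eq (U : Perm V →* R) (A : Matrix V V ℂ) (S : Finset V) :
    X U A 0 S = pr A S • (1 : R) := by
  unfold X pr
  rw [Finset.sum_smul]
  refine Finset.sum_congr rfl fun σ _ => ?_
  rw [Pm_zero_eq]

theorem D_rec (U : Perm V →* R) (A : Matrix V V ℂ) {S : Finset V} {z : V} (hz : z ∈ S) :
    D U A S = A z z • D U A (S.erase z) +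
      ∑ C ∈ CZ S z, wt A C.support C • (U C * D U A (S \ C.support)) := by
  have h := X_rec U A 1 hz
  simp only [X_one_eq, act_one] at h
  exact h

theorem D_trivial (A : Matrix V V ℂ) (S : Finset V) : D (1 : Perm V →* ℂ) A S = pr A S := by
  unfold D pr
  refine Finset.sum_congr rfl fun σ _ => ?_
  simp

theorem pr_rec (A : Matrix V V ℂ) {S : Finset V} {z : V} (hz : z ∈ S) :
    pr A S = A z z * pr A (S.erase z) +
      ∑ C ∈ CZ S z, wt A C.support C * pr A (S \ C.support) := by
  have h := D_rec (1 : Perm V →* ℂ) A hz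
  simp only [D_trivial, smul_eq_mul, MonoidHom.one_apply, one_mul] at h
  exact h

theorem D_empty (U : Perm V →* R) (A : Matrix V V ℂ) : D U A ∅ = 1 := by
  rw [← X_one_eq]
  exact X_empty U A 1

theorem pr_empty (A : Matrix V V ℂ) : pr A ∅ = 1 := by
  rw [← D_trivial]
  exact D_empty _ _

theorem X_comm (U : Perm V →* R) (A : Matrix V V ℂ) (s : ℝ) {S : Finset V} {g : Perm V}
    (h : Disjoint g.support S) : Commute (U g) (X U A s S) := by
  unfold X
  refine Commute.sum_right _ _ _ fun σ hσ => ?_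
  refine Commute.smul_right ?_ _
  refine Pm_comm U s fun C hC => comm_act U s (disj_of ?_)
  exact h.mono_right ((supp_le hC).trans (mem_PS.mp hσ))

theorem X_comm2 (U : Perm V →* R) (A B : Matrix V V ℂ) (s t : ℝ) {S T : Finset V}
    (h : Disjoint S T) : Commute (X U A s S) (X U B t T) := by
  unfold X
  refine Commute.sum_right _ _ _ fun τ hτ => ?_
  refine Commute.smul_right ?_ _
  refine Pm_comm U t fun C' hC' => ?_
  refine Commute.sum_left _ _ _ fun σ hσ => ?_
  refine Commute.smul_left ?_ _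
  refine (Pm_comm U s fun C hC => ?_).symm
  refine act_comm U t s (disj_of ?_)
  exact (h.symm.mono_left ((supp_le hC').trans (mem_PS.mp hτ))).mono_right
    ((supp_le hC).trans (mem_PS.mp hσ))

theorem D_comm2 (U : Perm V →* R) (A B : Matrix V V ℂ) {S T : Finset V}
    (h : Disjoint S T) : Commute (D U A S) (D U B T) := by
  rw [← X_one_eq, ← X_one_eq]
  exact X_comm2 U A B 1 1 h

theorem X_congr (U : Perm V →* R) {A B : Matrix V V ℂ} (s : ℝ) {S : Finset V}
    (h : ∀ i ∈ S, ∀ j ∈ S, A i j = B i j) : X U A s S = X U B s S := by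
  unfold X
  refine Finset.sum_congr rfl fun σ hσ => ?_
  rw [wt_congr h (mem_PS.mp hσ)]

theorem D_congr (U : Perm V →* R) {A B : Matrix V V ℂ} {S : Finset V}
    (h : ∀ i ∈ S, ∀ j ∈ S, A i j = B i j) : D U A S = D U B S := by
  rw [← X_one_eq, ← X_one_eq]
  exact X_congr U 1 h

theorem pr_congr {A B : Matrix V V ℂ} {S : Finset V}
    (h : ∀ i ∈ S, ∀ j ∈ S, A i j = B i j) : pr A S = pr B S := by
  rw [← D_trivial, ← D_trivial]
  exact D_congr _ h

namespace BasicAux

theorem upd_of_ne {A : Matrix V V ℂ} {z : V} {t : ℂ} {i j : V} (h : ¬ (i = z ∧ j = z)) :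
    upd A z t i j = A i j := by
  simp only [upd, Matrix.of_apply]
  rw [if_neg h]

theorem upd_self (A : Matrix V V ℂ) (z : V) (t : ℂ) : upd A z t z z = t := by
  simp [upd]

theorem wt_upd (A : Matrix V V ℂ) (z : V) (t : ℂ) (C : Perm V) :
    wt (upd A z t) C.support C = wt A C.support C := by
  unfold wt
  refine Finset.prod_congr rfl fun i hi => ?_
  refine upd_of_ne ?_
  rintro ⟨h1, h2⟩
  exact Perm.mem_support.mp hi (h1.trans h2.symm)

theorem D_upd_of_notMem (U : Perm V →* R) (A : Matrix V V ℂ) (t : ℂ) {S : Finset V} {z : V}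
    (hz : z ∉ S) : D U (upd A z t) S = D U A S := by
  refine D_congr U fun i hi j _ => upd_of_ne ?_
  rintro ⟨h1, _⟩
  exact hz (h1 ▸ hi)

end BasicAux

theorem D_upd (U : Perm V →* R) (A : Matrix V V ℂ) (t : ℂ) {S : Finset V} {z : V} (hz : z ∈ S) :
    D U (upd A z t) S = D U A S + (t - A z z) • D U A (S.erase z) := by
  rw [D_rec U (upd A z t) hz, D_rec U A hz, upd_self,
    D_upd_of_notMem U A t (Finset.notMem_erase z S)]
  have h : ∑ C ∈ CZ S z, wt (upd A z t) C.support C • (U C * D U (upd A z t) (S \ C.support)) =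
      ∑ C ∈ CZ S z, wt A C.support C • (U C * D U A (S \ C.support)) := by
    refine Finset.sum_congr rfl fun C hC => ?_
    have hzC : z ∈ C.support := by
      classical
      simp only [CZ, Finset.mem_filter, Finset.mem_univ, true_and] at hC
      exact hC.2.1
    have hz' : z ∉ S \ C.support := fun h' => (Finset.mem_sdiff.mp h').2 hzC
    rw [wt_upd, D_upd_of_notMem U A t hz']
  rw [h, sub_smul]
  abel

theorem pr_upd (A : Matrix V V ℂ) (t : ℂ) {S : Finset V} {z : V} (hz : z ∈ S) :
    pr (upd A z t) S = pr A S + (t - A z z) * pr A (S.erase z) := by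
  have h := D_upd (1 : Perm V →* ℂ) A t hz
  simp only [D_trivial, smul_eq_mul] at h
  exact h

end PGB
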