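import Pool.Agent.Lib.PGB.Defs

/-!
# PGB.Blk: from the blocks (maximal nonseparable sets) to all nonseparable sets
-/

set_option autoImplicit false

open scoped ComplexOrder
open Finset Equiv

namespace PGB

variable {V : Type*} [Fintype V] [DecidableEq V]

namespace BlkAux

theorem pos_succ {m : ℕ} [NeZero m] (a : ZMod m) (h : a + 1 ≠ 0) : (a + 1).val = a.val + 1 := by
  have hm : 1 < m := by
    rcases Nat.lt_or_ge 1 m with h1 | h1
    · exact h1
    · exfalso
      have h2 : m = 1 := le_antisymm h1 (Nat.one_le_iff_ne_zero.2 (NeZero.ne m))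
      subst h2
      exact h (Subsingleton.elim _ _)
  haveI : Fact (1 < m) := ⟨hm⟩
  have hv : (a + 1).val = (a.val + 1) % m := by
    rw [ZMod.val_add, ZMod.val_one]
  have hlt : a.val < m := ZMod.val_lt a
  rcases Nat.lt_or_ge (a.val + 1) m with h1 | h1
  · rw [hv, Nat.mod_eq_of_lt h1]
  · exfalso
    have h2 : a.val + 1 = m := by omega
    apply h
    rw [h2, Nat.mod_self] at hv
    exact (ZMod.val_eq_zero _).1 hv

theorem cyc_sub {A : Matrix V V ℂ} {m : ℕ} {c : ZMod m → V} {B T : Finset V}
    (hc : CycOn A m c B) (hT : T ⊆ B) (hne : T ≠ B) (hin : Insep A T) : T.card ≤ 2 := by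
  classical
  obtain ⟨hinj, hmem, hadj⟩ := hc
  have hm : m ≠ 0 := by
    rintro rfl
    haveI : Infinite (ZMod 0) := inferInstanceAs (Infinite ℤ)
    exact not_injective_infinite_finite c hinj
  haveI : NeZero m := ⟨hm⟩
  obtain ⟨w, hwB, hwT⟩ : ∃ w ∈ B, w ∉ T := by
    by_contra h
    push Not at h
    exact hne (Finset.Subset.antisymm hT h)
  obtain ⟨k, rfl⟩ := (hmem w).1 hwB
  -- positions
  have hex : ∀ v : V, ∃ i : ZMod m, v ∈ B → c i = v := by
    intro v
    by_cases hv : v ∈ B
    · obtain ⟨i, hi⟩ := (hmem v).1 hv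
      exact ⟨i, fun _ => hi⟩
    · exact ⟨0, fun h => absurd h hv⟩
  choose g hg using hex
  set pos : V → ℕ := fun v => (g v - k).val with hpos
  have hposinj : ∀ u ∈ T, ∀ v ∈ T, pos u = pos v → u = v := by
    intro u hu v hv h
    have h1 : g u - k = g v - k := ZMod.val_injective m h
    have h2 : g u = g v := sub_left_injective h1
    rw [← hg u (hT hu), ← hg v (hT hv), h2]
  have hposadj : ∀ u ∈ T, ∀ v ∈ T, A u v ≠ 0 → pos u = pos v ∨ pos v = pos u + 1 ∨
      pos u = pos v + 1 := by
    intro u hu v hv h
    rw [← hg u (hT hu), ← hg v (hT hv)] at h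
    have hku : g u ≠ k := fun e => hwT (by rw [← e, hg u (hT hu)]; exact hu)
    have hkv : g v ≠ k := fun e => hwT (by rw [← e, hg v (hT hv)]; exact hv)
    rcases hadj _ _ h with h1 | h1 | h1
    · left
      show (g u - k).val = (g v - k).val
      rw [h1]
    · right; left
      show (g v - k).val = (g u - k).val + 1
      have e : g v - k = (g u - k) + 1 := by rw [h1]; ring
      rw [e]
      apply pos_succ
      rw [← e]
      exact sub_ne_zero.2 hkv
    · right; right
      show (g u - k).val = (g v - k).val + 1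
      have e : g u - k = (g v - k) + 1 := by rw [h1]; ring
      rw [e]
      apply pos_succ
      rw [← e]
      exact sub_ne_zero.2 hku
  rcases T.eq_empty_or_nonempty with h0 | h0
  · rw [h0]; simp
  obtain ⟨v0, hv0, hmin⟩ := T.exists_min_image pos h0
  have key := hin (T.filter fun v => pos v ≤ pos v0 + 1) (T.filter fun v => pos v0 + 1 ≤ pos v)
    (by
      ext v
      simp only [mem_union, mem_filter]
      constructor
      · rintro (h | h) <;> exact h.1
      · intro h
        rcases le_total (pos v) (pos v0 + 1) with h1 | h1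
        · exact Or.inl ⟨h, h1⟩
        · exact Or.inr ⟨h, h1⟩)
    (by
      rw [Finset.card_le_one]
      intro u hu v hv
      simp only [mem_inter, mem_filter] at hu hv
      exact hposinj u hu.1.1 v hv.1.1 (by omega))
    (by
      intro i hi j hj
      simp only [mem_sdiff, mem_filter, not_and, not_le] at hi hj
      have h1 := hi.2 hi.1.1
      have h2 := hj.2 hj.1.1
      have h3 := hmin i hi.1.1
      by_contra h
      rcases hposadj i hi.1.1 j hj.1.1 h with h4 | h4 | h4 <;> omega)
  rcases key with h | h
  · have hsub : T ⊆ T.filter fun v => pos v = pos v0 ∨ pos v = pos v0 + 1 := by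
      intro v hv
      have h1 : v ∈ T.filter fun v => pos v ≤ pos v0 + 1 := h.symm ▸ hv
      simp only [mem_filter] at h1 ⊢
      have h2 := hmin v hv
      exact ⟨hv, by omega⟩
    have hle : (T.filter fun v => pos v = pos v0 ∨ pos v = pos v0 + 1).card ≤ 2 := by
      have h1 : (T.filter fun v => pos v = pos v0 ∨ pos v = pos v0 + 1).card ≤
          ({pos v0, pos v0 + 1} : Finset ℕ).card := by
        apply Finset.card_le_card_of_injOn pos
        · intro v hv
          simp only [coe_filter, Set.mem_setOf_eq] at hv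
          simp only [coe_insert, coe_singleton, Set.mem_insert_iff, Set.mem_singleton_iff]
          exact hv.2
        · intro u hu v hv huv
          simp only [coe_filter, Set.mem_setOf_eq] at hu hv
          exact hposinj u hu.1 v hv.1 huv
      exact h1.trans Finset.card_le_two
    exact (Finset.card_le_card hsub).trans hle
  · exfalso
    have h1 : v0 ∈ T.filter fun v => pos v0 + 1 ≤ pos v := h.symm ▸ hv0
    simp only [mem_filter] at h1
    omega

end BlkAux

/-- it is enough to look at the maximal nonseparable sets -/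
theorem ok_of_blocks {A : Matrix V V ℂ}
    (hblk : ∀ B : Finset V, Insep A B → (∀ T, B ⊆ T → Insep A T → T = B) →
      B.card ≤ 4 ∨ (∃ m, ∃ c : ZMod m → V, CycOn A m c B) ∨ Bal A B) (T : Finset V)
    (hT : Insep A T) :
    T.card ≤ 4 ∨ (∃ m, ∃ c : ZMod m → V, CycOn A m c T) ∨ Bal A T := by
  classical
  obtain ⟨B, hBT, hB⟩ := (Finset.univ.filter fun B : Finset V => Insep A B).exists_le_maximal
    (show T ∈ _ by simp [hT])
  have hBin : Insep A B := by
    have := hB.1
    simpa using this
  have hmax : ∀ S, B ⊆ S → Insep A S → S = B := by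
    intro S hBS hS
    exact Finset.Subset.antisymm (hB.2 (by simp [hS]) hBS) hBS
  rcases hblk B hBin hmax with h | ⟨m, c, h⟩ | ⟨u, hu, hu2⟩
  · exact Or.inl ((Finset.card_le_card hBT).trans h)
  · by_cases hne : T = B
    · subst hne
      exact Or.inr (Or.inl ⟨m, c, h⟩)
    · exact Or.inl ((BlkAux.cyc_sub h hBT hne hT).trans (by norm_num))
  · exact Or.inr (Or.inr ⟨u, fun i hi => hu i (hBT hi), fun i hi j hj => hu2 i (hBT hi) j (hBT hj)⟩)

end PGB
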