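import Pool.Agent.Lib.PGB.Basic

/-!
# PGB.CycCls: the cyclic permutations along a cycle graph

`rot c hc` is the rotation `c i ↦ c (i + 1)`.

PROOF of `cyc_cls`. Take `i` with `c i ∈ C.support`. `C (c i) ∈ T` is different from `c i` and
`A (C (c i)) (c i) ≠ 0`, so `C (c i) = c (i+1)` or `c (i-1)`. Replacing `C` by `C⁻¹` (then use
`A (c i) (C (c i)) ≠ 0`: the condition `hw` for `C⁻¹` uses `A v (C v) ≠ 0`; both are in the hypothesis
`hw`) assume `C (c i) = c (i+1)`. If `C (c (i+1)) = c i` then `C = swap (c i) (c (i+1))`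
(`Equiv.Perm.IsCycle.eq_swap_of_apply_apply_eq_self`). Otherwise `C (c (i+1)) = c (i+2)`, and by
induction `C (c (i+k)) = c (i+k+1)` for all `k : ℕ`: `C (c (i+k+1))` is `c (i+k)` or `c (i+k+2)`; the first
is impossible since `C (c (i+k-1)) = c (i+k)` and `i+k-1 ≠ i+k+1` (`m ≥ 3`), for `k ≥ 1`. So `C = rot` on `T`
and both are the identity off `T`.

PROOF of `cyc_sum`: the permutations `swap (c i) (c (i+1))` are pairwise different (`m ≥ 3`) and in
`CC T`, `rot`, `rot⁻¹` are in `CC T` (cycles with support `T`), `rot ≠ rot⁻¹` and they are not swaps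
(`m ≥ 3`); all other elements of `CC T` have `F C = 0` by `cyc_cls`.
-/

set_option autoImplicit false

open scoped ComplexOrder
open Finset Equiv

namespace PGB

variable {V : Type*} [Fintype V] [DecidableEq V]

/-- the rotation `c i ↦ c (i + 1)` -/
noncomputable def rot {m : ℕ} [NeZero m] (c : ZMod m → V) (hc : Function.Injective c) : Perm V :=
  (Equiv.addRight (1 : ZMod m)).viaFintypeEmbedding ⟨c, hc⟩

theorem rot_apply {m : ℕ} [NeZero m] (c : ZMod m → V) (hc : Function.Injective c) (i : ZMod m) :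
    rot c hc (c i) = c (i + 1) :=
  Equiv.Perm.viaFintypeEmbedding_apply_image (Equiv.addRight (1 : ZMod m)) ⟨c, hc⟩ i

namespace CycClsAux

theorem one_ne {m : ℕ} (hm : 3 ≤ m) : (1 : ZMod m) ≠ 0 := by
  intro h
  have h1 : ((1 : ℕ) : ZMod m) = 0 := by exact_mod_cast h
  rw [ZMod.natCast_eq_zero_iff] at h1
  have := Nat.le_of_dvd (by norm_num) h1
  omega

theorem two_ne {m : ℕ} (hm : 3 ≤ m) : (2 : ZMod m) ≠ 0 := by
  intro h
  have h1 : ((2 : ℕ) : ZMod m) = 0 := by exact_mod_cast h
  rw [ZMod.natCast_eq_zero_iff] at h1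
  have := Nat.le_of_dvd (by norm_num) h1
  omega

theorem rot_fix {m : ℕ} [NeZero m] (c : ZMod m → V) (hc : Function.Injective c) {v : V}
    (hv : ∀ i, c i ≠ v) : rot c hc v = v := by
  apply Equiv.Perm.viaFintypeEmbedding_apply_notMem_range
  rintro ⟨i, hi⟩
  exact hv i hi

theorem rot_pow {m : ℕ} [NeZero m] (c : ZMod m → V) (hc : Function.Injective c) (k : ℕ) :
    (rot c hc ^ k) (c 0) = c k := by
  induction k with
  | zero => simp
  | succ k ih => rw [pow_succ', Perm.mul_apply, ih, rot_apply, Nat.cast_succ]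

theorem c_succ_ne {m : ℕ} (hm : 3 ≤ m) {c : ZMod m → V} (hc : Function.Injective c)
    (i : ZMod m) : c (i + 1) ≠ c i := by
  intro h
  have h1 := hc h
  exact one_ne hm (by simpa using h1)

theorem rot_inv_apply {m : ℕ} [NeZero m] (c : ZMod m → V) (hc : Function.Injective c)
    (i : ZMod m) : (rot c hc)⁻¹ (c i) = c (i - 1) := by
  rw [Perm.inv_eq_iff_eq, rot_apply, sub_add_cancel]

end CycClsAux

open CycClsAux

theorem rot_isCycle {m : ℕ} [NeZero m] (hm : 3 ≤ m) (c : ZMod m → V)
    (hc : Function.Injective c) : (rot c hc).IsCycle := by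
  refine ⟨c 0, ?_, ?_⟩
  · rw [rot_apply]
    exact c_succ_ne hm hc 0
  · intro y hy
    obtain ⟨j, rfl⟩ : ∃ j, c j = y := by
      by_contra hcon
      push Not at hcon
      exact hy (rot_fix c hc hcon)
    refine ⟨(j.val : ℤ), ?_⟩
    rw [zpow_natCast, rot_pow, ZMod.natCast_zmod_val]

theorem rot_support {m : ℕ} [NeZero m] (hm : 3 ≤ m) (c : ZMod m → V)
    (hc : Function.Injective c) : (rot c hc).support = univ.image c := by
  ext v
  rw [Perm.mem_support, mem_image]
  constructor
  · intro hv
    by_contra hcon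
    push Not at hcon
    exact hv (rot_fix c hc fun i => hcon i (mem_univ i))
  · rintro ⟨i, _, rfl⟩
    rw [rot_apply]
    exact c_succ_ne hm hc i

namespace CycClsAux

theorem step {A : Matrix V V ℂ} {m : ℕ} [NeZero m] {c : ZMod m → V}
    {T : Finset V} (h : CycOn A m c T) {C : Perm V} (hS : C.support ⊆ T)
    (hw : ∀ v ∈ C.support, A (C v) v ≠ 0) {i : ZMod m} (hi : c i ∈ C.support) :
    C (c i) = c (i + 1) ∨ C (c i) = c (i - 1) := by
  have h1 : C (c i) ∈ C.support := Perm.apply_mem_support.2 hi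
  obtain ⟨j, hj⟩ := (h.2.1 _).1 (hS h1)
  have h2 := hw _ hi
  rw [← hj] at h2 ⊢
  rcases h.2.2 j i h2 with h3 | h3 | h3
  · exfalso
    rw [Perm.mem_support] at hi
    apply hi
    rw [← hj, h3]
  · right
    rw [h3, add_sub_cancel_right]
  · left
    rw [h3]

theorem fwd {A : Matrix V V ℂ} {m : ℕ} [NeZero m] (hm : 3 ≤ m) {c : ZMod m → V}
    {T : Finset V} (h : CycOn A m c T) {C : Perm V} (hC : C.IsCycle) (hS : C.support ⊆ T)
    (hw : ∀ v ∈ C.support, A (C v) v ≠ 0) {i : ZMod m} (hi : c i ∈ C.support)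
    (h1 : C (c i) = c (i + 1)) : C = swap (c i) (c (i + 1)) ∨ C = rot c h.1 := by
  by_cases h2 : C (c (i + 1)) = c i
  · left
    have h3 := hC.eq_swap_of_apply_apply_eq_self (Perm.mem_support.1 hi) (by rw [h1, h2])
    rw [h1] at h3
    exact h3
  · right
    have key : ∀ k : ℕ, C (c (i + k)) = c (i + k + 1) ∧ C (c (i + k + 1)) = c (i + k + 1 + 1) ∧
        c (i + k + 1) ∈ C.support := by
      intro k
      induction k with
      | zero =>
        have h3 : c (i + 1) ∈ C.support := by
          rw [← h1]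
          exact Perm.apply_mem_support.2 hi
        have h4 := step h hS hw h3
        rw [Nat.cast_zero, add_zero]
        refine ⟨h1, ?_, h3⟩
        rcases h4 with h4 | h4
        · exact h4
        · rw [add_sub_cancel_right] at h4
          exact absurd h4 h2
      | succ k ih =>
        obtain ⟨h3, h4, h5⟩ := ih
        have h6 : c (i + k + 1 + 1) ∈ C.support := by
          rw [← h4]
          exact Perm.apply_mem_support.2 h5
        have h7 := step h hS hw h6
        rw [Nat.cast_succ, ← add_assoc]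
        refine ⟨h4, ?_, h6⟩
        rcases h7 with h7 | h7
        · exact h7
        · exfalso
          rw [add_sub_cancel_right, ← h3] at h7
          have h8 := h.1 (C.injective h7)
          apply two_ne hm
          have h9 : i + (k : ZMod m) + 2 = i + k + 0 := by
            rw [add_zero]
            calc i + (k : ZMod m) + 2 = i + k + 1 + 1 := by ring
              _ = i + k := h8
          exact add_left_cancel h9
    have hall : ∀ j, C (c j) = c (j + 1) := by
      intro j
      have h3 := (key (j - i).val).1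
      rw [ZMod.natCast_zmod_val, add_sub_cancel] at h3
      exact h3
    ext v
    by_cases hv : ∃ j, c j = v
    · obtain ⟨j, rfl⟩ := hv
      rw [hall, rot_apply]
    · push Not at hv
      rw [rot_fix c h.1 hv]
      by_contra hcon
      obtain ⟨j, hj⟩ := (h.2.1 v).1 (hS (Perm.mem_support.2 hcon))
      exact hv j hj

end CycClsAux

theorem cyc_cls {A : Matrix V V ℂ} {m : ℕ} [NeZero m] (hm : 3 ≤ m) {c : ZMod m → V}
    {T : Finset V} (h : CycOn A m c T) {C : Perm V} (hC : C.IsCycle) (hS : C.support ⊆ T)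
    (hw : ∀ v ∈ C.support, A (C v) v ≠ 0 ∧ A v (C v) ≠ 0) :
    (∃ i, C = swap (c i) (c (i + 1))) ∨ C = rot c h.1 ∨ C = (rot c h.1)⁻¹ := by
  obtain ⟨x, hx, _⟩ := id hC
  have hx' : x ∈ C.support := Perm.mem_support.2 hx
  obtain ⟨i, rfl⟩ := (h.2.1 x).1 (hS hx')
  rcases step h hS (fun v hv => (hw v hv).1) hx' with h1 | h1
  · rcases fwd hm h hC hS (fun v hv => (hw v hv).1) hx' h1 with h2 | h2
    · exact Or.inl ⟨i, h2⟩
    · exact Or.inr (Or.inl h2)
  · have hS' : (C⁻¹).support ⊆ T := by
      rw [Perm.support_inv]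
      exact hS
    have hw' : ∀ v ∈ (C⁻¹).support, A (C⁻¹ v) v ≠ 0 := by
      intro v hv
      rw [Perm.support_inv] at hv
      have h2 : C⁻¹ v ∈ C.support := by
        have h3 : C (C⁻¹ v) ∈ C.support := by
          rw [show C (C⁻¹ v) = v from C.apply_symm_apply v]
          exact hv
        exact Perm.apply_mem_support.1 h3
      have h3 := (hw _ h2).2
      rw [show C (C⁻¹ v) = v from C.apply_symm_apply v] at h3
      exact h3
    have h2 : c (i - 1) ∈ (C⁻¹).support := by
      rw [Perm.support_inv, ← h1]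
      exact Perm.apply_mem_support.2 hx'
    have h3 : C⁻¹ (c (i - 1)) = c (i - 1 + 1) := by
      rw [sub_add_cancel, ← h1]
      exact C.symm_apply_apply (c i)
    rcases fwd hm h hC.inv hS' hw' h2 h3 with h4 | h4
    · left
      refine ⟨i - 1, ?_⟩
      rw [← inv_inv C, h4, swap_inv]
    · right
      right
      rw [← inv_inv C, h4]

theorem cyc_sum {A : Matrix V V ℂ} {m : ℕ} [NeZero m] (hm : 3 ≤ m) {c : ZMod m → V}
    {T : Finset V} (h : CycOn A m c T) {M : Type*} [AddCommMonoid M] (F : Perm V → M)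
    (hF : ∀ C : Perm V, C.IsCycle → C.support ⊆ T →
      (∃ v ∈ C.support, A (C v) v = 0 ∨ A v (C v) = 0) → F C = 0) :
    ∑ C ∈ CC T, F C =
      ∑ i : ZMod m, F (swap (c i) (c (i + 1))) + F (rot c h.1) + F (rot c h.1)⁻¹ := by
  classical
  have hinj : Function.Injective fun i : ZMod m => swap (c i) (c (i + 1)) := by
    intro i j hij
    simp only at hij
    by_contra hne
    have h1 := congrArg (fun g : Perm V => g (c i)) hij
    simp only [swap_apply_left] at h1
    by_cases h2 : i = j + 1
    · rw [h2, swap_apply_right] at h1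
      have h3 := h.1 h1
      apply two_ne hm
      have h4 : j + 2 = j + 0 := by
        rw [add_zero]
        calc j + 2 = j + 1 + 1 := by ring
          _ = j := h3
      exact add_left_cancel h4
    · rw [swap_apply_of_ne_of_ne (fun h3 => hne (h.1 h3)) (fun h3 => h2 (h.1 h3))] at h1
      exact c_succ_ne hm h.1 i h1
  have hr1 : ∀ j : ZMod m, swap (c j) (c (j + 1)) ≠ rot c h.1 := by
    intro j hj
    have h1 := congrArg (fun g : Perm V => g (c (j + 1))) hj
    simp only [swap_apply_right, rot_apply] at h1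
    have h3 := h.1 h1
    apply two_ne hm
    have h4 : j + 2 = j + 0 := by
      rw [add_zero]
      calc j + 2 = j + 1 + 1 := by ring
        _ = j := h3.symm
    exact add_left_cancel h4
  have hr2 : ∀ j : ZMod m, swap (c j) (c (j + 1)) ≠ (rot c h.1)⁻¹ := by
    intro j hj
    have h1 := congrArg (fun g : Perm V => g (c j)) hj
    simp only [swap_apply_left, rot_inv_apply] at h1
    have h3 := h.1 h1
    apply two_ne hm
    have h4 : (j - 1) + 2 = (j - 1) + 0 := by
      rw [add_zero]
      calc (j - 1) + 2 = j + 1 := by ring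
        _ = j - 1 := h3
    exact add_left_cancel h4
  have hr3 : rot c h.1 ≠ (rot c h.1)⁻¹ := by
    intro hj
    have h1 := congrArg (fun g : Perm V => g (c 0)) hj
    simp only [rot_apply, rot_inv_apply] at h1
    have h3 := h.1 h1
    apply two_ne hm
    calc (2 : ZMod m) = (0 + 1) + 1 := by ring
      _ = (0 - 1) + 1 := by rw [h3]
      _ = 0 := by ring
  have hT : ∀ i, c i ∈ T := fun i => (h.2.1 _).2 ⟨i, rfl⟩
  have hsub : insert (rot c h.1) (insert (rot c h.1)⁻¹
      (univ.image fun i : ZMod m => swap (c i) (c (i + 1)))) ⊆ CC T := by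
    intro C hCm
    rw [mem_insert, mem_insert, mem_image] at hCm
    rw [CC, mem_filter]
    refine ⟨mem_univ _, ?_⟩
    have hrs : (rot c h.1).support ⊆ T := by
      rw [rot_support hm]
      intro v hv
      rw [mem_image] at hv
      obtain ⟨i, _, rfl⟩ := hv
      exact hT i
    rcases hCm with rfl | rfl | ⟨i, _, rfl⟩
    · exact ⟨rot_isCycle hm c h.1, hrs⟩
    · refine ⟨(rot_isCycle hm c h.1).inv, ?_⟩
      rw [Perm.support_inv]
      exact hrs
    · have hne : c i ≠ c (i + 1) := (c_succ_ne hm h.1 i).symm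
      refine ⟨Perm.isCycle_swap hne, ?_⟩
      rw [Perm.support_swap hne]
      intro v hv
      rw [mem_insert, mem_singleton] at hv
      rcases hv with rfl | rfl
      · exact hT i
      · exact hT _
  rw [← sum_subset hsub, sum_insert, sum_insert, sum_image]
  · rw [add_comm, add_comm (F (rot c h.1)⁻¹), add_assoc, add_assoc, add_comm (F (rot c h.1)⁻¹)]
  · intro i _ j _ hij
    exact hinj hij
  · rw [mem_image]
    rintro ⟨j, _, hj⟩
    exact hr2 j hj
  · rw [mem_insert, mem_image]
    rintro (hj | ⟨j, _, hj⟩)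
    · exact hr3 hj
    · exact hr1 j hj
  · intro C hCm hCn
    rw [CC, mem_filter] at hCm
    apply hF C hCm.2.1 hCm.2.2
    by_contra hcon
    push Not at hcon
    apply hCn
    rw [mem_insert, mem_insert, mem_image]
    rcases cyc_cls hm h hCm.2.1 hCm.2.2 hcon with ⟨i, hi⟩ | hi | hi
    · exact Or.inr (Or.inr ⟨i, mem_univ _, hi.symm⟩)
    · exact Or.inl hi
    · exact Or.inr (Or.inl hi)

end PGB
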