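import Mathlib

/-!
# PGB.CycNum: the numerical inequality for cycles of length at least five

`w i` are the absolute values of the off-diagonal entries (unit diagonal) along a cycle of length
`m ≥ 5`, `z i = √(1 - w i ²)`. The condition `hc` says `w (i+1) ≤ z i * z (i+2)`.

`SS w z a n = ∑_{j < n} z (a+j) * ∏_{h < n, h ≠ j} w (a+h)`, `PP w a n = ∏_{h < n} w (a+h)`.

PROOF of `row_nat` (`n ≥ 4` edges `w 1, ..., w n`, the omitted edge is `0`): claim `SS w z 1 n ≤ z 0`.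
Put `M = PP w 3 (n-4)` (the product over the middle indices `3, ..., n-2`) and `Q = SS w z 3 (n-4)`.
Expanding two indices on both sides,
`SS w z 1 n = M * (z1 w2 w_{n-1} w_n + w1 z2 w_{n-1} w_n + w1 w2 z_{n-1} w_n + w1 w2 w_{n-1} z_n)
   + w1 w2 w_{n-1} w_n * Q`.
(a) The first bracket is `≤ z 0`: by `w_n ≤ z_{n-1} z_0` and `w_1 ≤ z_0 z_2`,
`z1 w2 w_{n-1} w_n + w1 w2 z_{n-1} w_n ≤ z0 z_{n-1} w2 (z1 w_{n-1} + z_{n-1} w1) ≤ z0 z_{n-1} w2`
and `w1 z2 w_{n-1} w_n + w1 w2 w_{n-1} z_n ≤ z0 z2 w_{n-1} (z2 w_n + z_n w2) ≤ z0 z2 w_{n-1}`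
(`a b + c d ≤ 1` for unit vectors `(a, c)`, `(b, d)`), and `z_{n-1} w2 + z2 w_{n-1} ≤ 1`.
(b) `w1 w2 w_{n-1} w_n ≤ z0 (z2 w2) (w_{n-1} w_n) ≤ z0 / 4` (`w_{n-1}² + w_n² ≤ 1`).
`n = 4`: `M = 1`, `Q = 0`. `n = 5`: `M = w3`, `Q = z3`: by (a) the first part is at most
`z0 w3 (z4 w2 + z2 w4)` and `w3 ≤ z2 z4`; put `S = z4 w2 + z2 w4`, `c = w2 w4 - z2 z4`: `S² + c² = 1`,
`w2 w4 + z2 z4 ≤ 1`, so `c ≤ 1 - 2 z2 z4 ≤ 1 - 2 w3`; if `w3 ≤ 1/2` then `w3 S ≤ 1/2`; if `w3 > 1/2` then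
`S² ≤ 1 - (2 w3 - 1)² = 4 w3 (1 - w3)` and `w3² S² ≤ 4 w3³ (1 - w3) ≤ 9/16`; so the sum is at most
`z0 (3/4 + 1/4)`. `n ≥ 6`: `M ≤ 1/2` (it contains the factor `w3 w4 ≤ 1/2`, the others are `≤ 1`) and
`Q ≤ 2` by induction (`SS a (k+2) = w_{k+1} w_k SS a k + PP a k (z w' + w z') ≤ SS a k / 2 + 1`), so the sum
is at most `z0 (1/2 + 2/4)`.

PROOF of `row_zmod`: `row_nat` with `n = m - 1`, shifted by `i` (`k ↦ i + k`).

PROOF of `cyc_num`. If `z i = 0` for some `i` then `w i = 1` and `w (i+1) = 0` by `hc` (at `i`), so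
`∏ w = 0`. Otherwise let `y i = w i * p i`, `π i j = ∏_{h ≠ i, j} w h`; the left side is
`∑_{i ≠ j} π i j * y i * y j ≤ ½ ∑_{i ≠ j} π i j (z j / z i * y i ² + z i / z j * y j ²)
 = ∑_i y i ² / z i * ∑_{j ≠ i} π i j * z j ≤ ∑ y i ²`.
-/

set_option autoImplicit false

open Finset

namespace PGB

/-- product of `n` consecutive terms -/
noncomputable def PP (w : ℕ → ℝ) (a n : ℕ) : ℝ := ∏ h ∈ range n, w (a + h)

/-- sum over one distinguished index -/
noncomputable def SS (w z : ℕ → ℝ) (a n : ℕ) : ℝ :=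
  ∑ j ∈ range n, z (a + j) * ∏ h ∈ (range n).erase j, w (a + h)

namespace CycNumAux

theorem PP_zero (w : ℕ → ℝ) (a : ℕ) : PP w a 0 = 1 := by
  unfold PP
  simp

theorem PP_succ (w : ℕ → ℝ) (a n : ℕ) : PP w a (n + 1) = PP w a n * w (a + n) := by
  unfold PP
  rw [prod_range_succ]

theorem PP_succ' (w : ℕ → ℝ) (a n : ℕ) : PP w a (n + 1) = w a * PP w (a + 1) n := by
  unfold PP
  rw [prod_range_succ', add_zero, mul_comm]
  congr 1
  refine prod_congr rfl fun h _ => ?_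
  rw [show a + (h + 1) = a + 1 + h by ring]

theorem SS_zero (w z : ℕ → ℝ) (a : ℕ) : SS w z a 0 = 0 := by
  unfold SS
  simp

theorem SS_succ (w z : ℕ → ℝ) (a n : ℕ) :
    SS w z a (n + 1) = SS w z a n * w (a + n) + PP w a n * z (a + n) := by
  unfold SS PP
  rw [sum_range_succ, sum_mul]
  congr 1
  · refine sum_congr rfl fun j hj => ?_
    have hj' : j ≠ n := (mem_range.1 hj).ne
    have e : (range (n + 1)).erase j = insert n ((range n).erase j) := by
      rw [range_add_one, erase_insert_of_ne hj'.symm]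
    rw [e, prod_insert (by simp), mul_assoc]
    congr 1
    rw [mul_comm]
  · have e : (range (n + 1)).erase n = range n := by
      rw [range_add_one, erase_insert (by simp)]
    rw [e, mul_comm]

theorem SS_succ' (w z : ℕ → ℝ) (a n : ℕ) :
    SS w z a (n + 1) = z a * PP w (a + 1) n + w a * SS w z (a + 1) n := by
  induction n with
  | zero => simp [SS_succ, SS_zero, PP_zero]
  | succ n ih =>
    rw [SS_succ, ih, SS_succ w z (a + 1) n, PP_succ' w a n, PP_succ w (a + 1) n,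
      show a + (n + 1) = a + 1 + n by ring]
    ring

/-- unit vectors -/
theorem unit_le {a b c d : ℝ} (h1 : a ^ 2 + c ^ 2 = 1) (h2 : b ^ 2 + d ^ 2 = 1) :
    a * b + c * d ≤ 1 := by
  nlinarith [sq_nonneg (a - b), sq_nonneg (c - d)]

theorem PP_nonneg {w : ℕ → ℝ} (hw : ∀ k, 0 ≤ w k) (a n : ℕ) : 0 ≤ PP w a n := by
  unfold PP
  exact prod_nonneg fun h _ => hw _

theorem PP_le_one {w : ℕ → ℝ} (hw : ∀ k, 0 ≤ w k) (a n : ℕ) (h : ∀ k, k < n → w (a + k) ≤ 1) :
    PP w a n ≤ 1 := by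
  unfold PP
  exact prod_le_one (fun k _ => hw _) fun k hk => h k (mem_range.1 hk)

/-- the first bracket -/
theorem brk {w1 z1 w2 z2 a za b zb z0 : ℝ} (hw1 : 0 ≤ w1) (hw2 : 0 ≤ w2) (ha : 0 ≤ a)
    (hb : 0 ≤ b) (e1 : w1 ^ 2 + z1 ^ 2 = 1) (e2 : w2 ^ 2 + z2 ^ 2 = 1) (ea : a ^ 2 + za ^ 2 = 1)
    (eb : b ^ 2 + zb ^ 2 = 1) (h1 : w1 ≤ z0 * z2) (h2 : b ≤ za * z0) :
    z1 * w2 * a * b + w1 * z2 * a * b + w1 * w2 * za * b + w1 * w2 * a * zb ≤
      z0 * (za * w2 + z2 * a) := by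
  have k1 : z1 * a + w1 * za ≤ 1 := unit_le (by linarith) ea
  have k2 : z2 * b + w2 * zb ≤ 1 := unit_le (by linarith) eb
  have k3 : w2 * b * (z1 * a + w1 * za) ≤ w2 * b * 1 :=
    mul_le_mul_of_nonneg_left k1 (mul_nonneg hw2 hb)
  have k4 : w1 * a * (z2 * b + w2 * zb) ≤ w1 * a * 1 :=
    mul_le_mul_of_nonneg_left k2 (mul_nonneg hw1 ha)
  have k5 : w2 * b ≤ w2 * (za * z0) := mul_le_mul_of_nonneg_left h2 hw2
  have k6 : w1 * a ≤ z0 * z2 * a := mul_le_mul_of_nonneg_right h1 ha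
  nlinarith [k3, k4, k5, k6]

theorem half_of {a b : ℝ} (h : a ^ 2 + b ^ 2 ≤ 1) : a * b ≤ 1 / 2 := by
  nlinarith [sq_nonneg (a - b)]

theorem le_one_of {a b : ℝ} (h : a ^ 2 + b ^ 2 = 1) : a ≤ 1 := by
  nlinarith [sq_nonneg b, sq_nonneg (a - 1)]

/-- the case of five edges -/
theorem five {w2 z2 w3 w4 z4 : ℝ} (hw3 : 0 ≤ w3) (_hw31 : w3 ≤ 1) (hS0 : 0 ≤ z4 * w2 + z2 * w4)
    (e2 : w2 ^ 2 + z2 ^ 2 = 1) (e4 : w4 ^ 2 + z4 ^ 2 = 1) (h3 : w3 ≤ z2 * z4) :
    w3 * (z4 * w2 + z2 * w4) ≤ 3 / 4 := by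
  have k1 : w2 * w4 + z2 * z4 ≤ 1 := unit_le e2 e4
  have k2 : (z4 * w2 + z2 * w4) ^ 2 + (w2 * w4 - z2 * z4) ^ 2 = 1 := by
    have : (z4 * w2 + z2 * w4) ^ 2 + (w2 * w4 - z2 * z4) ^ 2 =
        (w2 ^ 2 + z2 ^ 2) * (w4 ^ 2 + z4 ^ 2) := by ring
    rw [this, e2, e4, one_mul]
  have k3 : z4 * w2 + z2 * w4 ≤ 1 := by
    nlinarith [sq_nonneg (w2 * w4 - z2 * z4)]
  rcases le_or_gt w3 (1 / 2) with h | h
  · nlinarith [mul_le_mul_of_nonneg_left k3 hw3]
  · have k4 : (2 * w3 - 1) ^ 2 ≤ (w2 * w4 - z2 * z4) ^ 2 := by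
      nlinarith
    have k5 : (z4 * w2 + z2 * w4) ^ 2 ≤ 4 * w3 * (1 - w3) := by nlinarith
    have k6 : w3 ^ 2 * (z4 * w2 + z2 * w4) ^ 2 ≤ w3 ^ 2 * (4 * w3 * (1 - w3)) :=
      mul_le_mul_of_nonneg_left k5 (sq_nonneg w3)
    have k7 : w3 ^ 2 * (4 * w3 * (1 - w3)) ≤ (3 / 4) ^ 2 := by
      nlinarith [mul_nonneg (sq_nonneg (w3 - 3 / 4)) (show 0 ≤ w3 ^ 2 + w3 / 2 + 3 / 16 by positivity)]
    refine le_of_sq_le_sq ?_ (by norm_num)
    calc (w3 * (z4 * w2 + z2 * w4)) ^ 2 = w3 ^ 2 * (z4 * w2 + z2 * w4) ^ 2 := by ring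
      _ ≤ _ := k6.trans k7

/-- the sums over the middle indices are at most 2 -/
theorem SS_le_two {w z : ℕ → ℝ} (hw : ∀ k, 0 ≤ w k) (hz : ∀ k, 0 ≤ z k) (a : ℕ) :
    ∀ n : ℕ, (∀ k, k < n → w (a + k) ^ 2 + z (a + k) ^ 2 = 1) →
      (∀ k, k + 1 < n → w (a + k) ^ 2 + w (a + k + 1) ^ 2 ≤ 1) → SS w z a n ≤ 2 := by
  intro n
  induction n using Nat.twoStepInduction with
  | zero =>
    intro _ _
    rw [SS_zero]
    norm_num
  | one =>
    intro h1 _
    rw [SS_succ, SS_zero, PP_zero]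
    have := h1 0 (by omega)
    have h2 : z (a + 0) ≤ 1 := le_one_of (b := w (a + 0)) (by linarith)
    linarith
  | more n ih _ =>
    intro h1 h2
    have ih' := ih (fun k hk => h1 k (by omega)) (fun k hk => h2 k (by omega))
    have e1 := h1 n (by omega)
    have e2 := h1 (n + 1) (by omega)
    have e3 := h2 n (by omega)
    have hP0 := PP_nonneg hw a n
    have hP1 : PP w a n ≤ 1 := PP_le_one hw a n fun k hk => le_one_of (h1 k (by omega))
    have hS0 : 0 ≤ SS w z a n := by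
      unfold SS
      exact sum_nonneg fun j _ => mul_nonneg (hz _) (prod_nonneg fun h _ => hw _)
    rw [SS_succ, SS_succ, PP_succ, show a + (n + 1) = a + n + 1 by ring]
    rw [show a + (n + 1) = a + n + 1 by ring] at e2
    have k1 : w (a + n) * w (a + n + 1) ≤ 1 / 2 := half_of e3
    have k2 : z (a + n) * w (a + n + 1) + w (a + n) * z (a + n + 1) ≤ 1 :=
      unit_le (by linarith) e2
    have k3 : SS w z a n * (w (a + n) * w (a + n + 1)) ≤ SS w z a n * (1 / 2) :=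
      mul_le_mul_of_nonneg_left k1 hS0
    have k4 : PP w a n * (z (a + n) * w (a + n + 1) + w (a + n) * z (a + n + 1)) ≤
        PP w a n * 1 := mul_le_mul_of_nonneg_left k2 hP0
    nlinarith [k3, k4]

/-- four or more edges, all indices shifted -/
theorem row (w z : ℕ → ℝ) (N : ℕ) (hw : ∀ k, 0 ≤ w k) (hz : ∀ k, 0 ≤ z k)
    (h1 : ∀ k ≤ N + 4, w k ^ 2 + z k ^ 2 = 1) (ha : w 1 ≤ z 0 * z 2)
    (hb : w (N + 4) ≤ z (N + 3) * z 0)
    (hc : ∀ k, 1 ≤ k → k + 2 ≤ N + 4 → w (k + 1) ≤ z k * z (k + 2)) : SS w z 1 (N + 4) ≤ z 0 := by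
  have hz1 : ∀ k ≤ N + 4, z k ≤ 1 := fun k hk => le_one_of (b := w k) (by linarith [h1 k hk])
  have hw1 : ∀ k ≤ N + 4, w k ≤ 1 := fun k hk => le_one_of (h1 k hk)
  -- consecutive entries
  have hcons : ∀ k, 1 ≤ k → k + 2 ≤ N + 4 → w k ^ 2 + w (k + 1) ^ 2 ≤ 1 := by
    intro k hk hk'
    have h2 := hc k hk hk'
    have h3 := h1 k (by omega)
    have h4 : w (k + 1) ≤ z k := h2.trans (mul_le_of_le_one_right (hz k) (hz1 _ hk'))
    nlinarith [hw (k + 1), hz k]
  have hlast : w (N + 3) ^ 2 + w (N + 4) ^ 2 ≤ 1 := by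
    have h2 := hc (N + 2) (by omega) (by omega)
    rw [show N + 2 + 1 = N + 3 by ring, show N + 2 + 2 = N + 4 by ring] at h2
    have h3 := h1 (N + 4) le_rfl
    have h4 : w (N + 3) ≤ z (N + 4) :=
      h2.trans (mul_le_of_le_one_left (hz _) (hz1 _ (by omega)))
    nlinarith [hw (N + 3), hz (N + 4)]
  -- expansion
  have hexp : SS w z 1 (N + 4) = PP w 3 N * (z 1 * w 2 * w (N + 3) * w (N + 4) +
      w 1 * z 2 * w (N + 3) * w (N + 4) + w 1 * w 2 * z (N + 3) * w (N + 4) +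
      w 1 * w 2 * w (N + 3) * z (N + 4)) + w 1 * w 2 * w (N + 3) * w (N + 4) * SS w z 3 N := by
    rw [SS_succ', SS_succ', PP_succ', show (1 : ℕ) + 1 = 2 by norm_num,
      show (2 : ℕ) + 1 = 3 by norm_num, SS_succ, SS_succ, PP_succ, PP_succ,
      show 3 + (N + 1) = N + 4 by ring, show 3 + N = N + 3 by ring]
    ring
  have hz0 := hz 0
  have hbrk := brk (hw 1) (hw 2) (hw (N + 3)) (hw (N + 4)) (h1 1 (by omega)) (h1 2 (by omega))
    (h1 (N + 3) (by omega)) (h1 (N + 4) le_rfl) ha hb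
  have hS : z (N + 3) * w 2 + z 2 * w (N + 3) ≤ 1 := by
    have h2 := unit_le (a := z (N + 3)) (b := w 2) (c := w (N + 3)) (d := z 2)
      (by linarith [h1 (N + 3) (by omega)]) (h1 2 (by omega))
    linarith
  have hS0 : 0 ≤ z (N + 3) * w 2 + z 2 * w (N + 3) :=
    add_nonneg (mul_nonneg (hz _) (hw _)) (mul_nonneg (hz _) (hw _))
  have hq : w 1 * w 2 * w (N + 3) * w (N + 4) ≤ z 0 * (1 / 4) := by
    have k1 : z 2 * w 2 ≤ 1 / 2 := half_of (by linarith [h1 2 (by omega)])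
    have k2 : w (N + 3) * w (N + 4) ≤ 1 / 2 := half_of hlast
    have k3 : w 1 * w 2 ≤ z 0 * (1 / 2) := by
      calc w 1 * w 2 ≤ z 0 * z 2 * w 2 := mul_le_mul_of_nonneg_right ha (hw 2)
        _ = z 0 * (z 2 * w 2) := by ring
        _ ≤ z 0 * (1 / 2) := mul_le_mul_of_nonneg_left k1 hz0
    calc w 1 * w 2 * w (N + 3) * w (N + 4) = w 1 * w 2 * (w (N + 3) * w (N + 4)) := by ring
      _ ≤ z 0 * (1 / 2) * (1 / 2) :=
        mul_le_mul k3 k2 (mul_nonneg (hw _) (hw _)) (by positivity)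
      _ = z 0 * (1 / 4) := by ring
  have hM0 := PP_nonneg hw 3 N
  rw [hexp]
  rcases Nat.lt_or_ge N 2 with hN | hN
  · have hN' : N = 0 ∨ N = 1 := by omega
    rcases hN' with rfl | rfl
    · rw [PP_zero, SS_zero]
      have := mul_le_mul_of_nonneg_left hS hz0
      linarith
    · have h5 := five (hw 3) (hw1 3 (by omega)) hS0 (h1 2 (by omega)) (h1 4 (by omega))
        (by simpa using hc 2 (by omega) (by omega))
      rw [PP_succ, PP_zero, SS_succ, SS_zero, PP_zero, one_mul, zero_mul, zero_add, one_mul,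
        add_zero]
      have k1 := mul_le_mul_of_nonneg_left hbrk (hw 3)
      have k2 := mul_le_mul_of_nonneg_left h5 hz0
      have k3 : w 1 * w 2 * w (1 + 3) * w (1 + 4) * z 3 ≤ z 0 * (1 / 4) := by
        refine (mul_le_of_le_one_right ?_ (hz1 3 (by omega))).trans hq
        exact mul_nonneg (mul_nonneg (mul_nonneg (hw _) (hw _)) (hw _)) (hw _)
      have e : (1 : ℕ) + 3 = 4 := rfl
      have e' : (1 : ℕ) + 4 = 5 := rfl
      rw [e, e'] at *
      nlinarith [k1, k2, k3]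
  · have hM : PP w 3 N ≤ 1 / 2 := by
      obtain ⟨K, rfl⟩ : ∃ K, N = K + 2 := ⟨N - 2, by omega⟩
      rw [PP_succ', PP_succ', ← mul_assoc]
      have k1 : w 3 * w (3 + 1) ≤ 1 / 2 := half_of (hcons 3 (by omega) (by omega))
      have k2 : PP w (3 + 1 + 1) K ≤ 1 :=
        PP_le_one hw _ _ fun k hk => hw1 _ (by omega)
      exact (mul_le_of_le_one_right (mul_nonneg (hw _) (hw _)) k2).trans k1
    have hQ : SS w z 3 N ≤ 2 := by
      refine SS_le_two hw hz 3 N (fun k hk => h1 _ (by omega)) fun k hk => ?_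
      exact hcons (3 + k) (by omega) (by omega)
    have k1 : PP w 3 N * (z 1 * w 2 * w (N + 3) * w (N + 4) +
      w 1 * z 2 * w (N + 3) * w (N + 4) + w 1 * w 2 * z (N + 3) * w (N + 4) +
      w 1 * w 2 * w (N + 3) * z (N + 4)) ≤ 1 / 2 * z 0 := by
      have k3 := hbrk.trans (mul_le_of_le_one_right hz0 hS)
      exact (mul_le_mul_of_nonneg_left k3 hM0).trans (mul_le_mul_of_nonneg_right hM hz0)
    have k2 : w 1 * w 2 * w (N + 3) * w (N + 4) * SS w z 3 N ≤ z 0 * (1 / 4) * 2 := by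
      refine (mul_le_mul_of_nonneg_left hQ ?_).trans (mul_le_mul_of_nonneg_right hq (by norm_num))
      exact mul_nonneg (mul_nonneg (mul_nonneg (hw _) (hw _)) (hw _)) (hw _)
    linarith

end CycNumAux

open CycNumAux

theorem row_nat (w z : ℕ → ℝ) (n : ℕ) (hn : 4 ≤ n) (hw : ∀ k, 0 ≤ w k) (hz : ∀ k, 0 ≤ z k)
    (h1 : ∀ k ≤ n, w k ^ 2 + z k ^ 2 = 1) (ha : w 1 ≤ z 0 * z 2) (hb : w n ≤ z (n - 1) * z 0)
    (hc : ∀ k, 1 ≤ k → k + 2 ≤ n → w (k + 1) ≤ z k * z (k + 2)) : SS w z 1 n ≤ z 0 := by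
  obtain ⟨N, rfl⟩ : ∃ N, n = N + 4 := ⟨n - 4, by omega⟩
  exact row w z N hw hz h1 ha (by simpa using hb) hc

theorem row_zmod (m : ℕ) [NeZero m] (hm : 5 ≤ m) (w z : ZMod m → ℝ) (hw : ∀ k, 0 ≤ w k)
    (hz : ∀ k, 0 ≤ z k) (h1 : ∀ k, w k ^ 2 + z k ^ 2 = 1)
    (hc : ∀ k, w (k + 1) ≤ z k * z (k + 2)) (i : ZMod m) :
    ∑ j ∈ univ.erase i, z j * ∏ h ∈ (univ.erase i).erase j, w h ≤ z i := by
  set φ : ℕ → ZMod m := fun h => i + ((1 + h : ℕ) : ZMod m) with hφ
  have hinj : Set.InjOn φ (range (m - 1)) := by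
    intro a ha b hb hab
    have ha' : a < m - 1 := mem_range.1 (mem_coe.1 ha)
    have hb' : b < m - 1 := mem_range.1 (mem_coe.1 hb)
    have h2 : ((1 + a : ℕ) : ZMod m) = ((1 + b : ℕ) : ZMod m) := add_left_cancel hab
    rw [ZMod.natCast_eq_natCast_iff', Nat.mod_eq_of_lt (by omega), Nat.mod_eq_of_lt (by omega)] at h2
    omega
  have himg : univ.erase i = (range (m - 1)).image φ := by
    ext x
    rw [mem_erase, mem_image]
    constructor
    · rintro ⟨hx, -⟩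
      have hv : (x - i).val ≠ 0 := by
        rw [Ne, ZMod.val_eq_zero]
        exact sub_ne_zero.2 hx
      have hv' := ZMod.val_lt (x - i)
      refine ⟨(x - i).val - 1, mem_range.2 (by omega), ?_⟩
      have e : 1 + ((x - i).val - 1) = (x - i).val := by omega
      simp only [hφ]
      rw [e, ZMod.natCast_zmod_val]
      ring
    · rintro ⟨h, hh, rfl⟩
      refine ⟨fun he => ?_, mem_univ _⟩
      have hh' := mem_range.1 hh
      have h3 : ((1 + h : ℕ) : ZMod m) = 0 := by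
        have h4 : i + ((1 + h : ℕ) : ZMod m) = i + 0 := by
          rw [add_zero]
          exact he
        exact add_left_cancel h4
      rw [ZMod.natCast_eq_zero_iff] at h3
      exact absurd (Nat.le_of_dvd (by omega) h3) (by omega)
  have hkey := row_nat (fun k => w (i + k)) (fun k => z (i + k)) (m - 1) (by omega)
    (fun k => hw _) (fun k => hz _) (fun k _ => h1 _) (by
      have := hc i
      simpa using this) (by
      have h5 := hc (i + ((m - 1 - 1 : ℕ) : ZMod m))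
      have e1 : i + ((m - 1 - 1 : ℕ) : ZMod m) + 1 = i + ((m - 1 : ℕ) : ZMod m) := by
        have : ((m - 1 : ℕ) : ZMod m) = ((m - 1 - 1 : ℕ) : ZMod m) + 1 := by
          rw [← Nat.cast_succ]
          congr 1
          omega
        rw [this, add_assoc]
      have e2 : i + ((m - 1 - 1 : ℕ) : ZMod m) + 2 = i + ((0 : ℕ) : ZMod m) := by
        have : ((m - 1 - 1 : ℕ) : ZMod m) + 2 = ((0 : ℕ) : ZMod m) := by
          have e3 : ((m - 1 - 1 : ℕ) : ZMod m) + 2 = ((m - 1 - 1 + 2 : ℕ) : ZMod m) := by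
            push_cast
            rfl
          rw [e3, show m - 1 - 1 + 2 = m by omega]
          simp
        rw [add_assoc, this]
      rw [e1, e2] at h5
      exact h5) (fun k _ _ => by
      have h5 := hc (i + (k : ZMod m))
      have e1 : i + (k : ZMod m) + 1 = i + ((k + 1 : ℕ) : ZMod m) := by push_cast; ring
      have e2 : i + (k : ZMod m) + 2 = i + ((k + 2 : ℕ) : ZMod m) := by push_cast; ring
      rw [e1, e2] at h5
      exact h5)
  rw [himg, sum_image hinj]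
  unfold SS at hkey
  simp only [Nat.cast_zero, add_zero] at hkey
  refine le_trans (le_of_eq (sum_congr rfl fun j hj => ?_)) hkey
  congr 1
  have e4 : ((range (m - 1)).image φ).erase (φ j) = ((range (m - 1)).erase j).image φ := by
    ext x
    rw [mem_erase, mem_image, mem_image]
    constructor
    · rintro ⟨hx, y, hy, rfl⟩
      exact ⟨y, mem_erase.2 ⟨fun h => hx (by rw [h]), hy⟩, rfl⟩
    · rintro ⟨y, hy, rfl⟩
      obtain ⟨h6, h7⟩ := mem_erase.1 hy
      exact ⟨fun h => h6 (hinj (mem_coe.2 h7) (mem_coe.2 hj) h), y, h7, rfl⟩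
  rw [e4, prod_image (fun a ha b hb h =>
    hinj (mem_coe.2 (mem_of_mem_erase ha)) (mem_coe.2 (mem_of_mem_erase hb)) h)]

theorem cyc_num (m : ℕ) [NeZero m] (hm : 5 ≤ m) (w p : ZMod m → ℝ) (hw : ∀ i, 0 ≤ w i)
    (hw1 : ∀ i, w i ≤ 1) (hp : ∀ i, 0 ≤ p i)
    (hc : ∀ i, w (i + 1) ^ 2 ≤ (1 - w i ^ 2) * (1 - w (i + 2) ^ 2)) :
    (∏ i, w i) * ((∑ i, p i) ^ 2 - ∑ i, p i ^ 2) ≤ ∑ i, w i ^ 2 * p i ^ 2 := by
  set z : ZMod m → ℝ := fun i => √(1 - w i ^ 2) with hzdef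
  have hq : ∀ i, 0 ≤ 1 - w i ^ 2 := fun i => by nlinarith [hw i, hw1 i]
  have hz : ∀ i, 0 ≤ z i := fun i => Real.sqrt_nonneg _
  have hz2 : ∀ i, z i ^ 2 = 1 - w i ^ 2 := fun i => Real.sq_sqrt (hq i)
  have h1 : ∀ i, w i ^ 2 + z i ^ 2 = 1 := fun i => by rw [hz2]; ring
  have hc' : ∀ i, w (i + 1) ≤ z i * z (i + 2) := by
    intro i
    refine le_of_sq_le_sq ?_ (mul_nonneg (hz _) (hz _))
    rw [mul_pow, hz2, hz2]
    exact hc i
  by_cases h0 : ∃ i, z i = 0
  · obtain ⟨i, hi⟩ := h0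
    have h2 : w (i + 1) = 0 := by
      have := hc' i
      rw [hi, zero_mul] at this
      exact le_antisymm this (hw _)
    rw [prod_eq_zero (mem_univ (i + 1)) h2, zero_mul]
    exact sum_nonneg fun j _ => mul_nonneg (sq_nonneg _) (sq_nonneg _)
  · push Not at h0
    have hzp : ∀ i, 0 < z i := fun i => lt_of_le_of_ne (hz i) (h0 i).symm
    -- the products over all but two indices
    set T : ZMod m → ZMod m → ℝ := fun i j => ∏ h ∈ (univ.erase i).erase j, w h with hT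
    have hT0 : ∀ i j, 0 ≤ T i j := fun i j => prod_nonneg fun h _ => hw h
    have hTs : ∀ i j, T i j = T j i := fun i j => by simp only [hT]; rw [erase_right_comm]
    have hTw : ∀ i, ∀ j ∈ univ.erase i, (∏ i, w i) = w i * (w j * T i j) := by
      intro i j hj
      rw [← mul_prod_erase univ w (mem_univ i), ← mul_prod_erase (univ.erase i) w hj]
    have hrow := row_zmod m hm w z hw hz h1 hc'
    -- the left side
    have hL : (∏ i, w i) * ((∑ i, p i) ^ 2 - ∑ i, p i ^ 2) =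
        ∑ i, ∑ j ∈ univ.erase i, T i j * ((w i * p i) * (w j * p j)) := by
      have e1 : (∑ i, p i) ^ 2 - ∑ i, p i ^ 2 = ∑ i, ∑ j ∈ univ.erase i, p i * p j := by
        rw [sq, sum_mul, ← sum_sub_distrib]
        refine sum_congr rfl fun i _ => ?_
        rw [← add_sum_erase univ p (mem_univ i), ← mul_sum]
        ring
      rw [e1, mul_sum]
      refine sum_congr rfl fun i _ => ?_
      rw [mul_sum]
      refine sum_congr rfl fun j hj => ?_
      rw [hTw i j hj]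
      ring
    -- the inequality between the arithmetic and the geometric mean
    have hamgm : ∀ i j, T i j * ((w i * p i) * (w j * p j)) ≤
        (T i j * (z j / z i * (w i * p i) ^ 2) + T i j * (z i / z j * (w j * p j) ^ 2)) / 2 := by
      intro i j
      have hi := hzp i
      have hj := hzp j
      have k1 : (w i * p i) * (w j * p j) ≤
          (z j / z i * (w i * p i) ^ 2 + z i / z j * (w j * p j) ^ 2) / 2 := by
        have k2 : (z j / z i * (w i * p i) ^ 2 + z i / z j * (w j * p j) ^ 2) / 2 -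
            (w i * p i) * (w j * p j) =
            (z j * (w i * p i) - z i * (w j * p j)) ^ 2 / (2 * (z i * z j)) := by
          field_simp
          ring
        have k3 : 0 ≤ (z j * (w i * p i) - z i * (w j * p j)) ^ 2 / (2 * (z i * z j)) := by
          positivity
        linarith
      have k4 := mul_le_mul_of_nonneg_left k1 (hT0 i j)
      linarith
    have hX : ∑ i, ∑ j ∈ univ.erase i, T i j * (z i / z j * (w j * p j) ^ 2) =
        ∑ i, ∑ j ∈ univ.erase i, T i j * (z j / z i * (w i * p i) ^ 2) := by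
      rw [sum_comm' (s' := fun j => univ.erase j) (t' := univ)
        (fun x y => by simp [eq_comm])]
      refine sum_congr rfl fun i _ => sum_congr rfl fun j _ => ?_
      rw [hTs]
    rw [hL]
    calc ∑ i, ∑ j ∈ univ.erase i, T i j * ((w i * p i) * (w j * p j))
        ≤ ∑ i, ∑ j ∈ univ.erase i, (T i j * (z j / z i * (w i * p i) ^ 2) +
          T i j * (z i / z j * (w j * p j) ^ 2)) / 2 :=
          sum_le_sum fun i _ => sum_le_sum fun j _ => hamgm i j
      _ = (∑ i, ∑ j ∈ univ.erase i, T i j * (z j / z i * (w i * p i) ^ 2) +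
          ∑ i, ∑ j ∈ univ.erase i, T i j * (z i / z j * (w j * p j) ^ 2)) / 2 := by
          simp only [← sum_div, sum_add_distrib]
      _ = ∑ i, ∑ j ∈ univ.erase i, T i j * (z j / z i * (w i * p i) ^ 2) := by
          rw [hX]
          ring
      _ = ∑ i, (w i * p i) ^ 2 / z i * ∑ j ∈ univ.erase i, z j * T i j := by
          refine sum_congr rfl fun i _ => ?_
          rw [mul_sum]
          refine sum_congr rfl fun j _ => ?_
          ring
      _ ≤ ∑ i, (w i * p i) ^ 2 / z i * z i := by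
          refine sum_le_sum fun i _ => mul_le_mul_of_nonneg_left (hrow i) ?_
          exact div_nonneg (sq_nonneg _) (hz i)
      _ = ∑ i, w i ^ 2 * p i ^ 2 := by
          refine sum_congr rfl fun i _ => ?_
          rw [div_mul_cancel₀ _ (hzp i).ne', mul_pow]

end PGB
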