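import Pool.Agent.Lib.PGB.Schur

/-!
# PGB.Minor: consequences of positivity for small principal submatrices, scaling

PROOF of `minor4`: the form at the vector with `x v₀ = - A v₀ v₁ * a`, `x v₁ = a`, `x v₂ = b`,
`x v₃ = - A v₃ v₂ * b` (zero elsewhere) is
`(1 - |A v₀ v₁|²) |a|² + (1 - |A v₂ v₃|²) |b|² + 2 re (star a * A v₁ v₂ * b)`; it is nonnegative for all
`a, b : ℂ`, and both coefficients are nonnegative. Take `b = 1 - |A v₀ v₁|²` times a unimodular number and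
`a = - A v₁ v₂` times the same, or use the discriminant, to get the claim (if `1 - |A v₀ v₁|² = 0` take `a`
large to see `A v₁ v₂ = 0`). Alternatively: the determinant of the `4 x 4` matrix.
PROOF of `minor2`: the form at `x v₀ = - A v₀ v₁`, `x v₁ = 1` is `1 - |A v₀ v₁|²`.
PROOF of `zero_row`: the form at `x z = t * conj..., x j = 1`: `A j j + 2 re (t * A z j ...) ≥ 0` for all `t`.
PROOF of `D_scale`, `pr_scale`: `∏ i ∈ S, d (σ i) * d i = ∏ i ∈ S, d i ^ 2` for `σ ∈ PS S`.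
-/

set_option autoImplicit false

open scoped ComplexOrder InnerProductSpace
open Finset Equiv

namespace PGB

variable {V : Type*} [Fintype V] [DecidableEq V]

namespace MinorAux

theorem sub_psd {A : Matrix V V ℂ} {S : Finset V} (hA : PSDon A S) {m : ℕ} (f : Fin m → V)
    (hf : ∀ i, f i ∈ S) : (A.submatrix f f).PosSemidef := by
  have h1 := SchurAux.psdon_iff.1 hA
  exact h1.submatrix (fun i => (⟨f i, hf i⟩ : {x // x ∈ S}))

theorem star_mul_norm (z : ℂ) : z * star z = ((‖z‖ ^ 2 : ℝ) : ℂ) := by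
  rw [Complex.star_def, Complex.mul_conj, Complex.normSq_eq_norm_sq]

theorem map_mem {S : Finset V} {σ : Perm V} (h : σ ∈ PS S) {i : V} (hi : i ∈ S) : σ i ∈ S := by
  rw [mem_PS] at h
  by_cases h1 : σ i = i
  · rw [h1]; exact hi
  · apply h
    rw [Perm.apply_mem_support]
    exact Perm.mem_support.mpr h1

end MinorAux

open MinorAux

theorem minor2 {A : Matrix V V ℂ} {S : Finset V} (hA : PSDon A S) {v₀ v₁ : V} (h0 : v₀ ∈ S)
    (h1 : v₁ ∈ S) (hne : v₀ ≠ v₁) (e0 : A v₀ v₀ = 1) (e1 : A v₁ v₁ = 1) : ‖A v₀ v₁‖ ≤ 1 := by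
  have hp := sub_psd hA ![v₀, v₁] (by intro i; fin_cases i <;> simp [h0, h1])
  have hd := hp.det_nonneg
  have h10 : A v₁ v₀ = star (A v₀ v₁) := (hA.herm h0 h1).symm
  rw [Matrix.det_fin_two] at hd
  have e : (A.submatrix ![v₀, v₁] ![v₀, v₁]) 0 0 * (A.submatrix ![v₀, v₁] ![v₀, v₁]) 1 1 -
      (A.submatrix ![v₀, v₁] ![v₀, v₁]) 0 1 * (A.submatrix ![v₀, v₁] ![v₀, v₁]) 1 0
      = ((1 - ‖A v₀ v₁‖ ^ 2 : ℝ) : ℂ) := by
    show A v₀ v₀ * A v₁ v₁ - A v₀ v₁ * A v₁ v₀ = _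
    rw [e0, e1, h10, star_mul_norm]
    push_cast
    ring
  rw [e, Complex.zero_le_real] at hd
  nlinarith [norm_nonneg (A v₀ v₁)]

theorem minor4 {A : Matrix V V ℂ} {S : Finset V} (hA : PSDon A S) {v₀ v₁ v₂ v₃ : V}
    (h0 : v₀ ∈ S) (h1 : v₁ ∈ S) (h2 : v₂ ∈ S) (h3 : v₃ ∈ S)
    (h01 : v₀ ≠ v₁) (h02 : v₀ ≠ v₂) (h03 : v₀ ≠ v₃) (h12 : v₁ ≠ v₂) (h13 : v₁ ≠ v₃) (h23 : v₂ ≠ v₃)
    (e0 : A v₀ v₀ = 1) (e1 : A v₁ v₁ = 1) (e2 : A v₂ v₂ = 1) (e3 : A v₃ v₃ = 1)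
    (z02 : A v₀ v₂ = 0) (z03 : A v₀ v₃ = 0) (z13 : A v₁ v₃ = 0) :
    ‖A v₁ v₂‖ ^ 2 ≤ (1 - ‖A v₀ v₁‖ ^ 2) * (1 - ‖A v₂ v₃‖ ^ 2) := by
  have hp := sub_psd hA ![v₀, v₁, v₂, v₃]
    (by intro i; fin_cases i <;> simp [h0, h1, h2, h3])
  have hd := hp.det_nonneg
  have h10 : A v₁ v₀ = star (A v₀ v₁) := (hA.herm h0 h1).symm
  have h20 : A v₂ v₀ = 0 := by
    have := hA.herm h0 h2
    rw [z02] at this
    rw [← this, star_zero]
  have h30 : A v₃ v₀ = 0 := by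
    have := hA.herm h0 h3
    rw [z03] at this
    rw [← this, star_zero]
  have h31 : A v₃ v₁ = 0 := by
    have := hA.herm h1 h3
    rw [z13] at this
    rw [← this, star_zero]
  have h21 : A v₂ v₁ = star (A v₁ v₂) := (hA.herm h1 h2).symm
  have h32 : A v₃ v₂ = star (A v₂ v₃) := (hA.herm h2 h3).symm
  have e : (A.submatrix ![v₀, v₁, v₂, v₃] ![v₀, v₁, v₂, v₃])
      = !![1, A v₀ v₁, 0, 0; star (A v₀ v₁), 1, A v₁ v₂, 0;
          0, star (A v₁ v₂), 1, A v₂ v₃; 0, 0, star (A v₂ v₃), 1] := by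
    ext i j
    fin_cases i <;> fin_cases j <;>
      simp [e0, e1, e2, e3, z02, z03, z13, h10, h20, h30, h31, h21, h32]
  have edet : (A.submatrix ![v₀, v₁, v₂, v₃] ![v₀, v₁, v₂, v₃]).det
      = (((1 - ‖A v₀ v₁‖ ^ 2) * (1 - ‖A v₂ v₃‖ ^ 2) - ‖A v₁ v₂‖ ^ 2 : ℝ) : ℂ) := by
    rw [e]
    have n1 := star_mul_norm (A v₀ v₁)
    have n2 := star_mul_norm (A v₁ v₂)
    have n3 := star_mul_norm (A v₂ v₃)
    push_cast at n1 n2 n3 ⊢
    rw [← n1, ← n2, ← n3]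
    simp [Matrix.det_succ_row_zero, Fin.sum_univ_succ, Fin.succAbove]
    ring
  rw [edet, Complex.zero_le_real] at hd
  linarith

theorem zero_row {A : Matrix V V ℂ} {S : Finset V} (hA : PSDon A S) {z : V} (hz : z ∈ S)
    (h : A z z = 0) : ∀ j ∈ S, A j z = 0 := by
  intro j hj
  have hp := sub_psd hA ![z, j] (by intro i; fin_cases i <;> simp [hz, hj])
  have hd := hp.det_nonneg
  have h10 : A z j = star (A j z) := (hA.herm hj hz).symm
  rw [Matrix.det_fin_two] at hd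
  have e : (A.submatrix ![z, j] ![z, j]) 0 0 * (A.submatrix ![z, j] ![z, j]) 1 1 -
      (A.submatrix ![z, j] ![z, j]) 0 1 * (A.submatrix ![z, j] ![z, j]) 1 0
      = ((- ‖A j z‖ ^ 2 : ℝ) : ℂ) := by
    show A z z * A j j - A z j * A j z = _
    rw [h, h10, mul_comm (star (A j z)), star_mul_norm]
    push_cast
    ring
  rw [e, Complex.zero_le_real] at hd
  have h2 : ‖A j z‖ = 0 := by nlinarith [norm_nonneg (A j z)]
  exact norm_eq_zero.1 h2

theorem D_zero {R : Type*} [Ring R] [Algebra ℂ R] (U : Perm V →* R) {A : Matrix V V ℂ}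
    {S : Finset V} {z : V} (hz : z ∈ S) (h : ∀ j ∈ S, A j z = 0) : D U A S = 0 := by
  unfold D
  refine Finset.sum_eq_zero fun σ hσ => ?_
  have : wt A S σ = 0 := by
    unfold wt
    exact Finset.prod_eq_zero hz (h _ (map_mem hσ hz))
  rw [this, zero_smul]

theorem pr_zero {A : Matrix V V ℂ} {S : Finset V} {z : V} (hz : z ∈ S)
    (h : ∀ j ∈ S, A j z = 0) : pr A S = 0 := by
  unfold pr
  refine Finset.sum_eq_zero fun σ hσ => ?_
  unfold wt
  exact Finset.prod_eq_zero hz (h _ (map_mem hσ hz))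

/-- diagonal scaling -/
def scl (d : V → ℝ) (A : Matrix V V ℂ) : Matrix V V ℂ :=
  Matrix.of fun i j => (d i : ℂ) * A i j * (d j : ℂ)

theorem MinorAux.wt_scl (A : Matrix V V ℂ) {S : Finset V} (d : V → ℝ) {σ : Perm V}
    (hσ : σ ∈ PS S) :
    wt (scl d A) S σ = (((∏ i ∈ S, d i ^ 2 : ℝ)) : ℂ) * wt A S σ := by
  have h1 : ∏ i ∈ S, (d (σ i) : ℂ) = ∏ i ∈ S, (d i : ℂ) := by
    refine Finset.prod_bij (fun i _ => σ i) (fun i hi => map_mem hσ hi)
      (fun i _ j _ h => σ.injective h) ?_ (fun _ _ => rfl)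
    intro i hi
    refine ⟨σ⁻¹ i, ?_, by simp⟩
    have h2 : σ⁻¹ ∈ PS S := by
      rw [mem_PS] at hσ ⊢
      rwa [Perm.support_inv]
    exact map_mem h2 hi
  unfold wt
  have h2 : ∀ i, scl d A (σ i) i = (d (σ i) : ℂ) * A (σ i) i * (d i : ℂ) := fun i => rfl
  simp only [h2]
  rw [Finset.prod_mul_distrib, Finset.prod_mul_distrib, h1]
  push_cast
  rw [Finset.prod_pow]
  ring

theorem D_scale {R : Type*} [Ring R] [Algebra ℂ R] (U : Perm V →* R) (A : Matrix V V ℂ)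
    (S : Finset V) (d : V → ℝ) :
    D U (scl d A) S = (((∏ i ∈ S, d i ^ 2 : ℝ)) : ℂ) • D U A S := by
  unfold D
  rw [Finset.smul_sum]
  refine Finset.sum_congr rfl fun σ hσ => ?_
  rw [wt_scl A d hσ, mul_smul]

theorem pr_scale (A : Matrix V V ℂ) (S : Finset V) (d : V → ℝ) :
    pr (scl d A) S = (((∏ i ∈ S, d i ^ 2 : ℝ)) : ℂ) * pr A S := by
  unfold pr
  rw [Finset.mul_sum]
  exact Finset.sum_congr rfl fun σ hσ => wt_scl A d hσ

theorem PSDon_scale {A : Matrix V V ℂ} {S : Finset V} (hA : PSDon A S) (d : V → ℝ) :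
    PSDon (scl d A) S := by
  intro x
  have h := hA (fun i => (d i : ℂ) * x i)
  have e : ∑ i ∈ S, ∑ j ∈ S, star (x i) * scl d A i j * x j
      = ∑ i ∈ S, ∑ j ∈ S, star ((d i : ℂ) * x i) * A i j * ((d j : ℂ) * x j) := by
    refine Finset.sum_congr rfl fun i _ => Finset.sum_congr rfl fun j _ => ?_
    show star (x i) * ((d i : ℂ) * A i j * (d j : ℂ)) * x j = _
    rw [star_mul', Complex.star_def, Complex.conj_ofReal]
    ring
  rw [e]
  exact h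

end PGB
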