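import Pool.Agent.Lib.PGB.Basic

/-!
# PGB.Schur: positivity, and transfer from the Schur power matrix to every unitary representation

PROOF of `pos_of_psd`. `M = star N * N` (`Matrix.posSemidef_iff_eq_conjTranspose_mul_self` or the
like). For `x : H` put `ξ_σ = W σ⁻¹ x`. Then `⟪ξ_σ, ξ_τ⟫ = ⟪x, W (σ * τ⁻¹) x⟫ = ⟪x, W (τ * σ⁻¹)⁻¹ x⟫`, so
`∑_{σ, τ} m (τ * σ⁻¹) ⟪ξ_σ, ξ_τ⟫ = |G| ⟪x, (∑_ρ m ρ • W ρ⁻¹) x⟫`, and the left side is
`∑_k ‖∑_τ N k τ • ξ_τ‖²`. Positivity of an operator: `ContinuousLinearMap.IsPositive` (self-adjointness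
follows from `m ρ⁻¹ = star (m ρ)`, which is `M` Hermitian, and `W` unitary).

PROOF of `D_subtype`: reindex `PS S` by `Perm {x // x ∈ S}` (`Equiv.Perm.ofSubtype`,
`Equiv.Perm.subtypeEquivSubtypePerm`).

PROOF of `D_nonneg`: by `D_subtype`, with `ρ` replaced by `ρ⁻¹`, `D U A S = ∑_ρ m ρ • U (ofSubtype ρ)⁻¹`,
`m ρ = ∏ i, A i (ρ i)`; the matrix `m (τ * σ⁻¹) = ∏ i, A (σ i) (τ i)` is the Hadamard product over `i` of
the matrices `A (σ i) (τ i)` (submatrices of the PSD matrix `A[S]` along `σ ↦ σ i`), so it is positive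
semidefinite (`Matrix.PosSemidef.hadamard`).

PROOF of `D_le_of_top`: the same with `m ρ = (if ρ = 1 then B.permanent else 0) - ∏ i, B i (ρ i)`; the
matrix `B.permanent • 1 - schurPower B` is Hermitian (`B.permanent` is real) and its quadratic form is
nonnegative by `hT`. Transport along `e`; `pr A S = B.permanent` (reindex, `ρ ↦ ρ⁻¹` is not needed:
`Matrix.permanent B = ∑ σ, ∏ i, B (σ i) i`).
-/

set_option autoImplicit false

open scoped ComplexOrder InnerProductSpace
open Finset Equiv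

namespace PGB

variable {V : Type*} [Fintype V] [DecidableEq V]
variable {H : Type*} [NormedAddCommGroup H] [InnerProductSpace ℂ H] [CompleteSpace H]


namespace SchurAux

open scoped MatrixOrder in
theorem factor {n : Type*} [Fintype n] [DecidableEq n] {M : Matrix n n ℂ} (hM : M.PosSemidef) :
    ∃ N : Matrix n n ℂ, M = Matrix.conjTranspose N * N := by
  obtain ⟨N, hN⟩ := CStarAlgebra.nonneg_iff_eq_star_mul_self.mp hM.nonneg
  exact ⟨N, hN⟩

theorem psd_of_nonneg {n : Type*} [Fintype n] [DecidableEq n] {M : Matrix n n ℂ}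
    (h : ∀ x : n → ℂ, 0 ≤ ∑ i, ∑ j, star (x i) * M i j * x j) : M.PosSemidef := by
  rw [← Matrix.isPositive_toEuclideanLin_iff, LinearMap.isPositive_iff_complex]
  intro x
  have e : inner ℂ x (Matrix.toEuclideanLin M x) = ∑ i, ∑ j, star (x i) * M i j * x j := by
    rw [EuclideanSpace.inner_eq_star_dotProduct]
    simp only [Matrix.ofLp_toLpLin, Matrix.toLin'_apply, dotProduct, Matrix.mulVec, Pi.star_apply]
    refine Finset.sum_congr rfl fun i _ => ?_
    rw [Finset.sum_mul]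
    refine Finset.sum_congr rfl fun j _ => ?_
    ring
  have e2 : inner ℂ (Matrix.toEuclideanLin M x) x = star (∑ i, ∑ j, star (x i) * M i j * x j) := by
    rw [← e, ← inner_conj_symm]
    rfl
  have h1 := h x
  rw [e2]
  rw [Complex.le_def] at h1
  obtain ⟨h2, h3⟩ := h1
  set z := ∑ i, ∑ j, star (x i) * M i j * x j with hz
  simp only [Complex.zero_re, Complex.zero_im] at h2 h3
  refine ⟨?_, ?_⟩
  · apply Complex.ext
    · simp
    · simp [← h3]
  · simpa using h2

theorem nonneg_of_psd {n : Type*} [Fintype n] {M : Matrix n n ℂ} (h : M.PosSemidef)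
    (x : n → ℂ) : 0 ≤ ∑ i, ∑ j, star (x i) * M i j * x j := by
  have h1 := h.dotProduct_mulVec_nonneg x
  have e : star x ⬝ᵥ (M.mulVec x) = ∑ i, ∑ j, star (x i) * M i j * x j := by
    simp only [dotProduct, Matrix.mulVec, Pi.star_apply, Finset.mul_sum]
    refine Finset.sum_congr rfl fun i _ => Finset.sum_congr rfl fun j _ => ?_
    ring
  rwa [e] at h1

theorem psdon_iff {A : Matrix V V ℂ} {S : Finset V} :
    PSDon A S ↔ (A.submatrix (Subtype.val : {x // x ∈ S} → V) Subtype.val).PosSemidef := by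
  constructor
  · intro h
    apply psd_of_nonneg
    intro x
    have h1 := h (fun i => if hi : i ∈ S then x ⟨i, hi⟩ else 0)
    rw [← Finset.sum_coe_sort S] at h1
    convert h1 using 1
    refine Finset.sum_congr rfl fun i _ => ?_
    rw [← Finset.sum_coe_sort S]
    refine Finset.sum_congr rfl fun j _ => ?_
    simp
  · intro h x
    have h1 := nonneg_of_psd h (fun i => x i)
    rw [← Finset.sum_coe_sort S]
    convert h1 using 1
    refine Finset.sum_congr rfl fun i _ => ?_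
    rw [← Finset.sum_coe_sort S]
    rfl

end SchurAux

theorem pos_of_psd {G : Type*} [Group G] [Fintype G] [DecidableEq G] (W : G →* (H →L[ℂ] H))
    (hW : ∀ g, star (W g) = W g⁻¹) (m : G → ℂ)
    (hm : (Matrix.of fun σ τ : G => m (τ * σ⁻¹)).PosSemidef) :
    0 ≤ ∑ ρ, m ρ • W ρ⁻¹ := by
  obtain ⟨N, hN⟩ := SchurAux.factor hm
  have hN' : ∀ σ τ : G, m (τ * σ⁻¹) = ∑ k, star (N k σ) * N k τ := by
    intro σ τ
    have := congrFun (congrFun hN σ) τ
    simpa [Matrix.mul_apply] using this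
  set T : H →L[ℂ] H := ∑ ρ, m ρ • W ρ⁻¹ with hT
  let Q : G → (H →L[ℂ] H) := fun k => ∑ τ, N k τ • W τ⁻¹
  have hQ : ∑ k, star (Q k) * Q k = ((Fintype.card G : ℕ) : ℂ) • T := by
    have e1 : ∀ k, star (Q k) * Q k =
        ∑ σ, ∑ τ, (star (N k σ) * N k τ) • W (σ * τ⁻¹) := by
      intro k
      have : star (Q k) = ∑ σ, star (N k σ) • W σ := by
        simp only [Q, star_sum, star_smul, hW, inv_inv]
      rw [this, Finset.sum_mul_sum]
      refine Finset.sum_congr rfl fun σ _ => Finset.sum_congr rfl fun τ _ => ?_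
      rw [smul_mul_smul_comm, map_mul]
    have e2 : ∑ k, star (Q k) * Q k = ∑ σ : G, ∑ τ : G, m (τ * σ⁻¹) • W (σ * τ⁻¹) := by
      simp only [e1]
      rw [Finset.sum_comm]
      refine Finset.sum_congr rfl fun σ _ => ?_
      rw [Finset.sum_comm]
      refine Finset.sum_congr rfl fun τ _ => ?_
      rw [← Finset.sum_smul, hN']
    rw [e2]
    have e3 : ∀ σ : G, ∑ τ : G, m (τ * σ⁻¹) • W (σ * τ⁻¹) = T := by
      intro σ
      rw [hT]
      refine Fintype.sum_equiv (Equiv.mulRight σ⁻¹) _ _ fun τ => ?_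
      simp
    simp only [e3, Finset.sum_const, Finset.card_univ]
    rw [Nat.cast_smul_eq_nsmul ℂ]
  have hpos : 0 ≤ ((Fintype.card G : ℕ) : ℂ) • T := by
    rw [← hQ]
    exact Finset.sum_nonneg fun k _ => star_mul_self_nonneg _
  have hc : ((Fintype.card G : ℕ) : ℂ) ≠ 0 := by
    simp
  have h1 : T = ((Fintype.card G : ℕ) : ℂ)⁻¹ • (((Fintype.card G : ℕ) : ℂ) • T) := by
    rw [smul_smul, inv_mul_cancel₀ hc, one_smul]
  rw [h1]
  rw [ContinuousLinearMap.nonneg_iff_isPositive] at hpos ⊢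
  refine hpos.smul_of_nonneg ?_
  simp

theorem PSDon.submatrix {A : Matrix V V ℂ} {S : Finset V} (h : PSDon A S) {ι : Type*} [Fintype ι]
    (e : ι → V) (he : ∀ i, e i ∈ S) : (A.submatrix e e).PosSemidef :=
  (SchurAux.psdon_iff.1 h).submatrix fun i => ⟨e i, he i⟩

theorem PSDon.herm {A : Matrix V V ℂ} {S : Finset V} (h : PSDon A S) {i j : V} (hi : i ∈ S)
    (hj : j ∈ S) : star (A i j) = A j i := by
  have h1 := (SchurAux.psdon_iff.1 h).isHermitian
  exact h1.apply ⟨j, hj⟩ ⟨i, hi⟩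

theorem PSDon.mono {A : Matrix V V ℂ} {S T : Finset V} (h : PSDon A S) (hT : T ⊆ S) :
    PSDon A T :=
  SchurAux.psdon_iff.2 (h.submatrix _ fun i => hT i.2)

theorem PSDon.congr {A B : Matrix V V ℂ} {S : Finset V} (h : PSDon A S)
    (hAB : ∀ i ∈ S, ∀ j ∈ S, A i j = B i j) : PSDon B S := by
  intro x
  have h1 := h x
  convert h1 using 1
  refine Finset.sum_congr rfl fun i hi => Finset.sum_congr rfl fun j hj => ?_
  rw [hAB i hi j hj]

namespace SchurAux

/-- the homomorphism `Perm ι → Perm V` -/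
def emb {S : Finset V} {ι : Type*} (e : ι ≃ {x // x ∈ S}) : Perm ι →* Perm V :=
  (Equiv.Perm.ofSubtype (p := fun x => x ∈ S)).comp e.permCongrHom.toMonoidHom

theorem emb_apply {S : Finset V} {ι : Type*} (e : ι ≃ {x // x ∈ S}) (ρ : Perm ι) (i : ι) :
    emb e ρ (e i) = e (ρ i) := by
  simp [emb]

theorem D_eq {R : Type*} [Ring R] [Algebra ℂ R] (U : Perm V →* R) (A : Matrix V V ℂ)
    (S : Finset V) {ι : Type*} [Fintype ι] [DecidableEq ι] (e : ι ≃ {x // x ∈ S}) :
    D U A S = ∑ ρ : Perm ι, (∏ i, A (e (ρ i)) (e i)) • U (emb e ρ) := by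
  symm
  unfold D
  refine Finset.sum_bij (fun ρ _ => emb e ρ) ?_ ?_ ?_ ?_
  · intro ρ _
    simp only [PS, Finset.mem_filter, Finset.mem_univ, true_and]
    intro x hx
    by_contra hxS
    rw [Equiv.Perm.mem_support] at hx
    exact hx (Equiv.Perm.ofSubtype_apply_of_not_mem _ hxS)
  · intro a _ b _ hab
    have h1 := Equiv.Perm.ofSubtype_injective hab
    exact e.permCongrHom.injective h1
  · intro σ hσ
    simp only [PS, Finset.mem_filter, Finset.mem_univ, true_and] at hσ
    have hmem : ∀ x, σ x ≠ x → x ∈ S := fun x hx => hσ (Equiv.Perm.mem_support.2 hx)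
    have hiff : ∀ x, σ x ∈ S ↔ x ∈ S := by
      intro x
      by_cases hx : σ x = x
      · rw [hx]
      · have h1 : x ∈ S := hmem x hx
        have h2 : σ x ∈ S := by
          apply hmem
          intro h3
          exact hx (σ.injective h3)
        exact iff_of_true h2 h1
    refine ⟨e.permCongrHom.symm (σ.subtypePerm hiff), Finset.mem_univ _, ?_⟩
    show Equiv.Perm.ofSubtype (e.permCongrHom (e.permCongrHom.symm (σ.subtypePerm hiff))) = σ
    rw [MulEquiv.apply_symm_apply]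
    exact Equiv.Perm.ofSubtype_subtypePerm hiff hmem
  · intro ρ _
    congr 1
    unfold wt
    rw [← Finset.prod_coe_sort S]
    refine Fintype.prod_equiv e _ _ fun i => ?_
    rw [emb_apply]

theorem pr_eq (A : Matrix V V ℂ) (S : Finset V) {ι : Type*} [Fintype ι] [DecidableEq ι]
    (e : ι ≃ {x // x ∈ S}) :
    pr A S = (A.submatrix (fun i => (e i : V)) fun i => (e i : V)).permanent := by
  have h := D_eq (1 : Perm V →* ℂ) A S e
  simp only [MonoidHom.one_apply, smul_eq_mul, mul_one] at h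
  have h2 : D (1 : Perm V →* ℂ) A S = pr A S := by
    simp [D, pr]
  rw [← h2, h]
  rfl

theorem psd_one {n : Type*} [Fintype n] [DecidableEq n] :
    (Matrix.of fun _ _ : n => (1 : ℂ)).PosSemidef := by
  have h := Matrix.posSemidef_vecMulVec_self_star (fun _ : n => (1 : ℂ))
  convert h using 1
  ext i j
  simp [Matrix.vecMulVec_apply]

theorem psd_prod {ι n : Type*} [Fintype n] [DecidableEq n] [DecidableEq ι] (s : Finset ι)
    (M : ι → Matrix n n ℂ) (h : ∀ i ∈ s, (M i).PosSemidef) :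
    (Matrix.of fun σ τ : n => ∏ i ∈ s, M i σ τ).PosSemidef := by
  induction s using Finset.induction_on with
  | empty => simpa using psd_one
  | insert a s ha ih =>
    have h1 := (h a (by simp)).hadamard (ih fun i hi => h i (by simp [hi]))
    have e : (Matrix.of fun σ τ : n => ∏ i ∈ insert a s, M i σ τ) =
        (M a).hadamard (Matrix.of fun σ τ : n => ∏ i ∈ s, M i σ τ) := by
      ext σ τ
      simp [Matrix.hadamard_apply, Finset.prod_insert ha]
    rw [e]
    exact h1

theorem psd_power {ι : Type*} [Fintype ι] [DecidableEq ι] {B : Matrix ι ι ℂ}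
    (hB : B.PosSemidef) : (Matrix.of fun σ τ : Perm ι => ∏ i, B (σ i) (τ i)).PosSemidef :=
  psd_prod Finset.univ (fun i => B.submatrix (fun σ : Perm ι => σ i) fun σ => σ i)
    fun i _ => hB.submatrix _

theorem prod_comp {ι : Type*} [Fintype ι] [DecidableEq ι] (B : Matrix ι ι ℂ) (σ τ : Perm ι) :
    ∏ i, B i ((τ * σ⁻¹) i) = ∏ i, B (σ i) (τ i) := by
  symm
  refine Fintype.prod_equiv σ _ _ fun i => ?_
  simp

theorem prod_inv {ι : Type*} [Fintype ι] [DecidableEq ι] (B : Matrix ι ι ℂ) (ρ : Perm ι) :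
    ∏ i, B (ρ⁻¹ i) i = ∏ i, B i (ρ i) := by
  symm
  refine Fintype.prod_equiv ρ _ _ fun i => ?_
  simp

theorem uni_comp {U : Perm V →* (H →L[ℂ] H)} (hU : Uni U) {S : Finset V} {ι : Type*}
    (e : ι ≃ {x // x ∈ S}) (g : Perm ι) : star (U.comp (emb e) g) = U.comp (emb e) g⁻¹ := by
  have h := map_inv (emb e) g
  rw [MonoidHom.comp_apply, MonoidHom.comp_apply, hU, h]

theorem D_eq' {R : Type*} [Ring R] [Algebra ℂ R] (U : Perm V →* R) (A : Matrix V V ℂ)
    (S : Finset V) {ι : Type*} [Fintype ι] [DecidableEq ι] (e : ι ≃ {x // x ∈ S}) :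
    D U A S = ∑ ρ : Perm ι, (∏ i, A (e i) (e (ρ i))) • U.comp (emb e) ρ⁻¹ := by
  rw [D_eq U A S e]
  refine Fintype.sum_equiv (Equiv.inv _) _ _ fun ρ => ?_
  have h := prod_inv (A.submatrix (fun i => (e i : V)) fun i => (e i : V)) ρ⁻¹
  simp only [Matrix.submatrix_apply, inv_inv] at h
  simp only [Equiv.inv_apply, inv_inv, MonoidHom.comp_apply]
  rw [h]

end SchurAux

theorem D_nonneg (U : Perm V →* (H →L[ℂ] H)) (hU : Uni U) {A : Matrix V V ℂ} {S : Finset V}
    (hA : PSDon A S) : 0 ≤ D U A S := by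
  rw [SchurAux.D_eq' U A S (Equiv.refl _)]
  refine pos_of_psd (U.comp (SchurAux.emb (Equiv.refl _))) ?_
    (fun ρ => ∏ i : {x // x ∈ S}, A i (ρ i)) ?_
  · exact SchurAux.uni_comp hU _
  · have h := SchurAux.psd_power (SchurAux.psdon_iff.1 hA)
    have e : (Matrix.of fun σ τ : Perm {x // x ∈ S} => ∏ i : {x // x ∈ S}, A i ((τ * σ⁻¹) i)) =
        Matrix.of fun σ τ : Perm {x // x ∈ S} =>
          ∏ i, (A.submatrix (Subtype.val : {x // x ∈ S} → V) Subtype.val) (σ i) (τ i) := by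
      ext σ τ
      exact SchurAux.prod_comp (A.submatrix (Subtype.val : {x // x ∈ S} → V) Subtype.val) σ τ
    exact e ▸ h

theorem pr_nonneg {A : Matrix V V ℂ} {S : Finset V} (hA : PSDon A S) : 0 ≤ pr A S := by
  have h1 := D_nonneg (H := ℂ) (1 : Perm V →* (ℂ →L[ℂ] ℂ)) (by intro g; simp) hA
  have h2 : D (1 : Perm V →* (ℂ →L[ℂ] ℂ)) A S = pr A S • (1 : ℂ →L[ℂ] ℂ) := by
    simp only [D, pr, MonoidHom.one_apply]
    exact (Finset.sum_smul).symm
  rw [h2, ContinuousLinearMap.nonneg_iff_isPositive] at h1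
  have h3 := h1.inner_nonneg_right 1
  simpa using h3

/-- permanent on top for one matrix -/
def Top {ι : Type*} [Fintype ι] [DecidableEq ι] (B : Matrix ι ι ℂ) : Prop :=
  ∀ x : Perm ι → ℂ, (∑ σ : Perm ι, ∑ τ : Perm ι, star (x σ) * (∏ i, B (σ i) (τ i)) * x τ).re
    ≤ B.permanent.re * ∑ σ : Perm ι, ‖x σ‖ ^ 2

theorem D_le_of_top (U : Perm V →* (H →L[ℂ] H)) (hU : Uni U) {A : Matrix V V ℂ} {S : Finset V}
    (hA : PSDon A S) {ι : Type*} [Fintype ι] [DecidableEq ι] (e : ι ≃ {x // x ∈ S})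
    (hT : Top (A.submatrix (fun i => (e i : V)) fun i => (e i : V))) :
    D U A S ≤ pr A S • (1 : H →L[ℂ] H) := by
  set B := A.submatrix (fun i => (e i : V)) fun i => (e i : V) with hB
  have hBp : B.PosSemidef := hA.submatrix _ fun i => (e i).2
  have hper : pr A S = B.permanent := SchurAux.pr_eq A S e
  have hper0 : 0 ≤ B.permanent := hper ▸ pr_nonneg hA
  rw [← sub_nonneg]
  have key := pos_of_psd (U.comp (SchurAux.emb e))
    (SchurAux.uni_comp hU e)
    (fun ρ : Perm ι => (if ρ = 1 then B.permanent else 0) - ∏ i, B i (ρ i)) (by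
      apply SchurAux.psd_of_nonneg
      intro x
      have h1 := SchurAux.nonneg_of_psd (SchurAux.psd_power hBp) x
      have h2 := hT x
      simp only [Matrix.of_apply] at h1 ⊢
      have e1 : ∀ σ τ : Perm ι, star (x σ) * ((if τ * σ⁻¹ = 1 then B.permanent else 0) -
          ∏ i, B i ((τ * σ⁻¹) i)) * x τ = (if σ = τ then B.permanent * ((‖x σ‖ ^ 2 : ℝ) : ℂ) else 0)
          - star (x σ) * (∏ i, B (σ i) (τ i)) * x τ := by
        intro σ τ
        rw [SchurAux.prod_comp]
        by_cases h : σ = τ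
        · subst h
          rw [mul_inv_cancel, if_pos rfl, if_pos rfl, ← Complex.normSq_eq_norm_sq,
            Complex.normSq_eq_conj_mul_self]
          simp only [Complex.star_def]
          ring
        · have h' : ¬ (τ * σ⁻¹ = 1) := fun h3 => h (mul_inv_eq_one.1 h3).symm
          rw [if_neg h, if_neg h']
          ring
      simp only [e1, Finset.sum_sub_distrib, Finset.sum_ite_eq, Finset.mem_univ, if_true]
      rw [← Finset.mul_sum]
      rw [Complex.le_def] at hper0 h1 ⊢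
      simp only [Complex.zero_re, Complex.zero_im] at hper0 h1 ⊢
      have e2 : (∑ i, ((‖x i‖ ^ 2 : ℝ) : ℂ)) = ((∑ i, ‖x i‖ ^ 2 : ℝ) : ℂ) := by push_cast; rfl
      rw [e2]
      constructor
      · rw [Complex.sub_re, Complex.re_mul_ofReal]
        linarith
      · rw [Complex.sub_im, Complex.im_mul_ofReal, ← h1.2, ← hper0.2]
        simp)
  convert key using 1
  rw [SchurAux.D_eq' U A S e, hper]
  simp only [sub_smul, Finset.sum_sub_distrib]
  congr 1
  simp

end PGB
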