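import Pool.Agent.Lib.PGB.Basic
import Pool.Agent.Lib.PGB.Schur

/-!
# PGB.Path: the interpolation on a path

PROOF of `leaf_cyc`: `C v ∈ S` is a neighbour of `v`, so `C v = u`; `C (C⁻¹ v) = v`, `C⁻¹ v ≠ v`, so
`C⁻¹ v ∈ S` is a neighbour of `v`, `C⁻¹ v = u`, i.e. `C u = v`; then
`Equiv.Perm.IsCycle.eq_swap_of_apply_apply_eq_self`.
PROOF of `X_leaf`: `X_rec` at `v`; only `C = swap u v` has nonzero weight
`wt A {u, v} (swap u v) = A v u * A u v`; `insert v S \ {u, v} = S.erase u`.

PROOF of `path_sum` (no positivity of `A` is needed). Let `X_k = X U A s (J u k)`, `Y_k = X U A (1-s) (J u k)`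
with `0 ≤ s ≤ 1/2`, `t = 1 - 2 s ≥ 0`, `T = U (swap (u k) (u (k+1)))`, `a = |A (u k) (u (k+1))|²`. By `X_leaf`
`X_{k+2} = X_{k+1} + a • act s * X_k`, `act s = ½ (1 + T) + (t/2) (1 - T)`,
`act (1-s) = ½ (1 + T) - (t/2) (1 - T)`. So `Σ = X + Y`, `Δ = X - Y` satisfy
`Σ_{k+2} = Σ_{k+1} + a (½ (1 + T) Σ_k + (t/2) (1 - T) Δ_k)`,
`Δ_{k+2} = Δ_{k+1} + a (½ (1 + T) Δ_k + (t/2) (1 - T) Σ_k)`,
`Σ_0 = Σ_1 = 2`, `Δ_0 = Δ_1 = 0`. By induction `Σ_k ≥ 2`, `Δ_k ≥ 0`: `1 ± T ≥ 0` commute with `Σ_k`, `Δ_k`
(`X_comm`; the supports are disjoint) and `Commute.mul_nonneg` applies. For `s > 1/2` exchange `s` and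
`1 - s`.
-/

set_option autoImplicit false

open scoped ComplexOrder InnerProductSpace
open Finset Equiv

namespace PGB

variable {V : Type*} [Fintype V] [DecidableEq V]

namespace PathAux

theorem mem_CZ {S : Finset V} {z : V} {C : Perm V} :
    C ∈ CZ S z ↔ C.IsCycle ∧ z ∈ C.support ∧ C.support ⊆ S := by
  classical
  simp [CZ]

theorem app_inv (C : Perm V) (v : V) : C (C⁻¹ v) = v := by
  rw [← Perm.mul_apply, mul_inv_cancel, Perm.one_apply]

end PathAux

open PathAux in
theorem leaf_cyc {A : Matrix V V ℂ} {S : Finset V} {u v : V} (hv : v ∉ S)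
    (hA : ∀ j ∈ S, j ≠ u → A v j = 0 ∧ A j v = 0) {C : Perm V} (hC : C.IsCycle)
    (hz : v ∈ C.support) (hS : C.support ⊆ insert v S) (hw : wt A C.support C ≠ 0) :
    C = swap u v := by
  have hne : ∀ i ∈ C.support, A (C i) i ≠ 0 := fun i hi => (Finset.prod_ne_zero_iff.1 hw) i hi
  have hCv : C v ≠ v := Perm.mem_support.1 hz
  have hmem : ∀ i ∈ C.support, i ≠ v → i ∈ S := fun i hi hiv =>
    (Finset.mem_insert.1 (hS hi)).resolve_left hiv
  have h1 : C v = u := by
    by_contra h
    exact hne v hz (hA (C v) (hmem _ (Perm.apply_mem_support.2 hz) hCv) h).2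
  have h2 : C⁻¹ v = u := by
    by_contra h
    have h3 : C⁻¹ v ∈ C.support := by
      rw [← Perm.apply_mem_support, app_inv]
      exact hz
    have h4 : C⁻¹ v ≠ v := by
      intro h5
      have h6 := congrArg C h5
      rw [app_inv] at h6
      exact hCv h6.symm
    have h7 := hne _ h3
    rw [app_inv] at h7
    exact h7 (hA _ (hmem _ h3 h4) h).1
  have h8 : C u = v := by rw [← h2, app_inv]
  have h9 := hC.eq_swap_of_apply_apply_eq_self hCv (by rw [h1, h8])
  rw [h9, h1, swap_comm]

open PathAux in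
theorem X_leaf {R : Type*} [Ring R] [Algebra ℂ R] (U : Perm V →* R) (A : Matrix V V ℂ) (s : ℝ)
    {S : Finset V} {u v : V} (hv : v ∉ S) (hu : u ∈ S)
    (hA : ∀ j ∈ S, j ≠ u → A v j = 0 ∧ A j v = 0) :
    X U A s (insert v S) = A v v • X U A s S +
      (A u v * A v u) • (act U s (swap u v) * X U A s (S.erase u)) := by
  have huv : u ≠ v := fun h => hv (h ▸ hu)
  have hsupp : (swap u v).support = {u, v} := Perm.support_swap huv
  rw [X_rec U A s (Finset.mem_insert_self v S), Finset.erase_insert hv,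
    Finset.sum_eq_single (swap u v)]
  · rw [hsupp]
    have h1 : insert v S \ {u, v} = S.erase u := by
      ext i
      simp only [Finset.mem_sdiff, Finset.mem_insert, Finset.mem_singleton, Finset.mem_erase]
      constructor
      · rintro ⟨h3 | h3, h4⟩
        · exact absurd (Or.inr h3) h4
        · exact ⟨fun h => h4 (Or.inl h), h3⟩
      · rintro ⟨h3, h4⟩
        refine ⟨Or.inr h4, ?_⟩
        rintro (h | h)
        · exact h3 h
        · exact hv (h ▸ h4)
    have h2 : wt A {u, v} (swap u v) = A u v * A v u := by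
      unfold wt
      rw [Finset.prod_pair huv, swap_apply_left, swap_apply_right]
      ring
    rw [h1, h2]
  · intro C hC hne
    have hC' := mem_CZ.1 hC
    by_cases hw : wt A C.support C = 0
    · rw [hw, zero_smul]
    · exact absurd (leaf_cyc hv hA hC'.1 hC'.2.1 hC'.2.2 hw) hne
  · intro h
    exfalso
    apply h
    refine mem_CZ.2 ⟨Perm.isCycle_swap huv, ?_, ?_⟩
    · rw [hsupp]
      simp
    · rw [hsupp]
      intro i hi
      rcases Finset.mem_insert.1 hi with h3 | h3
      · exact Finset.mem_insert_of_mem (h3 ▸ hu)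
      · rw [Finset.mem_singleton.1 h3]
        exact Finset.mem_insert_self _ _

/-- the first `k` vertices of a path -/
def J (u : ℕ → V) (k : ℕ) : Finset V := (range k).image u

namespace PathAux

theorem J_zero (u : ℕ → V) : J u 0 = ∅ := by
  simp [J]

theorem J_succ (u : ℕ → V) (k : ℕ) : J u (k + 1) = insert (u k) (J u k) := by
  unfold J
  rw [Finset.range_add_one, Finset.image_insert]

theorem mem_J {u : ℕ → V} {k : ℕ} {v : V} : v ∈ J u k ↔ ∃ i < k, u i = v := by
  simp [J]

theorem CZ_singleton (z : V) : CZ {z} z = ∅ := by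
  refine Finset.eq_empty_of_forall_notMem fun C hC => ?_
  have hC' := mem_CZ.1 hC
  have h1 := hC'.1.two_le_card_support
  have h2 := Finset.card_le_card hC'.2.2
  rw [Finset.card_singleton] at h2
  omega

theorem X_singleton {R : Type*} [Ring R] [Algebra ℂ R] (U : Perm V →* R) (A : Matrix V V ℂ)
    (s : ℝ) (z : V) (hz : A z z = 1) : X U A s {z} = 1 := by
  rw [X_rec U A s (Finset.mem_singleton_self z), CZ_singleton, Finset.sum_empty, hz, one_smul,
    add_zero]
  have h1 : ({z} : Finset V).erase z = ∅ := by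
    simp
  rw [h1, X_empty]

variable {H : Type*} [NormedAddCommGroup H] [InnerProductSpace ℂ H] [CompleteSpace H]

/-- the algebra of the step -/
theorem step_sum (s : ℝ) (T X Y : H →L[ℂ] H) :
    ((((1 - s : ℝ) : ℂ) • (1 : H →L[ℂ] H) + (s : ℂ) • T) * X +
      (((1 - (1 - s) : ℝ) : ℂ) • (1 : H →L[ℂ] H) + ((1 - s : ℝ) : ℂ) • T) * Y) =
      (1 / 2 : ℂ) • ((1 + T) * (X + Y)) + ((1 / 2 * (1 - 2 * s) : ℝ) : ℂ) •
        ((1 - T) * (X - Y)) := by
  have h1 : ((1 - s : ℝ) : ℂ) = 1 - (s : ℂ) := by push_cast; ring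
  have h2 : ((1 - (1 - s) : ℝ) : ℂ) = (s : ℂ) := by push_cast; ring
  have h3 : ((1 / 2 * (1 - 2 * s) : ℝ) : ℂ) = 1 / 2 * (1 - 2 * (s : ℂ)) := by push_cast; ring
  rw [h1, h2, h3]
  simp only [add_mul, sub_mul, mul_add, mul_sub, one_mul, smul_mul_assoc]
  module

theorem step_dif (s : ℝ) (T X Y : H →L[ℂ] H) :
    ((((1 - s : ℝ) : ℂ) • (1 : H →L[ℂ] H) + (s : ℂ) • T) * X -
      (((1 - (1 - s) : ℝ) : ℂ) • (1 : H →L[ℂ] H) + ((1 - s : ℝ) : ℂ) • T) * Y) =
      (1 / 2 : ℂ) • ((1 + T) * (X - Y)) + ((1 / 2 * (1 - 2 * s) : ℝ) : ℂ) •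
        ((1 - T) * (X + Y)) := by
  have h1 : ((1 - s : ℝ) : ℂ) = 1 - (s : ℂ) := by push_cast; ring
  have h2 : ((1 - (1 - s) : ℝ) : ℂ) = (s : ℂ) := by push_cast; ring
  have h3 : ((1 / 2 * (1 - 2 * s) : ℝ) : ℂ) = 1 / 2 * (1 - 2 * (s : ℂ)) := by push_cast; ring
  rw [h1, h2, h3]
  simp only [add_mul, sub_mul, mul_add, mul_sub, one_mul, smul_mul_assoc]
  module

theorem one_add_nonneg {T : H →L[ℂ] H} (h1 : star T = T) (h2 : T * T = 1) : 0 ≤ 1 + T := by
  have h3 : 1 + T = (1 / 2 : ℂ) • (star (1 + T) * (1 + T)) := by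
    rw [star_add, star_one, h1, add_mul, mul_add, mul_add, h2, one_mul, mul_one, one_mul]
    module
  rw [h3]
  refine smul_nonneg ?_ (star_mul_self_nonneg _)
  rw [Complex.nonneg_iff]
  norm_num

theorem one_sub_nonneg {T : H →L[ℂ] H} (h1 : star T = T) (h2 : T * T = 1) : 0 ≤ 1 - T := by
  have h3 := one_add_nonneg (T := -T) (by rw [star_neg, h1]) (by rw [neg_mul_neg, h2])
  rwa [← sub_eq_add_neg] at h3

theorem ofReal_nn {r : ℝ} (hr : 0 ≤ r) : (0 : ℂ) ≤ (r : ℂ) := by
  rw [Complex.nonneg_iff]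
  exact ⟨by simpa using hr, by simp⟩

/-- the case `s ≤ 1/2` -/
theorem path_half (U : Perm V →* (H →L[ℂ] H)) (hU : Uni U) (A : Matrix V V ℂ) (u : ℕ → V) (K : ℕ)
    (hinj : ∀ i < K, ∀ j < K, u i = u j → i = j)
    (hherm : ∀ i < K, ∀ j < K, star (A (u i) (u j)) = A (u j) (u i))
    (hdiag : ∀ i < K, A (u i) (u i) = 1)
    (hzero : ∀ i < K, ∀ j < K, i + 2 ≤ j → A (u i) (u j) = 0)
    (s : ℝ) (hs : s ≤ 1 / 2) (k : ℕ) :
    k ≤ K → ((2 : ℂ) • (1 : H →L[ℂ] H) ≤ X U A s (J u k) + X U A (1 - s) (J u k) ∧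
      0 ≤ X U A s (J u k) - X U A (1 - s) (J u k)) := by
  induction k using Nat.strong_induction_on with
  | _ k ih =>
    intro hk
    match k, ih, hk with
    | 0, _, _ =>
      rw [J_zero, X_empty, X_empty, sub_self]
      refine ⟨le_of_eq ?_, le_rfl⟩
      module
    | 1, _, hk =>
      have h1 : J u 1 = {u 0} := by
        rw [J_succ, J_zero]
        rfl
      have h2 := hdiag 0 (by omega)
      rw [h1, X_singleton U A s _ h2, X_singleton U A (1 - s) _ h2, sub_self]
      refine ⟨le_of_eq ?_, le_rfl⟩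
      module
    | k + 2, ih, hk =>
      obtain ⟨hS0, hD0⟩ := ih k (by omega) (by omega)
      obtain ⟨hS1, hD1⟩ := ih (k + 1) (by omega) (by omega)
      have hv : u (k + 1) ∉ J u (k + 1) := by
        rw [mem_J]
        rintro ⟨i, hi, h⟩
        have := hinj i (by omega) (k + 1) (by omega) h
        omega
      have hu : u k ∈ J u (k + 1) := mem_J.2 ⟨k, by omega, rfl⟩
      have hA : ∀ j ∈ J u (k + 1), j ≠ u k → A (u (k + 1)) j = 0 ∧ A j (u (k + 1)) = 0 := by
        intro j hj hjk
        obtain ⟨i, hi, rfl⟩ := mem_J.1 hj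
        have hik : i ≠ k := fun e => hjk (by rw [e])
        have h3 := hzero i (by omega) (k + 1) (by omega) (by omega)
        refine ⟨?_, h3⟩
        rw [← hherm i (by omega) (k + 1) (by omega), h3, star_zero]
      have herase : (J u (k + 1)).erase (u k) = J u k := by
        rw [J_succ, Finset.erase_insert]
        rw [mem_J]
        rintro ⟨i, hi, h⟩
        have := hinj i (by omega) k (by omega) h
        omega
      have hX : ∀ r : ℝ, X U A r (J u (k + 2)) = X U A r (J u (k + 1)) +
          (A (u k) (u (k + 1)) * A (u (k + 1)) (u k)) •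
            (act U r (swap (u k) (u (k + 1))) * X U A r (J u k)) := by
        intro r
        rw [J_succ u (k + 1), X_leaf U A r hv hu hA, hdiag (k + 1) (by omega), one_smul, herase]
      have ha : (0 : ℂ) ≤ A (u k) (u (k + 1)) * A (u (k + 1)) (u k) := by
        rw [← hherm k (by omega) (k + 1) (by omega)]
        have h4 : A (u k) (u (k + 1)) * star (A (u k) (u (k + 1))) =
            ((Complex.normSq (A (u k) (u (k + 1))) : ℝ) : ℂ) := Complex.mul_conj _
        rw [h4]
        exact ofReal_nn (Complex.normSq_nonneg _)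
      have huv : u k ≠ u (k + 1) := fun h => by
        have := hinj k (by omega) (k + 1) (by omega) h
        omega
      have hdis : Disjoint (swap (u k) (u (k + 1))).support (J u k) := by
        rw [Perm.support_swap huv, Finset.disjoint_left]
        intro i hi hi2
        obtain ⟨l, hl, rfl⟩ := mem_J.1 hi2
        rcases Finset.mem_insert.1 hi with h | h
        · have := hinj l (by omega) k (by omega) h
          omega
        · have := hinj l (by omega) (k + 1) (by omega) (Finset.mem_singleton.1 h)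
          omega
      have hcomm : ∀ r : ℝ, Commute (U (swap (u k) (u (k + 1)))) (X U A r (J u k)) := fun r =>
        X_comm U A r hdis
      have hstar : star (U (swap (u k) (u (k + 1)))) = U (swap (u k) (u (k + 1))) := by
        rw [hU, swap_inv]
      have hsq : U (swap (u k) (u (k + 1))) * U (swap (u k) (u (k + 1))) = 1 := by
        rw [← map_mul, swap_mul_self, map_one]
      have h1s := one_add_nonneg hstar hsq
      have h2s := one_sub_nonneg hstar hsq
      have hsum : act U s (swap (u k) (u (k + 1))) * X U A s (J u k) +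
          act U (1 - s) (swap (u k) (u (k + 1))) * X U A (1 - s) (J u k) =
          (1 / 2 : ℂ) • ((1 + U (swap (u k) (u (k + 1)))) *
            (X U A s (J u k) + X U A (1 - s) (J u k))) +
          ((1 / 2 * (1 - 2 * s) : ℝ) : ℂ) • ((1 - U (swap (u k) (u (k + 1)))) *
            (X U A s (J u k) - X U A (1 - s) (J u k))) := step_sum s _ _ _
      have hdif : act U s (swap (u k) (u (k + 1))) * X U A s (J u k) -
          act U (1 - s) (swap (u k) (u (k + 1))) * X U A (1 - s) (J u k) =
          (1 / 2 : ℂ) • ((1 + U (swap (u k) (u (k + 1)))) *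
            (X U A s (J u k) - X U A (1 - s) (J u k))) +
          ((1 / 2 * (1 - 2 * s) : ℝ) : ℂ) • ((1 - U (swap (u k) (u (k + 1)))) *
            (X U A s (J u k) + X U A (1 - s) (J u k))) := step_dif s _ _ _
      have hhalf : (0 : ℂ) ≤ 1 / 2 := by
        rw [Complex.nonneg_iff]
        norm_num
      have ht : (0 : ℂ) ≤ ((1 / 2 * (1 - 2 * s) : ℝ) : ℂ) := ofReal_nn (by linarith)
      have hS0' : 0 ≤ X U A s (J u k) + X U A (1 - s) (J u k) := by
        refine le_trans ?_ hS0
        refine smul_nonneg ?_ zero_le_one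
        rw [Complex.nonneg_iff]
        norm_num
      have c1 : Commute (1 + U (swap (u k) (u (k + 1))))
          (X U A s (J u k) + X U A (1 - s) (J u k)) :=
        ((Commute.one_left _).add_left ((hcomm s).add_right (hcomm (1 - s))))
      have c2 : Commute (1 - U (swap (u k) (u (k + 1))))
          (X U A s (J u k) - X U A (1 - s) (J u k)) :=
        ((Commute.one_left _).sub_left ((hcomm s).sub_right (hcomm (1 - s))))
      have c3 : Commute (1 + U (swap (u k) (u (k + 1))))
          (X U A s (J u k) - X U A (1 - s) (J u k)) :=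
        ((Commute.one_left _).add_left ((hcomm s).sub_right (hcomm (1 - s))))
      have c4 : Commute (1 - U (swap (u k) (u (k + 1))))
          (X U A s (J u k) + X U A (1 - s) (J u k)) :=
        ((Commute.one_left _).sub_left ((hcomm s).add_right (hcomm (1 - s))))
      rw [hX s, hX (1 - s)]
      constructor
      · have e1 : X U A s (J u (k + 1)) + (A (u k) (u (k + 1)) * A (u (k + 1)) (u k)) •
              (act U s (swap (u k) (u (k + 1))) * X U A s (J u k)) +
            (X U A (1 - s) (J u (k + 1)) + (A (u k) (u (k + 1)) * A (u (k + 1)) (u k)) •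
              (act U (1 - s) (swap (u k) (u (k + 1))) * X U A (1 - s) (J u k))) =
            (X U A s (J u (k + 1)) + X U A (1 - s) (J u (k + 1))) +
            (A (u k) (u (k + 1)) * A (u (k + 1)) (u k)) •
              (act U s (swap (u k) (u (k + 1))) * X U A s (J u k) +
                act U (1 - s) (swap (u k) (u (k + 1))) * X U A (1 - s) (J u k)) := by
          rw [smul_add]
          abel
        rw [e1, hsum]
        refine le_add_of_le_of_nonneg hS1 (smul_nonneg ha (add_nonneg ?_ ?_))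
        · exact smul_nonneg hhalf (Commute.mul_nonneg h1s hS0' c1)
        · exact smul_nonneg ht (Commute.mul_nonneg h2s hD0 c2)
      · have e1 : X U A s (J u (k + 1)) + (A (u k) (u (k + 1)) * A (u (k + 1)) (u k)) •
              (act U s (swap (u k) (u (k + 1))) * X U A s (J u k)) -
            (X U A (1 - s) (J u (k + 1)) + (A (u k) (u (k + 1)) * A (u (k + 1)) (u k)) •
              (act U (1 - s) (swap (u k) (u (k + 1))) * X U A (1 - s) (J u k))) =
            (X U A s (J u (k + 1)) - X U A (1 - s) (J u (k + 1))) +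
            (A (u k) (u (k + 1)) * A (u (k + 1)) (u k)) •
              (act U s (swap (u k) (u (k + 1))) * X U A s (J u k) -
                act U (1 - s) (swap (u k) (u (k + 1))) * X U A (1 - s) (J u k)) := by
          rw [smul_sub]
          abel
        rw [e1, hdif]
        refine add_nonneg hD1 (smul_nonneg ha (add_nonneg ?_ ?_))
        · exact smul_nonneg hhalf (Commute.mul_nonneg h1s hD0 c3)
        · exact smul_nonneg ht (Commute.mul_nonneg h2s hS0' c4)

end PathAux

variable {H : Type*} [NormedAddCommGroup H] [InnerProductSpace ℂ H] [CompleteSpace H]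

theorem path_sum (U : Perm V →* (H →L[ℂ] H)) (hU : Uni U) (A : Matrix V V ℂ) (u : ℕ → V) (K : ℕ)
    (hinj : ∀ i < K, ∀ j < K, u i = u j → i = j)
    (hherm : ∀ i < K, ∀ j < K, star (A (u i) (u j)) = A (u j) (u i))
    (hdiag : ∀ i < K, A (u i) (u i) = 1)
    (hzero : ∀ i < K, ∀ j < K, i + 2 ≤ j → A (u i) (u j) = 0)
    (s : ℝ) (h0 : 0 ≤ s) (h1 : s ≤ 1) :
    (2 : ℂ) • (1 : H →L[ℂ] H) ≤ X U A s (J u K) + X U A (1 - s) (J u K) := by
  rcases le_total s (1 / 2) with h | h
  · exact (PathAux.path_half U hU A u K hinj hherm hdiag hzero s h K le_rfl).1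
  · have h2 := (PathAux.path_half U hU A u K hinj hherm hdiag hzero (1 - s) (by linarith) K
      le_rfl).1
    rwa [sub_sub_cancel, add_comm] at h2

end PGB
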