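import Pool.Agent.Lib.PGB.Basic

/-!
# PGB.SAdj: `X` is self-adjoint for Hermitian matrices

PROOF by strong induction on `S.card` from `X_rec`: the map `C ↦ C⁻¹` is an involution of `CZ S z` that
preserves the support; `star (act U s C) = act U s C⁻¹`; `star (wt A C.support C) = wt A C.support C⁻¹`
(substitute `i ↦ C i`; for `i` in the support `C i` is in the support); and
`star (act * X) = X * act⁻¹-version = act * X` by `X_comm` (the supports are disjoint). The star of
`c • a` is `star c • star a`. `A z z` is real.
-/

set_option autoImplicit false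
set_option linter.unusedSectionVars false

open scoped ComplexOrder
open Finset Equiv

namespace PGB

variable {V : Type*} [Fintype V] [DecidableEq V]
variable {H : Type*} [NormedAddCommGroup H] [InnerProductSpace ℂ H] [CompleteSpace H]

namespace SAdjAux

theorem star_act (U : Perm V →* (H →L[ℂ] H)) (hU : Uni U) (s : ℝ) (C : Perm V) :
    star (act U s C) = act U s C⁻¹ := by
  unfold act
  rw [star_add, star_smul, star_smul, hU C, star_one]
  simp only [RCLike.star_def, Complex.conj_ofReal]

theorem mem_CZ {S : Finset V} {z : V} {C : Perm V} :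
    C ∈ CZ S z ↔ C.IsCycle ∧ z ∈ C.support ∧ C.support ⊆ S := by
  unfold CZ
  simp

theorem star_wt {A : Matrix V V ℂ} {S : Finset V}
    (hA : ∀ i ∈ S, ∀ j ∈ S, star (A i j) = A j i) {C : Perm V} (hC : C.support ⊆ S) :
    star (wt A C.support C) = wt A C⁻¹.support C⁻¹ := by
  unfold wt
  rw [star_prod, Perm.support_inv]
  refine Finset.prod_bij (fun i _ => C i) (fun i hi => Perm.apply_mem_support.mpr hi)
    (fun i _ j _ h => C.injective h) (fun j hj => ⟨C⁻¹ j, ?_, ?_⟩) (fun i hi => ?_)
  · rw [← Perm.support_inv, Perm.apply_mem_support, Perm.support_inv]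
    exact hj
  · simp
  · rw [hA _ (hC (Perm.apply_mem_support.mpr hi)) _ (hC hi)]
    simp

end SAdjAux

open SAdjAux

theorem X_star (U : Perm V →* (H →L[ℂ] H)) (hU : Uni U) (A : Matrix V V ℂ) (s : ℝ) (S : Finset V)
    (hA : ∀ i ∈ S, ∀ j ∈ S, star (A i j) = A j i) : star (X U A s S) = X U A s S := by
  induction S using Finset.strongInduction with
  | H S ih =>
    rcases S.eq_empty_or_nonempty with rfl | ⟨z, hz⟩
    · rw [X_empty, star_one]
    · rw [X_rec U A s hz, star_add, star_smul, star_sum, hA z hz z hz,
        ih _ (Finset.erase_ssubset hz) fun i hi j hj =>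
          hA i (Finset.mem_of_mem_erase hi) j (Finset.mem_of_mem_erase hj)]
      congr 1
      refine Finset.sum_bij (fun C _ => C⁻¹) (fun C hC => ?_) (fun C _ C' _ h => inv_injective h)
        (fun C hC => ⟨C⁻¹, ?_, inv_inv C⟩) (fun C hC => ?_)
      · rw [mem_CZ] at hC ⊢
        rw [Perm.support_inv]
        exact ⟨hC.1.inv, hC.2⟩
      · rw [mem_CZ] at hC ⊢
        rw [Perm.support_inv]
        exact ⟨hC.1.inv, hC.2⟩
      · rw [mem_CZ] at hC
        obtain ⟨_, hzC, hCS⟩ := hC
        have hss : S \ C.support ⊂ S :=
          (Finset.sdiff_subset).ssubset_of_ne fun h => by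
            have : z ∈ S \ C.support := by rw [h]; exact hz
            exact (Finset.mem_sdiff.mp this).2 hzC
        have hX : star (X U A s (S \ C.support)) = X U A s (S \ C.support) :=
          ih _ hss fun i hi j hj =>
            hA i (Finset.mem_sdiff.mp hi).1 j (Finset.mem_sdiff.mp hj).1
        have hcomm : Commute (U C⁻¹) (X U A s (S \ C.support)) := by
          refine X_comm U A s ?_
          rw [Perm.support_inv]
          exact Finset.disjoint_sdiff
        have hcomm2 : Commute (act U s C⁻¹) (X U A s (S \ C.support)) := by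
          unfold act
          exact Commute.add_left ((Commute.one_left _).smul_left _) (hcomm.smul_left _)
        rw [star_smul, star_mul, hX, star_act U hU, star_wt hA hCS, ← hcomm2.eq, Perm.support_inv]

end PGB
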