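import Pool.Agent.Lib.PGB.Defs

/-!
# PGB.StarIneq: the defect of a cycle is bounded by the products of the defects of its edges

`dd U x i j = ‖x - U (swap i j) x‖`.

PROOF of `dd_tri` (`dd` is a metric): let `a, b, c` be distinct, `T_ab = U (swap a b)` etc.,
`u = x - T_ab x`, `v = x - T_bc x`, `w = x - T_ac x`, `z = T_bc u + T_ab v` and
`y = x - T_ab x - T_bc x - T_ac x + T_ab T_bc x + T_bc T_ab x`. Then `w = z + y`. Every transposition
`T` among `a, b, c` satisfies `T y = - y`; hence `⟪z, y⟫ = -4 ⟪x, y⟫` and `⟪y, y⟫ = 6 ⟪x, y⟫`, so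
`‖w‖² = ‖z‖² + 2 re ⟪z, y⟫ + ‖y‖² = ‖z‖² - ‖y‖² / 3 ≤ ‖z‖² ≤ (‖u‖ + ‖v‖)²`. If `a, b, c` are not distinct
the claim is trivial (`dd U x i i = 0`, `dd` is symmetric).

PROOF of `star_list`, by induction on the list. For `[a, b]`: `4 |⟪x, x - T x⟫| = 2 ‖x - T x‖²`
(`‖x - T x‖² = 2 re ⟪x, x - T x⟫` and `⟪x, T x⟫` is real since `T* = T`). Step from `l` (length `≥ 2`, head
`b`, last element `e`) to `a :: l`: with `σ' = l.formPerm`, `σ = (a :: l).formPerm = swap a b * σ'`
(`List.formPerm_cons_cons`) `= σ' * swap a e` (`σ' e = b`, `σ' a = a`). Put `P = U (swap a b)`,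
`Q = U (swap a e)`. As `(1 - P)² = 2 (1 - P)`,
`U σ' - U σ = (1 - P) U σ' = (1/2) (1 - P) (U σ' - U σ) = (1/2) (1 - P) U σ' (1 - Q)`, so
`|⟪x, (U σ' - U σ) x⟫| ≤ (1/2) ‖(1 - P) x‖ ‖(1 - Q) x‖ = (1/2) dd a b * dd a e`
(`1 - P` is self-adjoint, `U σ'` an isometry), and
`2 |⟪x, x - U σ x⟫| ≤ 2 |⟪x, x - U σ' x⟫| + dd a b * dd e a`. With `s1`, `s2` as below,
`s2 (a :: l) + dd e a * s1 (a :: l) = s2 l + (dd a b + dd e a) * s1 l + dd e a * dd a b` and
`dd e b ≤ dd e a + dd a b`.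

PROOF of `star_ineq`: `σ = l.formPerm` with `l = σ.toList z` (`z` in the support;
`Equiv.Perm.formPerm_toList`, `IsCycle.cycleOf_eq`), `l` has no duplicates, length `≥ 2`,
`l.toFinset = σ.support`. The sum of `dd i (σ i)` over the support is `dd e b + s1 l` and
`2 (s2 l + dd e b * s1 l) = (∑ dd)² - ∑ dd²`.
-/

set_option autoImplicit false

open scoped ComplexOrder InnerProductSpace
open Finset Equiv

namespace PGB

variable {V : Type*} [Fintype V] [DecidableEq V]
variable {H : Type*} [NormedAddCommGroup H] [InnerProductSpace ℂ H] [CompleteSpace H]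

/-- the defect of a transposition -/
noncomputable def dd (U : Perm V →* (H →L[ℂ] H)) (x : H) (i j : V) : ℝ := ‖x - U (swap i j) x‖

private theorem inner_map' {U : Perm V →* (H →L[ℂ] H)} (hU : Uni U) (g : Perm V) (x y : H) :
    ⟪U g x, y⟫_ℂ = ⟪x, U g⁻¹ y⟫_ℂ := by
  rw [← hU g, ContinuousLinearMap.star_eq_adjoint, ContinuousLinearMap.adjoint_inner_right]

private theorem map_inv_map (U : Perm V →* (H →L[ℂ] H)) (g : Perm V) (x : H) :
    U g⁻¹ (U g x) = x := by
  rw [← mul_apply_eq_comp, ← map_mul, inv_mul_cancel, map_one,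
    one_apply_eq_self]

theorem Uni.norm_map {U : Perm V →* (H →L[ℂ] H)} (hU : Uni U) (g : Perm V) (x : H) :
    ‖U g x‖ = ‖x‖ := by
  have h : ⟪U g x, U g x⟫_ℂ = ⟪x, x⟫_ℂ := by rw [inner_map' hU, map_inv_map]
  rw [inner_self_eq_norm_sq_to_K, inner_self_eq_norm_sq_to_K] at h
  have h2 : ‖U g x‖ ^ 2 = ‖x‖ ^ 2 := by exact_mod_cast h
  exact (sq_eq_sq₀ (norm_nonneg _) (norm_nonneg _)).mp h2

theorem Uni.inner_map {U : Perm V →* (H →L[ℂ] H)} (hU : Uni U) (g : Perm V) (x y : H) :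
    ⟪U g x, y⟫_ℂ = ⟪x, U g⁻¹ y⟫_ℂ := inner_map' hU g x y

theorem dd_comm (U : Perm V →* (H →L[ℂ] H)) (x : H) (i j : V) : dd U x i j = dd U x j i := by
  unfold dd
  rw [swap_comm]

private theorem dd_nonneg (U : Perm V →* (H →L[ℂ] H)) (x : H) (i j : V) : 0 ≤ dd U x i j :=
  norm_nonneg _

private theorem dd_self (U : Perm V →* (H →L[ℂ] H)) (x : H) (i : V) : dd U x i i = 0 := by
  unfold dd
  rw [swap_self, show (Equiv.refl V : Perm V) = 1 from rfl, map_one,
    one_apply_eq_self, sub_self, norm_zero]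

private theorem swap_app_app (U : Perm V →* (H →L[ℂ] H)) (a b : V) (x : H) :
    U (swap a b) (U (swap a b) x) = x := by
  rw [← mul_apply_eq_comp, ← map_mul, swap_mul_self, map_one,
    one_apply_eq_self]

private theorem inner_swap {U : Perm V →* (H →L[ℂ] H)} (hU : Uni U) (a b : V) (x y : H) :
    ⟪U (swap a b) x, y⟫_ℂ = ⟪x, U (swap a b) y⟫_ℂ := by
  rw [inner_map' hU, swap_inv]

private theorem swap_three {a b c : V} (hbc : b ≠ c) (hac : a ≠ c) :
    swap a b * (swap b c * swap a b) = swap a c := by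
  rw [← mul_assoc, Equiv.mul_swap_eq_swap_mul (swap a b) b c, swap_apply_right,
    swap_apply_of_ne_of_ne hac.symm hbc.symm, mul_assoc, swap_mul_self, mul_one]

private theorem dd_tri_aux (U : Perm V →* (H →L[ℂ] H)) (hU : Uni U) (x : H) {a b c : V}
    (hab : a ≠ b) (hbc : b ≠ c) (hac : a ≠ c) :
    dd U x a c ≤ dd U x a b + dd U x b c := by
  set A := U (swap a b) with hA
  set B := U (swap b c) with hB
  have hC1 : ∀ t : H, U (swap a c) t = A (B (A t)) := by
    intro t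
    rw [← swap_three hbc hac, map_mul, map_mul]
    rfl
  have hC2 : ∀ t : H, U (swap a c) t = B (A (B t)) := by
    intro t
    rw [swap_comm a c, ← swap_three hab.symm hac.symm, map_mul, map_mul, swap_comm c b,
      swap_comm b a]
    rfl
  have hAA : ∀ t : H, A (A t) = t := swap_app_app U a b
  have hBB : ∀ t : H, B (B t) = t := swap_app_app U b c
  have iA : ∀ s t : H, ⟪A s, t⟫_ℂ = ⟪s, A t⟫_ℂ := inner_swap hU a b
  have iB : ∀ s t : H, ⟪B s, t⟫_ℂ = ⟪s, B t⟫_ℂ := inner_swap hU b c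
  set w := x - U (swap a c) x with hw
  set z := B (x - A x) + A (x - B x) with hz
  set y := x - A x - B x - U (swap a c) x + A (B x) + B (A x) with hy
  have hwzy : w = z + y := by
    rw [hw, hz, hy, map_sub, map_sub]
    abel
  have hAy : A y = - y := by
    rw [hy]
    simp only [map_add, map_sub, hAA]
    rw [hC1 x, hAA, ← hC1 x]
    rw [hC1 x]
    abel
  have hBy : B y = - y := by
    rw [hy]
    simp only [map_add, map_sub, hBB]
    rw [hC2 x, hBB]
    abel
  have e1 : ⟪A x, y⟫_ℂ = - ⟪x, y⟫_ℂ := by rw [iA, hAy, inner_neg_right]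
  have e2 : ⟪B x, y⟫_ℂ = - ⟪x, y⟫_ℂ := by rw [iB, hBy, inner_neg_right]
  have e3 : ⟪A (B x), y⟫_ℂ = ⟪x, y⟫_ℂ := by rw [iA, hAy, inner_neg_right, e2, neg_neg]
  have e4 : ⟪B (A x), y⟫_ℂ = ⟪x, y⟫_ℂ := by rw [iB, hBy, inner_neg_right, e1, neg_neg]
  have e5 : ⟪U (swap a c) x, y⟫_ℂ = - ⟪x, y⟫_ℂ := by
    rw [hC1, iA, hAy, inner_neg_right, e4]
  have f1 : ⟪z, y⟫_ℂ = -4 * ⟪x, y⟫_ℂ := by
    rw [hz, map_sub, map_sub, inner_add_left, inner_sub_left, inner_sub_left, e1, e2, e3, e4]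
    ring
  have f2 : ⟪y, y⟫_ℂ = 6 * ⟪x, y⟫_ℂ := by
    conv_lhs => rw [hy]
    rw [inner_add_left, inner_add_left, inner_sub_left, inner_sub_left, inner_sub_left,
      ← hy, e1, e2, e3, e4, e5]
    ring
  have f3 : ⟪z, y⟫_ℂ = -(2 / 3) * ⟪y, y⟫_ℂ := by rw [f1, f2]; ring
  have f4 : RCLike.re ⟪z, y⟫_ℂ = -(2 / 3) * ‖y‖ ^ 2 := by
    rw [f3, inner_self_eq_norm_sq_to_K]
    have : (-(2 / 3) * ((‖y‖ : ℂ)) ^ 2) = (((-(2 / 3) * ‖y‖ ^ 2 : ℝ)) : ℂ) := by push_cast; ring
    rw [show ((RCLike.ofReal ‖y‖ : ℂ)) = (‖y‖ : ℂ) from rfl, this]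
    exact Complex.ofReal_re _
  have f5 : ‖w‖ ^ 2 ≤ ‖z‖ ^ 2 := by
    rw [hwzy, @norm_add_sq ℂ]
    rw [f4]
    nlinarith [sq_nonneg ‖y‖]
  have f6 : ‖w‖ ≤ ‖z‖ := by
    exact (sq_le_sq₀ (norm_nonneg _) (norm_nonneg _)).mp f5
  have f7 : ‖z‖ ≤ ‖x - A x‖ + ‖x - B x‖ := by
    rw [hz]
    refine (norm_add_le _ _).trans ?_
    rw [show ‖B (x - A x)‖ = ‖x - A x‖ from hU.norm_map _ _,
      show ‖A (x - B x)‖ = ‖x - B x‖ from hU.norm_map _ _]
  exact f6.trans f7

theorem dd_tri (U : Perm V →* (H →L[ℂ] H)) (hU : Uni U) (x : H) (a b c : V) :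
    dd U x a c ≤ dd U x a b + dd U x b c := by
  by_cases hab : a = b
  · subst hab
    rw [dd_self]
    simp
  by_cases hbc : b = c
  · subst hbc
    rw [dd_self]
    simp
  by_cases hac : a = c
  · subst hac
    rw [dd_self]
    exact add_nonneg (dd_nonneg _ _ _ _) (dd_nonneg _ _ _ _)
  exact dd_tri_aux U hU x hab hbc hac

/-- sum of the lengths of the edges of the path `l` -/
noncomputable def s1 (d : V → V → ℝ) : List V → ℝ
  | [] => 0
  | [_] => 0
  | a :: b :: l => d a b + s1 d (b :: l)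

/-- sum of the products of the lengths of two different edges of the path `l` -/
noncomputable def s2 (d : V → V → ℝ) : List V → ℝ
  | [] => 0
  | [_] => 0
  | a :: b :: l => s2 d (b :: l) + d a b * s1 d (b :: l)

private theorem s1_nonneg (d : V → V → ℝ) (hd : ∀ i j, 0 ≤ d i j) : ∀ l : List V, 0 ≤ s1 d l
  | [] => le_refl _
  | [_] => le_refl _
  | a :: b :: l => by
    rw [s1]
    exact add_nonneg (hd _ _) (s1_nonneg d hd (b :: l))

private theorem s1_sq (d : V → V → ℝ) :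
    ∀ l : List V, s1 d l ^ 2 = s1 (fun i j => d i j ^ 2) l + 2 * s2 d l
  | [] => by simp [s1, s2]
  | [_] => by simp [s1, s2]
  | a :: b :: l => by
    have ih := s1_sq d (b :: l)
    rw [s1, s1, s2, add_sq, ih]
    ring

/-- two transpositions -/
private theorem two_swaps (U : Perm V →* (H →L[ℂ] H)) (hU : Uni U) (x : H) (a b e : V)
    (τ : Perm V) (h : swap a b * τ = τ * swap a e) :
    2 * ‖⟪x, U τ x - U (swap a b * τ) x⟫_ℂ‖ ≤ dd U x a b * dd U x a e := by
  set P := U (swap a b) with hP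
  have e1 : U τ x - U (swap a b * τ) x = U τ x - P (U τ x) := by
    rw [map_mul]; rfl
  have e2 : U τ x - P (U τ x) = U τ (x - U (swap a e) x) := by
    rw [map_sub, ← e1, h, map_mul]; rfl
  have hPP : ∀ t : H, P (P t) = t := swap_app_app U a b
  have e3 : (2 : ℂ) • (U τ x - P (U τ x)) = (U τ (x - U (swap a e) x)) -
      P (U τ (x - U (swap a e) x)) := by
    rw [← e2, map_sub, hPP, two_smul]
    abel
  have e4 : 2 * ⟪x, U τ x - U (swap a b * τ) x⟫_ℂ = ⟪x - P x, U τ (x - U (swap a e) x)⟫_ℂ := by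
    rw [e1, ← inner_smul_right, e3, inner_sub_right, inner_sub_left,
      show ⟪P x, U τ (x - U (swap a e) x)⟫_ℂ = ⟪x, P (U τ (x - U (swap a e) x))⟫_ℂ from
        inner_swap hU a b _ _]
  have e5 : 2 * ‖⟪x, U τ x - U (swap a b * τ) x⟫_ℂ‖ =
      ‖⟪x - P x, U τ (x - U (swap a e) x)⟫_ℂ‖ := by
    rw [← e4, norm_mul, Complex.norm_ofNat]
  rw [e5]
  refine (norm_inner_le_norm _ _).trans ?_
  rw [hU.norm_map]
  exact le_refl _

private theorem one_swap (U : Perm V →* (H →L[ℂ] H)) (hU : Uni U) (x : H) (a b : V) :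
    2 * ‖⟪x, x - U (swap a b) x⟫_ℂ‖ = dd U x a b ^ 2 := by
  set P := U (swap a b) with hP
  have hPP : ∀ t : H, P (P t) = t := swap_app_app U a b
  have e4 : ⟪x - P x, x - P x⟫_ℂ = 2 * ⟪x, x - P x⟫_ℂ := by
    rw [inner_sub_left, show ⟪P x, x - P x⟫_ℂ = ⟪x, P (x - P x)⟫_ℂ from inner_swap hU a b _ _,
      map_sub, hPP, ← inner_sub_right, ← inner_smul_right, two_smul]
    congr 1
    abel
  have e5 : 2 * ‖⟪x, x - P x⟫_ℂ‖ = ‖⟪x - P x, x - P x⟫_ℂ‖ := by
    rw [e4, norm_mul, Complex.norm_ofNat]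
  rw [e5, inner_self_eq_norm_sq_to_K, norm_pow]
  unfold dd
  rw [show ((RCLike.ofReal ‖x - P x‖ : ℂ)) = (‖x - P x‖ : ℂ) from rfl, Complex.norm_real,
    norm_norm]

theorem star_list (U : Perm V →* (H →L[ℂ] H)) (hU : Uni U) (x : H) (b : V) (l : List V)
    (hl : l ≠ []) (hn : (b :: l).Nodup) :
    2 * ‖⟪x, x - U (b :: l).formPerm x⟫_ℂ‖ ≤ s2 (dd U x) (b :: l) +
      dd U x ((b :: l).getLast (List.cons_ne_nil _ _)) b * s1 (dd U x) (b :: l) := by
  induction l generalizing b with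
  | nil => exact absurd rfl hl
  | cons c m ih =>
    by_cases hm : m = []
    · subst hm
      rw [List.formPerm_pair, one_swap U hU]
      simp only [s1, s2, List.getLast_cons_cons, List.getLast_singleton]
      rw [dd_comm U x c b]
      apply le_of_eq
      ring
    · have hn' : (c :: m).Nodup := (List.nodup_cons.mp hn).2
      have hb : b ∉ (c :: m) := (List.nodup_cons.mp hn).1
      have h1 := ih c hm hn'
      set e := (c :: m).getLast (List.cons_ne_nil _ _) with he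
      have hee : (b :: c :: m).getLast (List.cons_ne_nil _ _) = e := by
        rw [List.getLast_cons_cons]
      rw [hee]
      set τ := (c :: m).formPerm with hτ
      have hτe : τ e = c := List.formPerm_apply_getLast c m
      have hτb : τ b = b := List.formPerm_apply_of_notMem hb
      have hcomm : swap b c * τ = τ * swap b e := by
        rw [Equiv.mul_swap_eq_swap_mul, hτb, hτe]
      rw [List.formPerm_cons_cons, ← hτ]
      have h2 := two_swaps U hU x b c e τ hcomm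
      have h3 : ‖⟪x, x - U (swap b c * τ) x⟫_ℂ‖ ≤ ‖⟪x, x - U τ x⟫_ℂ‖ +
          ‖⟪x, U τ x - U (swap b c * τ) x⟫_ℂ‖ := by
        rw [← sub_add_sub_cancel x (U τ x) (U (swap b c * τ) x), inner_add_right]
        exact norm_add_le _ _
      have h4 : dd U x e c ≤ dd U x e b + dd U x b c := dd_tri U hU x e b c
      have h5 : 0 ≤ s1 (dd U x) (c :: m) := s1_nonneg _ (dd_nonneg U x) _
      have h6 := mul_le_mul_of_nonneg_right h4 h5
      rw [s1, s2]
      rw [dd_comm U x b e] at h2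
      nlinarith

/-- the sum along a path -/
private theorem sum_path (d : V → V → ℝ) (σ : Perm V) :
    ∀ (b : V) (l : List V), (b :: l).Nodup →
      (∀ (k : ℕ) (hk : k + 1 < (b :: l).length), σ (b :: l)[k] = (b :: l)[k + 1]) →
      ∑ i ∈ (b :: l).toFinset, d i (σ i) =
        s1 d (b :: l) + d ((b :: l).getLast (List.cons_ne_nil _ _))
          (σ ((b :: l).getLast (List.cons_ne_nil _ _)))
  | b, [], _, _ => by simp [s1]
  | b, c :: m, hn, h => by
    have hn' : (c :: m).Nodup := (List.nodup_cons.mp hn).2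
    have hb : b ∉ (c :: m) := (List.nodup_cons.mp hn).1
    have ih := sum_path d σ c m hn' (fun k hk => by
      have := h (k + 1) (by simpa using hk)
      simpa using this)
    have h0 : σ b = c := by
      have := h 0 (by simp)
      simpa using this
    rw [List.toFinset_cons, Finset.sum_insert (by simpa using hb), ih, h0,
      List.getLast_cons_cons, s1]
    ring

theorem star_ineq (U : Perm V →* (H →L[ℂ] H)) (hU : Uni U) (x : H) (σ : Perm V) (hσ : σ.IsCycle) :
    4 * ‖⟪x, x - U σ x⟫_ℂ‖ ≤ (∑ i ∈ σ.support, dd U x i (σ i)) ^ 2 -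
      ∑ i ∈ σ.support, dd U x i (σ i) ^ 2 := by
  obtain ⟨z, hz, hz2⟩ := hσ
  have hσ' : σ.IsCycle := ⟨z, hz, hz2⟩
  have hzs : z ∈ σ.support := Perm.mem_support.mpr hz
  have hform : (σ.toList z).formPerm = σ := by
    rw [Equiv.Perm.formPerm_toList, hσ'.cycleOf_eq hz]
  have hnod : (σ.toList z).Nodup := Equiv.Perm.nodup_toList σ z
  have hlen : 2 ≤ (σ.toList z).length := Equiv.Perm.two_le_length_toList_iff_mem_support.mpr hzs
  have hfin : (σ.toList z).toFinset = σ.support := by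
    have := List.support_formPerm_of_nodup (σ.toList z) hnod (by
      intro y hy
      rw [hy] at hlen
      simp at hlen)
    rw [← this, hform]
  obtain ⟨b, l, hbl⟩ : ∃ b l, σ.toList z = b :: l := by
    cases h : σ.toList z with
    | nil => rw [h] at hlen; simp at hlen
    | cons b l => exact ⟨b, l, rfl⟩
  rw [hbl] at hform hnod hlen hfin
  have hl : l ≠ [] := by
    rintro rfl
    simp at hlen
  have h1 := star_list U hU x b l hl hnod
  rw [hform] at h1
  set e := (b :: l).getLast (List.cons_ne_nil _ _) with he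
  have hσe : σ e = b := by
    have := List.formPerm_apply_getLast b l
    rw [hform] at this
    exact this
  have hnext : ∀ (k : ℕ) (hk : k + 1 < (b :: l).length), σ (b :: l)[k] = (b :: l)[k + 1] := by
    intro k hk
    have := List.formPerm_apply_lt_getElem (b :: l) hnod k hk
    rw [hform] at this
    exact this
  have s1' := sum_path (dd U x) σ b l hnod hnext
  have s2' := sum_path (fun i j => dd U x i j ^ 2) σ b l hnod hnext
  rw [hfin] at s1' s2'
  rw [s1', s2', ← he, hσe]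
  have h7 := s1_sq (dd U x) (b :: l)
  nlinarith

end PGB
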