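import Pool.Agent.Lib.PGB.Deriv
import Pool.Agent.Lib.PGB.SAdj
import Pool.Agent.Lib.PGB.StarIneq
import Pool.Agent.Lib.PGB.Path
import Pool.Agent.Lib.PGB.CycCls
import Pool.Agent.Lib.PGB.CycNum
import Pool.Agent.Lib.PGB.Minor

/-!
# PGB.Cyc: cycles of length at least five

PROOF of `cyc_unit`. Let `T_i = U (swap (c i) (c (i+1)))`, `w i = ‖A (c (i+1)) (c i)‖`, `ρ = rot c h.1`,
`a = wt A S ρ`, so `‖a‖ = ∏ w i`. Fix `x : H`; `φ s = re ⟪x, X U A s S x⟫`. By `X_deriv` and `cyc_sum`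
(a term with a zero factor vanishes; the support of `swap (c i) (c (i+1))` is `{c i, c (i+1)}` with weight
`w i ²`; `S \ ρ.support = ∅`, `X_empty`)
`φ' s = ∑ w i ² re ⟪x, (T_i - 1) X_s(S_i) x⟫ + re (a ⟪x, (U ρ - 1) x⟫) + re (star a ⟪x, (U ρ⁻¹ - 1) x⟫)`,
`S_i = S \ {c i, c (i+1)}`. With `y_i = x - T_i x`, `⟪x, (T_i - 1) X x⟫ = - ½ ⟪y_i, X y_i⟫` (`T_i² = 1`,
`star T_i = T_i`, `T_i` commutes with `X_s(S_i)` by `X_comm`), and the last two terms are at most
`2 ‖a‖ ‖⟪x, x - U ρ x⟫‖`. `S_i = J u (m-2)` with `u j = c (i + 2 + j)`, so by `path_sum`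
`re ⟪y_i, X_s(S_i) y_i⟫ + re ⟪y_i, X_{1-s}(S_i) y_i⟫ ≥ 2 ‖y_i‖²`. Hence `ψ s = φ s - φ (1 - s)` satisfies, on
`[0, 1]`, `ψ' ≤ - ∑ w i ² ‖y_i‖² + 4 ‖a‖ ‖⟪x, x - U ρ x⟫‖ ≤ 0` by `star_ineq` (`ρ` has support `S`, the sum
over the support is the sum over `ZMod m` of `dd U x (c i) (c (i+1)) = ‖y_i‖`) and `cyc_num` (its
hypothesis `hc` is `minor4` at `c i, c (i+1), c (i+2), c (i+3)`, `hw1` is `minor2`; here `m ≥ 5` is used).
So `ψ 1 ≤ ψ 0`, i.e. `φ 1 ≤ φ 0` (`antitoneOn_of_deriv_nonpos`), that is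
`re ⟪x, D U A S x⟫ ≤ re (pr A S) ‖x‖²` (`X_one_eq`, `X_zero_eq`); `D U A S` is self-adjoint (`X_star`).

PROOF of `D_le_cyc`: if `A z z = 0` for some `z ∈ S` both sides are zero (`zero_row`, `D_zero`,
`pr_zero`); otherwise scale with `d i = (re (A i i))^(-1/2)` on `S` (`D_scale`, `pr_scale`,
`PSDon_scale`).
-/

set_option autoImplicit false

open scoped ComplexOrder InnerProductSpace
open Finset Equiv

namespace PGB

variable {V : Type*} [Fintype V] [DecidableEq V]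
variable {H : Type*} [NormedAddCommGroup H] [InnerProductSpace ℂ H] [CompleteSpace H]

namespace CycAux

theorem cast_ne {m k : ℕ} (h1 : 1 ≤ k) (h2 : k < m) : (k : ZMod m) ≠ 0 := by
  intro h
  rw [ZMod.natCast_eq_zero_iff] at h
  have := Nat.le_of_dvd h1 h
  omega

/-- the functional `T ↦ ⟪x, T x⟫` -/
noncomputable def fx (x : H) : (H →L[ℂ] H) →L[ℂ] ℂ :=
  (innerSL ℂ x).comp (ContinuousLinearMap.apply ℂ H x)

theorem fx_apply (x : H) (T : H →L[ℂ] H) : fx x T = ⟪x, T x⟫_ℂ := rfl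

theorem phi_deriv (U : Perm V →* (H →L[ℂ] H)) (A : Matrix V V ℂ) (S : Finset V) (x : H) (s : ℝ) :
    HasDerivAt (fun s : ℝ => (fx x (X U A s S)).re)
      (fx x (∑ C ∈ CC S, wt A C.support C • ((U C - 1) * X U A s (S \ C.support)))).re s := by
  have h1 := X_deriv U A S s
  exact ((Complex.reCLM.comp ((fx x).restrictScalars ℝ)).hasFDerivAt).comp_hasDerivAt s h1

/-- the term of a transposition -/
theorem swap_term (U : Perm V →* (H →L[ℂ] H)) (hU : Uni U) (x : H) {a b : V} (Y : H →L[ℂ] H)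
    (hY : Commute (U (swap a b)) Y) :
    fx x ((U (swap a b) - 1) * Y) =
      -(1 / 2) * ⟪x - U (swap a b) x, Y (x - U (swap a b) x)⟫_ℂ := by
  have hT : ∀ s t : H, ⟪U (swap a b) s, t⟫_ℂ = ⟪s, U (swap a b) t⟫_ℂ := by
    intro s t
    rw [hU.inner_map, swap_inv]
  have hTT : ∀ t : H, U (swap a b) (U (swap a b) t) = t := by
    intro t
    have h1 : (U (swap a b) * U (swap a b)) t = (1 : H →L[ℂ] H) t := by
      rw [← map_mul, swap_mul_self, map_one]
    exact h1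
  have hTY : ∀ t : H, U (swap a b) (Y t) = Y (U (swap a b) t) := by
    intro t
    exact congrArg (fun Z : H →L[ℂ] H => Z t) hY.eq
  have e1 : fx x ((U (swap a b) - 1) * Y) = ⟪x, Y (U (swap a b) x)⟫_ℂ - ⟪x, Y x⟫_ℂ := by
    rw [fx_apply, ← inner_sub_right, ← hTY]
    rfl
  rw [e1, map_sub, inner_sub_left, inner_sub_right, inner_sub_right, hT, hT, hTY, hTY, hTT]
  ring

/-- the lower bound from `path_sum` -/
theorem two_le {Z : H →L[ℂ] H} (hZ : (2 : ℂ) • (1 : H →L[ℂ] H) ≤ Z) (y : H) :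
    2 * ‖y‖ ^ 2 ≤ (⟪y, Z y⟫_ℂ).re := by
  rw [ContinuousLinearMap.le_def] at hZ
  have h1 := hZ.re_inner_nonneg_right y
  have h2 : ⟪y, (Z - (2 : ℂ) • (1 : H →L[ℂ] H)) y⟫_ℂ = ⟪y, Z y⟫_ℂ - 2 * ⟪y, y⟫_ℂ := by
    rw [← inner_smul_right, ← inner_sub_right]
    rfl
  rw [h2, inner_self_eq_norm_sq_to_K] at h1
  have h3 : (⟪y, Z y⟫_ℂ - 2 * ((RCLike.ofReal ‖y‖ : ℂ)) ^ 2).re =
      (⟪y, Z y⟫_ℂ).re - 2 * ‖y‖ ^ 2 := by
    rw [Complex.sub_re]
    congr 1
    rw [show ((RCLike.ofReal ‖y‖ : ℂ)) = ((‖y‖ : ℝ) : ℂ) from rfl]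
    have h4 : (2 : ℂ) * ((‖y‖ : ℝ) : ℂ) ^ 2 = ((2 * ‖y‖ ^ 2 : ℝ) : ℂ) := by
      push_cast
      ring
    rw [h4, Complex.ofReal_re]
  have h5 : 0 ≤ (⟪y, Z y⟫_ℂ - 2 * ((RCLike.ofReal ‖y‖ : ℂ)) ^ 2).re := h1
  rw [h3] at h5
  linarith

theorem sdiff_J {A : Matrix V V ℂ} {S : Finset V} {m : ℕ} [NeZero m] (hm : 5 ≤ m)
    {c : ZMod m → V} (h : CycOn A m c S) (i : ZMod m) :
    S \ {c i, c (i + 1)} = J (fun j : ℕ => c (i + 2 + j)) (m - 2) := by
  ext v
  rw [PathAux.mem_J, Finset.mem_sdiff, Finset.mem_insert, Finset.mem_singleton, h.2.1]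
  constructor
  · rintro ⟨⟨j, rfl⟩, hj⟩
    push Not at hj
    have hval : (((j - i - 2).val : ℕ) : ZMod m) = j - i - 2 := ZMod.natCast_zmod_val _
    have hlt := ZMod.val_lt (j - i - 2)
    refine ⟨(j - i - 2).val, ?_, ?_⟩
    · by_contra hcon
      have hm2 : ((m - 2 : ℕ) : ZMod m) + 2 = 0 := by
        have h1 : ((m - 2 + 2 : ℕ) : ZMod m) = 0 := by
          rw [show m - 2 + 2 = m by omega, ZMod.natCast_self]
        rwa [Nat.cast_add, Nat.cast_ofNat] at h1
      have hm1 : ((m - 1 : ℕ) : ZMod m) + 1 = 0 := by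
        have h1 : ((m - 1 + 1 : ℕ) : ZMod m) = 0 := by
          rw [show m - 1 + 1 = m by omega, ZMod.natCast_self]
        rwa [Nat.cast_add, Nat.cast_one] at h1
      rcases (show (j - i - 2).val = m - 2 ∨ (j - i - 2).val = m - 1 by omega) with h2 | h2
      · apply hj.1
        rw [h2] at hval
        rw [hval] at hm2
        congr 1
        linear_combination hm2
      · apply hj.2
        rw [h2] at hval
        rw [hval] at hm1
        congr 1
        linear_combination hm1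
    · rw [hval]
      congr 1
      ring
  · rintro ⟨k, hk, rfl⟩
    refine ⟨⟨_, rfl⟩, ?_⟩
    rintro (h1 | h1)
    · have h2 := h.1 h1
      apply cast_ne (m := m) (k := k + 2) (by omega) (by omega)
      push_cast
      linear_combination h2
    · have h2 := h.1 h1
      apply cast_ne (m := m) (k := k + 1) (by omega) (by omega)
      push_cast
      linear_combination h2

theorem far_zero {A : Matrix V V ℂ} {S : Finset V} {m : ℕ} {c : ZMod m → V}
    (h : CycOn A m c S) (i : ZMod m) {k : ℕ} (h1 : 2 ≤ k) (h2 : k + 2 ≤ m) :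
    A (c i) (c (i + k)) = 0 := by
  by_contra hne
  rcases h.2.2 _ _ hne with h3 | h3 | h3
  · apply cast_ne (m := m) (k := k) (by omega) (by omega)
    linear_combination -h3
  · apply cast_ne (m := m) (k := k - 1) (by omega) (by omega)
    rw [Nat.cast_sub (by omega)]
    push_cast
    linear_combination h3
  · apply cast_ne (m := m) (k := k + 1) (by omega) (by omega)
    push_cast
    linear_combination -h3

/-- the summand of the derivative -/
noncomputable def FF (U : Perm V →* (H →L[ℂ] H)) (A : Matrix V V ℂ) (S : Finset V) (s : ℝ)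
    (C : Perm V) : H →L[ℂ] H :=
  wt A C.support C • ((U C - 1) * X U A s (S \ C.support))

theorem FF_zero (U : Perm V →* (H →L[ℂ] H)) {A : Matrix V V ℂ} {S : Finset V} (hA : PSDon A S)
    (s : ℝ) {C : Perm V} (hC : C.support ⊆ S)
    (hv : ∃ v ∈ C.support, A (C v) v = 0 ∨ A v (C v) = 0) : FF U A S s C = 0 := by
  obtain ⟨v, hv, hv2⟩ := hv
  have h1 : A (C v) v = 0 := by
    rcases hv2 with h | h
    · exact h
    · rw [← hA.herm (hC hv) (hC (Perm.apply_mem_support.2 hv)), h, star_zero]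
  have h2 : wt A C.support C = 0 := Finset.prod_eq_zero hv h1
  rw [FF, h2, zero_smul]

theorem FF_swap (U : Perm V →* (H →L[ℂ] H)) (hU : Uni U) {A : Matrix V V ℂ} {S : Finset V}
    (hA : PSDon A S) {m : ℕ} [NeZero m] (hm : 5 ≤ m) {c : ZMod m → V} (h : CycOn A m c S)
    (x : H) (s : ℝ) (i : ZMod m) :
    (fx x (FF U A S s (swap (c i) (c (i + 1))))).re = -(1 / 2) * (‖A (c i) (c (i + 1))‖ ^ 2 *
      (⟪x - U (swap (c i) (c (i + 1))) x, X U A s (J (fun j : ℕ => c (i + 2 + j)) (m - 2))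
        (x - U (swap (c i) (c (i + 1))) x)⟫_ℂ).re) := by
  have hne : c i ≠ c (i + 1) := (CycClsAux.c_succ_ne (by omega) h.1 i).symm
  have hS : ∀ j, c j ∈ S := fun j => (h.2.1 _).2 ⟨j, rfl⟩
  have hwt : wt A {c i, c (i + 1)} (swap (c i) (c (i + 1))) =
      ((‖A (c i) (c (i + 1))‖ ^ 2 : ℝ) : ℂ) := by
    unfold wt
    rw [Finset.prod_pair hne, swap_apply_left, swap_apply_right, ← hA.herm (hS i) (hS (i + 1)),
      mul_comm]
    have h4 : A (c i) (c (i + 1)) * star (A (c i) (c (i + 1))) =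
        ((Complex.normSq (A (c i) (c (i + 1))) : ℝ) : ℂ) := Complex.mul_conj _
    rw [h4, Complex.normSq_eq_norm_sq]
  have hcom : Commute (U (swap (c i) (c (i + 1)))) (X U A s (S \ {c i, c (i + 1)})) := by
    apply X_comm U A s
    rw [Perm.support_swap hne]
    exact Finset.disjoint_sdiff
  rw [FF, Perm.support_swap hne, hwt, map_smul, swap_term U hU x _ hcom, ← sdiff_J hm h i,
    smul_eq_mul]
  have e1 : ∀ (r : ℝ) (z : ℂ), ((r : ℂ) * (-(1 / 2) * z)).re = -(1 / 2) * (r * z.re) := by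
    intro r z
    have e2 : ((r : ℂ) * (-(1 / 2) * z)) = ((-(1 / 2) * r : ℝ) : ℂ) * z := by
      push_cast
      ring
    rw [e2, Complex.re_ofReal_mul]
    ring
  exact e1 _ _

theorem FF_full (U : Perm V →* (H →L[ℂ] H)) (A : Matrix V V ℂ) {S : Finset V} (s : ℝ) (x : H)
    {C : Perm V} (hC : C.support = S) :
    (fx x (FF U A S s C)).re ≤ ‖wt A C.support C‖ * ‖⟪x, x - U C x⟫_ℂ‖ := by
  have e1 : fx x (FF U A S s C) = wt A C.support C * ⟪x, U C x - x⟫_ℂ := by
    rw [FF, map_smul, hC, Finset.sdiff_self, X_empty, mul_one, smul_eq_mul, fx_apply]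
    rfl
  refine (Complex.re_le_norm _).trans ?_
  rw [e1, norm_mul, ← neg_sub x (U C x), inner_neg_right, norm_neg]

theorem norm_inv (U : Perm V →* (H →L[ℂ] H)) (hU : Uni U) (x : H) (C : Perm V) :
    ‖⟪x, x - U C⁻¹ x⟫_ℂ‖ = ‖⟪x, x - U C x⟫_ℂ‖ := by
  have e1 : ⟪x, x - U C⁻¹ x⟫_ℂ = ⟪x - U C x, x⟫_ℂ := by
    rw [inner_sub_right, inner_sub_left, hU.inner_map]
  rw [e1, ← inner_conj_symm, RCLike.norm_conj]

theorem rot_supp {A : Matrix V V ℂ} {S : Finset V} {m : ℕ} [NeZero m] (hm : 5 ≤ m)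
    {c : ZMod m → V} (h : CycOn A m c S) : (rot c h.1).support = S := by
  rw [rot_support (by omega)]
  ext v
  rw [Finset.mem_image, h.2.1]
  simp

theorem norm_wt {A : Matrix V V ℂ} {S : Finset V} (hA : PSDon A S) {m : ℕ} [NeZero m]
    (hm : 5 ≤ m) {c : ZMod m → V} (h : CycOn A m c S) :
    ‖wt A (rot c h.1).support (rot c h.1)‖ = ∏ i, ‖A (c i) (c (i + 1))‖ := by
  have hS : ∀ j, c j ∈ S := fun j => (h.2.1 _).2 ⟨j, rfl⟩
  unfold wt
  rw [norm_prod, rot_support (by omega), Finset.prod_image fun a _ b _ hab => h.1 hab]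
  refine Finset.prod_congr rfl fun i _ => ?_
  rw [rot_apply, ← hA.herm (hS i) (hS (i + 1)), norm_star]

/-- the sum of the two derivatives -/
theorem main_bound (U : Perm V →* (H →L[ℂ] H)) (hU : Uni U) {A : Matrix V V ℂ} {S : Finset V}
    (hA : PSDon A S) {m : ℕ} [NeZero m] (hm : 5 ≤ m) {c : ZMod m → V} (h : CycOn A m c S)
    (h1 : ∀ v ∈ S, A v v = 1) (x : H) (s : ℝ) (hs0 : 0 ≤ s) (hs1 : s ≤ 1) :
    (fx x (∑ C ∈ CC S, FF U A S s C)).re + (fx x (∑ C ∈ CC S, FF U A S (1 - s) C)).re ≤ 0 := by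
  have hS : ∀ j, c j ∈ S := fun j => (h.2.1 _).2 ⟨j, rfl⟩
  set w : ZMod m → ℝ := fun i => ‖A (c i) (c (i + 1))‖ with hw
  set y : ZMod m → H := fun i => x - U (swap (c i) (c (i + 1))) x with hy
  set N : ℝ := ‖⟪x, x - U (rot c h.1) x⟫_ℂ‖ with hN
  have hsum : ∀ r : ℝ, (fx x (∑ C ∈ CC S, FF U A S r C)).re ≤
      ∑ i, (-(1 / 2) * (w i ^ 2 *
        (⟪y i, X U A r (J (fun j : ℕ => c (i + 2 + j)) (m - 2)) (y i)⟫_ℂ).re)) +
      2 * ((∏ i, w i) * N) := by
    intro r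
    rw [cyc_sum (by omega) h (FF U A S r) fun C _ hC hv => FF_zero U hA r hC hv, map_add, map_add,
      map_sum, Complex.add_re, Complex.add_re, Complex.re_sum]
    have e1 := FF_full U A r x (rot_supp hm h)
    have hinv : (rot c h.1)⁻¹.support = S := by
      rw [Perm.support_inv]
      exact rot_supp hm h
    have e2 := FF_full U A r x hinv
    have e3 : ‖wt A (rot c h.1)⁻¹.support (rot c h.1)⁻¹‖ = ∏ i, w i := by
      rw [← SAdjAux.star_wt (S := S) (fun i hi j hj => hA.herm hi hj)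
        (le_of_eq (rot_supp hm h)), norm_star]
      exact norm_wt hA hm h
    rw [norm_wt hA hm h] at e1
    rw [e3, norm_inv U hU] at e2
    have e4 : ∑ i, (fx x (FF U A S r (swap (c i) (c (i + 1))))).re =
        ∑ i, (-(1 / 2) * (w i ^ 2 *
        (⟪y i, X U A r (J (fun j : ℕ => c (i + 2 + j)) (m - 2)) (y i)⟫_ℂ).re)) :=
      Finset.sum_congr rfl fun i _ => FF_swap U hU hA hm h x r i
    rw [e4]
    linarith
  have hpath : ∀ i, 2 * ‖y i‖ ^ 2 ≤
      (⟪y i, X U A s (J (fun j : ℕ => c (i + 2 + j)) (m - 2)) (y i)⟫_ℂ).re +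
      (⟪y i, X U A (1 - s) (J (fun j : ℕ => c (i + 2 + j)) (m - 2)) (y i)⟫_ℂ).re := by
    intro i
    have hp := path_sum U hU A (fun j : ℕ => c (i + 2 + j)) (m - 2)
      (fun a ha b hb hab => by
        have h2 := h.1 hab
        have h3 : (a : ZMod m) = (b : ZMod m) := by linear_combination h2
        have h4 := congrArg ZMod.val h3
        rwa [ZMod.val_natCast_of_lt (by omega), ZMod.val_natCast_of_lt (by omega)] at h4)
      (fun a _ b _ => hA.herm (hS _) (hS _))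
      (fun a _ => h1 _ (hS _))
      (fun a ha b hb hab => by
        have h2 := far_zero h (i + 2 + a) (k := b - a) (by omega) (by omega)
        rw [Nat.cast_sub (by omega)] at h2
        rwa [show i + 2 + (a : ZMod m) + ((b : ZMod m) - a) = i + 2 + b by ring] at h2)
      s hs0 hs1
    have h2 := two_le hp (y i)
    have h3 : ∀ P Q : H →L[ℂ] H, (⟪y i, (P + Q) (y i)⟫_ℂ).re =
        (⟪y i, P (y i)⟫_ℂ).re + (⟪y i, Q (y i)⟫_ℂ).re := by
      intro P Q
      rw [← Complex.add_re, ← inner_add_right]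
      rfl
    rw [h3] at h2
    exact h2
  have hcyc := cyc_num m hm w (fun i => ‖y i‖) (fun i => norm_nonneg _)
    (fun i => minor2 hA (hS i) (hS (i + 1)) (CycClsAux.c_succ_ne (by omega) h.1 i).symm
      (h1 _ (hS _)) (h1 _ (hS _)))
    (fun i => norm_nonneg _)
    (fun i => by
      have hne : ∀ a b : ℕ, a < b → b < 5 → c (i + a) ≠ c (i + b) := by
        intro a b hab hb hcc
        have h2 := h.1 hcc
        apply cast_ne (m := m) (k := b - a) (by omega) (by omega)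
        rw [Nat.cast_sub (by omega)]
        linear_combination -h2
      have hfar : ∀ a b : ℕ, a + 2 ≤ b → b < 4 → A (c (i + a)) (c (i + b)) = 0 := by
        intro a b hab hb
        have h2 := far_zero h (i + a) (k := b - a) (by omega) (by omega)
        rw [Nat.cast_sub (by omega)] at h2
        rwa [show i + (a : ZMod m) + ((b : ZMod m) - a) = i + b by ring] at h2
      have q0 : i + ((0 : ℕ) : ZMod m) = i := by simp
      have q1 : i + ((1 : ℕ) : ZMod m) = i + 1 := by simp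
      have q2 : i + ((2 : ℕ) : ZMod m) = i + 1 + 1 := by push_cast; ring
      have q3 : i + ((3 : ℕ) : ZMod m) = i + 1 + 1 + 1 := by push_cast; ring
      have h2 := minor4 hA (hS (i + (0 : ℕ))) (hS (i + (1 : ℕ))) (hS (i + (2 : ℕ)))
        (hS (i + (3 : ℕ)))
        (hne 0 1 (by omega) (by omega)) (hne 0 2 (by omega) (by omega))
        (hne 0 3 (by omega) (by omega)) (hne 1 2 (by omega) (by omega))
        (hne 1 3 (by omega) (by omega)) (hne 2 3 (by omega) (by omega))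
        (h1 _ (hS _)) (h1 _ (hS _)) (h1 _ (hS _)) (h1 _ (hS _))
        (hfar 0 2 (by omega) (by omega)) (hfar 0 3 (by omega) (by omega))
        (hfar 1 3 (by omega) (by omega))
      rw [q0, q1, q2, q3] at h2
      have q4 : i + 2 = i + 1 + 1 := by ring
      rw [q4]
      exact h2)
  have hstar := star_ineq U hU x (rot c h.1) (rot_isCycle (by omega) c h.1)
  rw [rot_support (by omega), Finset.sum_image fun a _ b _ hab => h.1 hab,
    Finset.sum_image fun a _ b _ hab => h.1 hab] at hstar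
  simp only [rot_apply] at hstar
  have hstar' : 4 * N ≤ (∑ i, ‖y i‖) ^ 2 - ∑ i, ‖y i‖ ^ 2 := hstar
  have hprod : 0 ≤ ∏ i, w i := Finset.prod_nonneg fun i _ => norm_nonneg _
  have hmul := mul_le_mul_of_nonneg_left hstar' hprod
  have hA1 := hsum s
  have hA2 := hsum (1 - s)
  have hB : ∑ i, (-(1 / 2) * (w i ^ 2 *
        (⟪y i, X U A s (J (fun j : ℕ => c (i + 2 + j)) (m - 2)) (y i)⟫_ℂ).re)) +
      ∑ i, (-(1 / 2) * (w i ^ 2 *
        (⟪y i, X U A (1 - s) (J (fun j : ℕ => c (i + 2 + j)) (m - 2)) (y i)⟫_ℂ).re)) ≤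
      -∑ i, w i ^ 2 * ‖y i‖ ^ 2 := by
    rw [← Finset.sum_add_distrib, ← Finset.sum_neg_distrib]
    refine Finset.sum_le_sum fun i _ => ?_
    have h2 := mul_le_mul_of_nonneg_left (hpath i) (sq_nonneg (w i))
    nlinarith [h2]
  nlinarith [hA1, hA2, hB, hmul, hcyc]

/-- the operator inequality from the quadratic form -/
theorem le_of_form {P Q : H →L[ℂ] H} (hP : star P = P) (hQ : star Q = Q)
    (hx : ∀ x : H, (fx x P).re ≤ (fx x Q).re) : P ≤ Q := by
  rw [ContinuousLinearMap.le_def, ContinuousLinearMap.isPositive_def']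
  refine ⟨?_, fun x => ?_⟩
  · rw [isSelfAdjoint_iff, star_sub, hP, hQ]
  · rw [ContinuousLinearMap.reApplyInnerSelf_apply, inner_re_symm]
    have h1 : ⟪x, (Q - P) x⟫_ℂ = fx x Q - fx x P := by
      rw [← map_sub]
      rfl
    rw [h1]
    have h2 : (0 : ℝ) ≤ (fx x Q - fx x P).re := by
      rw [Complex.sub_re]
      linarith [hx x]
    exact h2

end CycAux

open CycAux

theorem cyc_unit (U : Perm V →* (H →L[ℂ] H)) (hU : Uni U) {A : Matrix V V ℂ} {S : Finset V}
    (hA : PSDon A S) {m : ℕ} [NeZero m] (hm : 5 ≤ m) {c : ZMod m → V} (h : CycOn A m c S)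
    (h1 : ∀ v ∈ S, A v v = 1) : D U A S ≤ pr A S • (1 : H →L[ℂ] H) := by
  have hherm : ∀ i ∈ S, ∀ j ∈ S, star (A i j) = A j i := fun i hi j hj => hA.herm hi hj
  rw [← X_one_eq, ← X_zero_eq U]
  refine le_of_form (X_star U hU A 1 S hherm) (X_star U hU A 0 S hherm) fun x => ?_
  set φ : ℝ → ℝ := fun s => (fx x (X U A s S)).re with hφ
  set φ' : ℝ → ℝ := fun s => (fx x (∑ C ∈ CC S, FF U A S s C)).re with hφ'
  have hd : ∀ s, HasDerivAt φ (φ' s) s := fun s => phi_deriv U A S x s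
  have hd2 : ∀ s, HasDerivAt (fun s => φ s - φ (1 - s)) (φ' s + φ' (1 - s)) s := by
    intro s
    have h2 := (hd s).sub (HasDerivAt.comp_const_sub 1 s (hd (1 - s)))
    rwa [sub_neg_eq_add] at h2
  have hanti : AntitoneOn (fun s => φ s - φ (1 - s)) (Set.Icc (0 : ℝ) 1) := by
    apply antitoneOn_of_deriv_nonpos (convex_Icc 0 1)
    · exact fun s _ => (hd2 s).continuousAt.continuousWithinAt
    · exact fun s _ => (hd2 s).differentiableAt.differentiableWithinAt
    · intro s hs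
      rw [interior_Icc] at hs
      rw [(hd2 s).deriv]
      exact main_bound U hU hA hm h h1 x s hs.1.le hs.2.le
  have h2 := hanti (Set.left_mem_Icc.2 zero_le_one) (Set.right_mem_Icc.2 zero_le_one)
    zero_le_one
  simp only [sub_self, sub_zero] at h2
  show φ 1 ≤ φ 0
  linarith

theorem D_le_cyc (U : Perm V →* (H →L[ℂ] H)) (hU : Uni U) {A : Matrix V V ℂ} {S : Finset V}
    (hA : PSDon A S) {m : ℕ} (hm : 5 ≤ m) {c : ZMod m → V} (h : CycOn A m c S) :
    D U A S ≤ pr A S • (1 : H →L[ℂ] H) := by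
  have : NeZero m := ⟨by omega⟩
  by_cases hz : ∃ z ∈ S, A z z = 0
  · obtain ⟨z, hz, hz0⟩ := hz
    have h2 := zero_row hA hz hz0
    rw [D_zero U hz h2, pr_zero hz h2, zero_smul]
  · push Not at hz
    have hre : ∀ z ∈ S, A z z = ((A z z).re : ℂ) ∧ 0 < (A z z).re := by
      intro z hzS
      have h2 : 0 ≤ A z z := by
        have h3 := (SchurAux.psdon_iff.1 hA).diag_nonneg (i := ⟨z, hzS⟩)
        exact h3
      rw [Complex.nonneg_iff] at h2
      have h3 : A z z = ((A z z).re : ℂ) := by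
        apply Complex.ext
        · simp
        · simp [← h2.2]
      refine ⟨h3, lt_of_le_of_ne h2.1 fun h4 => hz z hzS ?_⟩
      rw [h3, ← h4]
      simp
    set d : V → ℝ := fun i => (Real.sqrt (A i i).re)⁻¹ with hd
    have hd2 : ∀ z ∈ S, d z ^ 2 * (A z z).re = 1 := by
      intro z hzS
      rw [hd]
      simp only
      rw [inv_pow, Real.sq_sqrt (hre z hzS).2.le, inv_mul_cancel₀ (hre z hzS).2.ne']
    have hdpos : ∀ z ∈ S, 0 < d z := fun z hzS =>
      inv_pos.2 (Real.sqrt_pos.2 (hre z hzS).2)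
    have hcyc : CycOn (scl d A) m c S := by
      refine ⟨h.1, h.2.1, fun i j hij => h.2.2 i j fun h0 => hij ?_⟩
      simp [scl, h0]
    have hone : ∀ v ∈ S, scl d A v v = 1 := by
      intro v hv
      have h2 : scl d A v v = (d v : ℂ) * A v v * (d v : ℂ) := rfl
      rw [h2, (hre v hv).1]
      have h3 := hd2 v hv
      have h4 : (d v : ℂ) * (((A v v).re : ℝ) : ℂ) * (d v : ℂ) =
          ((d v ^ 2 * (A v v).re : ℝ) : ℂ) := by
        push_cast
        ring
      rw [h4, h3, Complex.ofReal_one]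
    have h2 := cyc_unit U hU (PSDon_scale hA d) hm hcyc hone
    rw [D_scale, pr_scale] at h2
    have hP : 0 < ∏ i ∈ S, d i ^ 2 := Finset.prod_pos fun i hi => pow_pos (hdpos i hi) 2
    have h3 : (0 : ℂ) ≤ (((∏ i ∈ S, d i ^ 2)⁻¹ : ℝ) : ℂ) := PathAux.ofReal_nn (inv_nonneg.2 hP.le)
    have h4 := smul_le_smul_of_nonneg_left h2 h3
    rw [smul_smul, smul_smul, ← mul_assoc, ← Complex.ofReal_mul, inv_mul_cancel₀ hP.ne',
      Complex.ofReal_one, one_smul, one_mul] at h4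
    exact h4

end PGB
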