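import Mathlib

/-!
# PGB: permanent on top for matrices whose graph has simple blocks -- definitions

Problem MP_502342_al (Soules' permanent-on-top assertion, Schur power matrices).

`V` is a finite set, `A` a complex matrix on `V`. For a representation `U` of `Perm V` in an algebra
`R` and a set `S` of vertices, `D U A S` is the sum over the permutations `σ` supported in `S` of
`(∏ i ∈ S, A (σ i) i) • U σ`, and `pr A S` is the permanent of `A` restricted to `S`. Permanent on
top for the principal submatrix `A[S]` is the operator inequality `D U A S ≤ pr A S • 1` for unitary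
`U`. `X U A s S` is an interpolation (`s = 0`: permanent, `s = 1`: `D`): every nontrivial cycle `C` of
`σ` contributes `(1 - s) • 1 + s • U C` instead of `U C`.
-/

set_option autoImplicit false

open scoped ComplexOrder
open Finset Equiv

namespace PGB

variable {V : Type*} [Fintype V] [DecidableEq V]

/-- the permutations supported in `S` -/
def PS (S : Finset V) : Finset (Perm V) := univ.filter fun σ => σ.support ⊆ S

open Classical in
/-- the cyclic permutations supported in `S` -/
noncomputable def CC (S : Finset V) : Finset (Perm V) :=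
  univ.filter fun C => C.IsCycle ∧ C.support ⊆ S

open Classical in
/-- the cyclic permutations supported in `S` that move `z` -/
noncomputable def CZ (S : Finset V) (z : V) : Finset (Perm V) :=
  univ.filter fun C => C.IsCycle ∧ z ∈ C.support ∧ C.support ⊆ S

/-- the product of the entries of `A` along `σ` -/
noncomputable def wt (A : Matrix V V ℂ) (S : Finset V) (σ : Perm V) : ℂ := ∏ i ∈ S, A (σ i) i

/-- the permanent of `A[S]` -/
noncomputable def pr (A : Matrix V V ℂ) (S : Finset V) : ℂ := ∑ σ ∈ PS S, wt A S σ

section algebra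

variable {R : Type*} [Ring R] [Algebra ℂ R]

/-- the group algebra element of `A[S]` in the representation `U` -/
noncomputable def D (U : Perm V →* R) (A : Matrix V V ℂ) (S : Finset V) : R :=
  ∑ σ ∈ PS S, wt A S σ • U σ

/-- the factor of one cycle -/
noncomputable def act (U : Perm V →* R) (s : ℝ) (C : Perm V) : R :=
  ((1 - s : ℝ) : ℂ) • (1 : R) + (s : ℂ) • U C

theorem act_comm (U : Perm V →* R) (s t : ℝ) {C C' : Perm V} (h : Perm.Disjoint C C') :
    Commute (act U s C) (act U t C') := by
  have h1 : Commute (U C) (U C') := h.commute.map U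
  unfold act
  refine Commute.add_left (Commute.add_right ?_ ?_) (Commute.add_right ?_ ?_)
  · exact ((Commute.one_left _).smul_left _).smul_right _
  · exact ((Commute.one_left _).smul_left _).smul_right _
  · exact ((Commute.one_right _).smul_left _).smul_right _
  · exact (h1.smul_left _).smul_right _

/-- the product of the factors of the cycles of `σ` -/
noncomputable def Pm (U : Perm V →* R) (s : ℝ) (σ : Perm V) : R :=
  σ.cycleFactorsFinset.noncommProd (act U s) fun _ hC _ hC' hne =>
    act_comm U s s (σ.cycleFactorsFinset_pairwise_disjoint hC hC' hne)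

/-- the interpolation between the permanent (`s = 0`) and `D` (`s = 1`) -/
noncomputable def X (U : Perm V →* R) (A : Matrix V V ℂ) (s : ℝ) (S : Finset V) : R :=
  ∑ σ ∈ PS S, wt A S σ • Pm U s σ

end algebra

/-- `A[S]` is positive semidefinite -/
def PSDon (A : Matrix V V ℂ) (S : Finset V) : Prop :=
  ∀ x : V → ℂ, 0 ≤ ∑ i ∈ S, ∑ j ∈ S, star (x i) * A i j * x j

/-- no edges between `S` and `T` -/
def NoE (A : Matrix V V ℂ) (S T : Finset V) : Prop :=
  ∀ i ∈ S, ∀ j ∈ T, A i j = 0 ∧ A j i = 0

/-- `A` with the diagonal entry at `z` replaced by `t` -/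
def upd (A : Matrix V V ℂ) (z : V) (t : ℂ) : Matrix V V ℂ :=
  Matrix.of fun i j => if i = z ∧ j = z then t else A i j

/-- the set `T` cannot be separated by deleting at most one vertex -/
def Insep (A : Matrix V V ℂ) (T : Finset V) : Prop :=
  ∀ S₁ S₂ : Finset V, S₁ ∪ S₂ = T → (S₁ ∩ S₂).card ≤ 1 →
    (∀ i ∈ S₁ \ S₂, ∀ j ∈ S₂ \ S₁, A i j = 0) → S₁ = T ∨ S₂ = T

/-- `T` is the vertex set of a cycle of length `m` that contains all edges inside `T` -/
def CycOn (A : Matrix V V ℂ) (m : ℕ) (c : ZMod m → V) (T : Finset V) : Prop :=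
  Function.Injective c ∧ (∀ v, v ∈ T ↔ ∃ i, c i = v) ∧
    ∀ i j, A (c i) (c j) ≠ 0 → i = j ∨ j = i + 1 ∨ i = j + 1

/-- `A[T]` is diagonally unitarily similar to an entrywise nonnegative matrix -/
def Bal (A : Matrix V V ℂ) (T : Finset V) : Prop :=
  ∃ u : V → ℂ, (∀ i ∈ T, ‖u i‖ = 1) ∧ ∀ i ∈ T, ∀ j ∈ T, 0 ≤ star (u i) * A i j * u j

/-- `U` is a unitary representation -/
def Uni {H : Type*} [NormedAddCommGroup H] [InnerProductSpace ℂ H] [CompleteSpace H]
    (U : Perm V →* (H →L[ℂ] H)) : Prop := ∀ g, star (U g) = U g⁻¹

end PGB
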