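import Pool.Agent.Lib.PGB.Basic

/-!
# PGB.Deriv: derivative of the interpolation

PROOF by strong induction on `S.card`. `S = ∅`: `X = 1`, `CC ∅ = ∅`. Otherwise choose `z ∈ S` and use
`X_rec` at `z`; `act U s C` has derivative `U C - 1`. The product rule gives
`A z z • X'(S.erase z) + ∑_{C ∈ CZ S z} wt C • ((U C - 1) * X(S \ C) + act U s C * X'(S \ C))`.
By induction `X'(T) = ∑_{C' ∈ CC T} wt C' • ((U C' - 1) * X(T \ C'))` for the smaller sets `T`. The
cycles `C' ∈ CC S` with `z ∉ C'.support` are exactly those of `CC (S.erase z)`; for such `C'` expand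
`X(S \ C')` by `X_rec` at `z ∈ S \ C'`: this gives
`A z z • X((S \ C').erase z) + ∑_{C ∈ CZ (S \ C') z} wt C • (act U s C * X((S \ C') \ C))`.
Compare: the pairs `(C, C')` with `C ∈ CZ S z`, `C' ∈ CC (S \ C)` are the pairs with
`C' ∈ CC (S.erase z)`, `C ∈ CZ (S \ C') z`; `U C' - 1` commutes with `act U s C` (disjoint supports).
The cycles `C' ∈ CC S` with `z` in the support are those of `CZ S z`.
-/

set_option autoImplicit false

open scoped ComplexOrder
open Finset Equiv

namespace PGB

variable {V : Type*} [Fintype V] [DecidableEq V] {R : Type*} [NormedRing R] [NormedAlgebra ℂ R]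

namespace DerivAux

theorem mem_CZ {S : Finset V} {z : V} {C : Perm V} :
    C ∈ CZ S z ↔ C.IsCycle ∧ z ∈ C.support ∧ C.support ⊆ S := by
  classical
  simp [CZ]

theorem mem_CC {S : Finset V} {C : Perm V} : C ∈ CC S ↔ C.IsCycle ∧ C.support ⊆ S := by
  classical
  simp [CC]

theorem CC_empty : CC (∅ : Finset V) = ∅ := by
  refine Finset.eq_empty_of_forall_notMem fun C hC => ?_
  have h1 := mem_CC.1 hC
  have h2 := h1.1.two_le_card_support
  rw [Finset.subset_empty.1 h1.2] at h2
  simp at h2

theorem act_one (U : Perm V →* R) (C : Perm V) : act U 1 C = U C := by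
  simp [act]

theorem act_deriv (U : Perm V →* R) (C : Perm V) (s : ℝ) :
    HasDerivAt (fun s : ℝ => act U s C) (U C - 1) s := by
  have h1 : HasDerivAt (fun s : ℝ => ((s : ℝ) : ℂ)) 1 s := Complex.ofRealCLM.hasDerivAt
  have h2 : HasDerivAt (fun s : ℝ => ((1 - s : ℝ) : ℂ)) (-1) s := by
    have h3 : HasDerivAt (fun s : ℝ => (1 : ℂ) - (s : ℂ)) (-1) s := by
      simpa using h1.const_sub 1
    refine h3.congr_of_eventuallyEq (Filter.Eventually.of_forall fun t => ?_)
    push_cast
    rfl
  have h4 := (h2.smul_const (1 : R)).add (h1.smul_const (U C))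
  have h5 : (-1 : ℂ) • (1 : R) + (1 : ℂ) • U C = U C - 1 := by
    rw [neg_smul, one_smul, one_smul]
    abel
  rw [h5] at h4
  exact h4

/-- the candidate for the derivative -/
noncomputable def X' (U : Perm V →* R) (A : Matrix V V ℂ) (s : ℝ) (S : Finset V) : R :=
  ∑ C ∈ CC S, wt A C.support C • ((U C - 1) * X U A s (S \ C.support))

theorem X'_rec (U : Perm V →* R) (A : Matrix V V ℂ) (s : ℝ) {S : Finset V} {z : V}
    (hz : z ∈ S) : X' U A s S = A z z • X' U A s (S.erase z) +
      ∑ C ∈ CZ S z, wt A C.support C • ((U C - 1) * X U A s (S \ C.support) +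
        act U s C * X' U A s (S \ C.support)) := by
  classical
  have hsplit : X' U A s S = (∑ C ∈ CC (S.erase z), wt A C.support C •
      ((U C - 1) * X U A s (S \ C.support))) +
      ∑ C ∈ CZ S z, wt A C.support C • ((U C - 1) * X U A s (S \ C.support)) := by
    unfold X'
    rw [← Finset.sum_filter_not_add_sum_filter (CC S) (fun C => z ∈ C.support)]
    congr 1
    · refine Finset.sum_congr ?_ fun _ _ => rfl
      ext C
      rw [Finset.mem_filter, mem_CC, mem_CC, Finset.subset_erase]
      tauto
    · refine Finset.sum_congr ?_ fun _ _ => rfl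
      ext C
      rw [Finset.mem_filter, mem_CC, mem_CZ]
      tauto
  have h1 : ∀ C ∈ CC (S.erase z), wt A C.support C • ((U C - 1) * X U A s (S \ C.support)) =
      A z z • (wt A C.support C • ((U C - 1) * X U A s (S.erase z \ C.support))) +
        ∑ C' ∈ CZ (S \ C.support) z, wt A C'.support C' • (act U s C' *
          (wt A C.support C • ((U C - 1) * X U A s ((S \ C'.support) \ C.support)))) := by
    intro C hC
    have hC' := mem_CC.1 hC
    have hzC : z ∉ C.support := fun h => (Finset.mem_erase.1 (hC'.2 h)).1 rfl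
    have hz' : z ∈ S \ C.support := Finset.mem_sdiff.2 ⟨hz, hzC⟩
    rw [X_rec U A s hz', mul_add, smul_add]
    congr 1
    · rw [mul_smul_comm, smul_comm]
      congr 5
      ext i
      simp only [Finset.mem_erase, Finset.mem_sdiff]
      tauto
    · rw [Finset.mul_sum, Finset.smul_sum]
      refine Finset.sum_congr rfl fun C' hC1 => ?_
      have hC2 := mem_CZ.1 hC1
      have hdis : Perm.Disjoint C' C := by
        rw [Perm.disjoint_iff_disjoint_support, Finset.disjoint_left]
        intro i hi hi2
        exact (Finset.mem_sdiff.1 (hC2.2.2 hi)).2 hi2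
      have hcom : Commute (act U s C') (U C - 1) := by
        have h3 := act_comm U s 1 hdis
        rw [act_one] at h3
        exact h3.sub_right (Commute.one_right _)
      rw [mul_smul_comm, mul_smul_comm, smul_comm, ← mul_assoc, ← mul_assoc, hcom.eq,
        sdiff_right_comm]
  have h2 : ∑ C ∈ CC (S.erase z), wt A C.support C • ((U C - 1) * X U A s (S \ C.support)) =
      A z z • X' U A s (S.erase z) +
        ∑ C ∈ CZ S z, wt A C.support C • (act U s C * X' U A s (S \ C.support)) := by
    rw [Finset.sum_congr rfl h1, Finset.sum_add_distrib]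
    congr 1
    · rw [← Finset.smul_sum]
      rfl
    · rw [Finset.sum_comm' (t' := CZ S z) (s' := fun C' => CC (S \ C'.support))]
      · refine Finset.sum_congr rfl fun C' _ => ?_
        rw [← Finset.smul_sum, ← Finset.mul_sum]
        rfl
      · intro C C'
        rw [mem_CC, mem_CZ, mem_CC, mem_CZ]
        simp only [Finset.subset_iff, Finset.mem_sdiff, Finset.mem_erase]
        constructor
        · rintro ⟨⟨a1, a2⟩, a3, a4, a5⟩
          exact ⟨⟨a1, fun i hi => ⟨(a2 hi).2, fun h => (a5 h).2 hi⟩⟩, a3, a4,
            fun i hi => (a5 hi).1⟩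
        · rintro ⟨⟨a1, a2⟩, a3, a4, a5⟩
          refine ⟨⟨a1, fun i hi => ⟨?_, (a2 hi).1⟩⟩, a3, a4, fun i hi => ⟨a5 hi, fun h => ?_⟩⟩
          · rintro rfl
            exact (a2 hi).2 a4
          · exact (a2 h).2 hi
  rw [hsplit, h2, add_assoc, ← Finset.sum_add_distrib]
  congr 1
  refine Finset.sum_congr rfl fun C _ => ?_
  rw [← smul_add, add_comm]

end DerivAux

open DerivAux in
theorem X_deriv (U : Perm V →* R) (A : Matrix V V ℂ) (S : Finset V) (s : ℝ) :
    HasDerivAt (fun s : ℝ => X U A s S)
      (∑ C ∈ CC S, wt A C.support C • ((U C - 1) * X U A s (S \ C.support))) s := by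
  induction S using Finset.strongInduction with
  | H S ih =>
    rcases S.eq_empty_or_nonempty with rfl | ⟨z, hz⟩
    · rw [CC_empty, Finset.sum_empty]
      have h1 : (fun s : ℝ => X U A s ∅) = fun _ => (1 : R) := by
        funext t
        exact X_empty U A t
      rw [h1]
      exact hasDerivAt_const s 1
    · have h1 : (fun s : ℝ => X U A s S) = fun s : ℝ => A z z • X U A s (S.erase z) +
          ∑ C ∈ CZ S z, wt A C.support C • (act U s C * X U A s (S \ C.support)) := by
        funext t
        exact X_rec U A t hz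
      have h2 : (∑ C ∈ CC S, wt A C.support C • ((U C - 1) * X U A s (S \ C.support))) =
          A z z • X' U A s (S.erase z) +
          ∑ C ∈ CZ S z, wt A C.support C • ((U C - 1) * X U A s (S \ C.support) +
            act U s C * X' U A s (S \ C.support)) := X'_rec U A s hz
      rw [h1, h2]
      refine HasDerivAt.add ?_ (HasDerivAt.fun_sum fun C hC => ?_)
      · exact (ih (S.erase z) (Finset.erase_ssubset hz)).const_smul (A z z)
      · have hC' := mem_CZ.1 hC
        have h3 : S \ C.support ⊂ S := by
          refine Finset.ssubset_iff_subset_ne.2 ⟨Finset.sdiff_subset, fun h => ?_⟩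
          have h4 : z ∈ S \ C.support := h.symm ▸ hz
          exact (Finset.mem_sdiff.1 h4).2 hC'.2.1
        exact ((act_deriv U C s).mul (ih _ h3)).const_smul (wt A C.support C)

end PGB
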