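import Pool.Agent.Lib.PGB.Defs

/-!
# PGB.Fin: from the operator inequality in the left regular representation to the Schur power matrix
-/

set_option autoImplicit false

open scoped ComplexOrder InnerProductSpace MatrixOrder
open Finset Equiv

namespace PGB

namespace FinAux

/-- functions on the permutations, as a Hilbert space -/
abbrev E (n : ℕ) := EuclideanSpace ℂ (Perm (Fin n))

/-- the left regular representation, one permutation -/
noncomputable def iso (n : ℕ) (g : Perm (Fin n)) : E n ≃ₗᵢ[ℂ] E n :=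
  LinearIsometryEquiv.piLpCongrLeft 2 ℂ ℂ (Equiv.mulLeft g)

theorem iso_apply {n : ℕ} (g : Perm (Fin n)) (x : E n) (σ : Perm (Fin n)) :
    iso n g x σ = x (g⁻¹ * σ) := rfl

/-- the left regular representation -/
noncomputable def reg (n : ℕ) : Perm (Fin n) →* (E n →L[ℂ] E n) where
  toFun g := ((iso n g).toContinuousLinearEquiv : E n →L[ℂ] E n)
  map_one' := by
    ext x σ
    show iso n 1 x σ = x σ
    rw [iso_apply]
    simp
  map_mul' g h := by
    ext x σ
    show iso n (g * h) x σ = iso n g (iso n h x) σ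
    rw [iso_apply, iso_apply, iso_apply, mul_inv_rev, mul_assoc]

theorem reg_apply {n : ℕ} (g : Perm (Fin n)) (x : E n) (σ : Perm (Fin n)) :
    reg n g x σ = x (g⁻¹ * σ) := rfl

theorem reg_uni (n : ℕ) : Uni (reg n) := by
  intro g
  rw [ContinuousLinearMap.star_eq_adjoint]
  symm
  rw [ContinuousLinearMap.eq_adjoint_iff]
  intro x y
  have h1 : ∀ u : E n, reg n g u = iso n g u := fun _ => rfl
  have h2 : x = reg n g (reg n g⁻¹ x) := by
    rw [← mul_apply_eq_comp, ← map_mul, mul_inv_cancel, map_one]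
    rfl
  conv_rhs => rw [h2, h1, h1]
  rw [LinearIsometryEquiv.inner_map_map]

theorem PS_univ {V : Type*} [Fintype V] [DecidableEq V] : PS (univ : Finset V) = univ := by
  ext σ
  simp [PS]

theorem pr_univ {n : ℕ} (A : Matrix (Fin n) (Fin n) ℂ) : pr A univ = A.permanent := by
  unfold pr wt Matrix.permanent
  rw [PS_univ]

theorem D_inner {n : ℕ} (A : Matrix (Fin n) (Fin n) ℂ) (x : E n) :
    ⟪x, D (reg n) A univ x⟫_ℂ = ∑ σ : Perm (Fin n), ∑ τ : Perm (Fin n),
      star (x σ) * (∏ i, A (σ i) (τ i)) * x τ := by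
  rw [PiLp.inner_apply]
  refine Finset.sum_congr rfl fun σ _ => ?_
  have h1 : D (reg n) A univ x σ = ∑ g : Perm (Fin n), (∏ i, A (g i) i) * x (g⁻¹ * σ) := by
    unfold D wt
    rw [PS_univ, _root_.sum_apply, WithLp.ofLp_sum, Finset.sum_apply]
    rfl
  rw [h1]
  have h2 : ∑ g : Perm (Fin n), (∏ i, A (g i) i) * x (g⁻¹ * σ)
      = ∑ τ : Perm (Fin n), (∏ i, A (σ i) (τ i)) * x τ := by
    rw [← Equiv.sum_comp ((Equiv.inv (Perm (Fin n))).trans (Equiv.mulLeft σ))]
    refine Finset.sum_congr rfl fun τ _ => ?_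
    have e : ((Equiv.inv (Perm (Fin n))).trans (Equiv.mulLeft σ)) τ = σ * τ⁻¹ := rfl
    rw [e, mul_inv_rev, inv_inv, inv_mul_cancel_right]
    congr 1
    rw [← Equiv.prod_comp τ (fun i => A ((σ * τ⁻¹) i) i)]
    refine Finset.prod_congr rfl fun i _ => ?_
    simp [Perm.mul_apply]
  rw [h2, RCLike.inner_apply, mul_comm, Finset.mul_sum]
  refine Finset.sum_congr rfl fun τ _ => ?_
  rw [mul_assoc]
  rfl

end FinAux

open FinAux

theorem PSDon_univ {n : ℕ} {A : Matrix (Fin n) (Fin n) ℂ} (hA : A.PosSemidef) :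
    PSDon A univ := by
  intro x
  have h := hA.dotProduct_mulVec_nonneg x
  have e : star x ⬝ᵥ A.mulVec x = ∑ i, ∑ j, star (x i) * A i j * x j := by
    unfold Matrix.mulVec dotProduct
    refine Finset.sum_congr rfl fun i _ => ?_
    rw [Finset.mul_sum]
    refine Finset.sum_congr rfl fun j _ => ?_
    rw [mul_assoc]
    rfl
  rw [e] at h
  exact h

/-- the operator inequality in the regular representation gives the bound on the quadratic form of
the Schur power matrix -/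
theorem form_of_le {n : ℕ} {A : Matrix (Fin n) (Fin n) ℂ}
    (h : D (reg n) A univ ≤ pr A univ • (1 : E n →L[ℂ] E n)) (x : Perm (Fin n) → ℂ) :
    (∑ σ : Perm (Fin n), ∑ τ : Perm (Fin n),
        star (x σ) * (∏ i, A (σ i) (τ i)) * x τ).re
      ≤ A.permanent.re * ∑ σ : Perm (Fin n), ‖x σ‖ ^ 2 := by
  have h1 := (ContinuousLinearMap.le_def _ _).1 h
  have h2 := h1.re_inner_nonneg_right (WithLp.toLp 2 x : E n)
  rw [sub_apply, inner_sub_right, D_inner, pr_univ] at h2
  have h3 : ⟪(WithLp.toLp 2 x : E n), (A.permanent • (1 : E n →L[ℂ] E n)) (WithLp.toLp 2 x)⟫_ℂ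
      = A.permanent * ((∑ σ : Perm (Fin n), ‖x σ‖ ^ 2 : ℝ) : ℂ) := by
    have h5 := EuclideanSpace.norm_sq_eq (𝕜 := ℂ) (WithLp.toLp 2 x : E n)
    rw [smul_apply, one_apply_eq_self, inner_smul_right,
      inner_self_eq_norm_sq_to_K]
    rw [← h5]
    norm_cast
  rw [h3] at h2
  have h4 : (RCLike.re (A.permanent * ((∑ σ : Perm (Fin n), ‖x σ‖ ^ 2 : ℝ) : ℂ)) : ℝ)
      = A.permanent.re * ∑ σ : Perm (Fin n), ‖x σ‖ ^ 2 := Complex.re_mul_ofReal _ _
  rw [map_sub, h4] at h2
  exact sub_nonneg.1 h2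

theorem row_sum {n : ℕ} (A : Matrix (Fin n) (Fin n) ℂ) (σ : Perm (Fin n)) :
    ∑ τ : Perm (Fin n), ∏ i, A (σ i) (τ i) = A.permanent := by
  unfold Matrix.permanent
  rw [← Equiv.sum_comp (Equiv.mulRight σ)]
  rw [← Equiv.sum_comp (Equiv.inv (Equiv.Perm (Fin n)))
    (fun τ : Equiv.Perm (Fin n) => ∏ i, A (τ i) i)]
  refine Finset.sum_congr rfl fun τ _ => ?_
  have e1 : (Equiv.mulRight σ) τ = τ * σ := rfl
  have e2 : (Equiv.inv (Equiv.Perm (Fin n))) τ = τ⁻¹ := rfl
  rw [e1, e2, ← Equiv.prod_comp (τ * σ) (fun i => A (τ⁻¹ i) i)]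
  refine Finset.prod_congr rfl fun i _ => ?_
  simp [Equiv.Perm.mul_apply]

/-- the bound on the quadratic form gives the spectral statement -/
theorem spectrum_of_form {n : ℕ} (A : Matrix (Fin n) (Fin n) ℂ) (hA : A.IsHermitian)
    (P : Matrix (Perm (Fin n)) (Perm (Fin n)) ℂ) (hP : ∀ σ τ, P σ τ = ∏ i, A (σ i) (τ i))
    (main : ∀ x : Perm (Fin n) → ℂ,
      (∑ σ : Perm (Fin n), ∑ τ : Perm (Fin n),
        star (x σ) * (∏ i, A (σ i) (τ i)) * x τ).re
        ≤ A.permanent.re * ∑ σ : Perm (Fin n), ‖x σ‖ ^ 2) :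
    A.permanent.im = 0 ∧
    Module.End.HasEigenvalue (Matrix.toLin' P) A.permanent ∧
    (∀ μ : ℂ, Module.End.HasEigenvalue (Matrix.toLin' P) μ →
      μ.im = 0 ∧ μ.re ≤ A.permanent.re) := by
  have him : A.permanent.im = 0 := by
    apply Complex.conj_eq_iff_im.1
    have h1 : A.permanent = (A.transpose).permanent := (Matrix.permanent_transpose A).symm
    conv_lhs => rw [h1]
    unfold Matrix.permanent
    rw [map_sum]
    refine Finset.sum_congr rfl fun σ _ => ?_
    rw [map_prod]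
    refine Finset.prod_congr rfl fun i _ => ?_
    rw [Matrix.transpose_apply]
    exact hA.apply _ _
  have heig : ∀ μ : ℂ, Module.End.HasEigenvalue (Matrix.toLin' P) μ →
      ∃ x : Equiv.Perm (Fin n) → ℂ, x ≠ 0 ∧ ∀ σ, ∑ τ : Equiv.Perm (Fin n),
        (∏ i, A (σ i) (τ i)) * x τ = μ * x σ := by
    intro μ hμ
    obtain ⟨x, hx⟩ := hμ.exists_hasEigenvector
    refine ⟨x, hx.2, fun σ => ?_⟩
    have h1 := congrFun (Module.End.mem_eigenspace_iff.1 hx.1) σ
    rw [Matrix.toLin'_apply] at h1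
    have h2 : P.mulVec x σ = ∑ τ : Equiv.Perm (Fin n), P σ τ * x τ := rfl
    rw [h2] at h1
    simp only [hP] at h1
    exact h1
  refine ⟨him, ?_, ?_⟩
  · refine Module.End.hasEigenvalue_of_hasEigenvector (x := fun _ => (1 : ℂ)) ⟨?_, ?_⟩
    · rw [Module.End.mem_eigenspace_iff, Matrix.toLin'_apply]
      funext σ
      have h1 : P.mulVec (fun _ => (1 : ℂ)) σ
          = ∑ τ : Equiv.Perm (Fin n), P σ τ * 1 := rfl
      rw [h1]
      simp only [mul_one, hP]
      rw [row_sum A σ]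
      simp
    · intro h
      have h1 := congrFun h (1 : Equiv.Perm (Fin n))
      exact one_ne_zero h1
  · intro μ hμ
    obtain ⟨x, hx0, hx⟩ := heig μ hμ
    have hN : ∑ σ : Equiv.Perm (Fin n), star (x σ) * x σ
        = ((∑ σ : Equiv.Perm (Fin n), ‖x σ‖ ^ 2 : ℝ) : ℂ) := by
      rw [Complex.ofReal_sum]
      refine Finset.sum_congr rfl fun σ _ => ?_
      rw [mul_comm, Complex.star_def, Complex.mul_conj, Complex.normSq_eq_norm_sq]
    have hpos : 0 < ∑ σ : Equiv.Perm (Fin n), ‖x σ‖ ^ 2 := by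
      obtain ⟨σ, hσ⟩ := Function.ne_iff.1 hx0
      refine lt_of_lt_of_le ?_ (Finset.single_le_sum (f := fun σ => ‖x σ‖ ^ 2)
        (fun τ _ => by positivity) (Finset.mem_univ σ))
      have : x σ ≠ 0 := hσ
      positivity
    have hS : ∑ σ : Equiv.Perm (Fin n), ∑ τ : Equiv.Perm (Fin n),
        star (x σ) * (∏ i, A (σ i) (τ i)) * x τ
        = μ * ((∑ σ : Equiv.Perm (Fin n), ‖x σ‖ ^ 2 : ℝ) : ℂ) := by
      rw [← hN, Finset.mul_sum]
      refine Finset.sum_congr rfl fun σ _ => ?_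
      have h1 : ∑ τ : Equiv.Perm (Fin n), star (x σ) * (∏ i, A (σ i) (τ i)) * x τ
          = star (x σ) * ∑ τ : Equiv.Perm (Fin n), (∏ i, A (σ i) (τ i)) * x τ := by
        rw [Finset.mul_sum]
        exact Finset.sum_congr rfl fun τ _ => mul_assoc _ _ _
      rw [h1, hx σ]
      ring
    have hSreal : star (∑ σ : Equiv.Perm (Fin n), ∑ τ : Equiv.Perm (Fin n),
        star (x σ) * (∏ i, A (σ i) (τ i)) * x τ)
        = ∑ σ : Equiv.Perm (Fin n), ∑ τ : Equiv.Perm (Fin n),
        star (x σ) * (∏ i, A (σ i) (τ i)) * x τ := by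
      rw [star_sum]
      refine Eq.trans (b := ∑ σ : Equiv.Perm (Fin n), ∑ τ : Equiv.Perm (Fin n),
        star (x τ) * (∏ i, A (τ i) (σ i)) * x σ) ?_ Finset.sum_comm
      refine Finset.sum_congr rfl fun σ _ => ?_
      rw [star_sum]
      refine Finset.sum_congr rfl fun τ _ => ?_
      rw [star_mul', star_mul', star_star, star_prod]
      have h5 : ∏ i, star (A (σ i) (τ i)) = ∏ i, A (τ i) (σ i) :=
        Finset.prod_congr rfl fun i _ => hA.apply _ _
      rw [h5]
      ring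
    have hb := main x
    rw [hS] at hb hSreal
    have h2 : (μ * ((∑ σ : Equiv.Perm (Fin n), ‖x σ‖ ^ 2 : ℝ) : ℂ)).re
        = μ.re * ∑ σ : Equiv.Perm (Fin n), ‖x σ‖ ^ 2 := Complex.re_mul_ofReal _ _
    have h3 : (μ * ((∑ σ : Equiv.Perm (Fin n), ‖x σ‖ ^ 2 : ℝ) : ℂ)).im
        = μ.im * ∑ σ : Equiv.Perm (Fin n), ‖x σ‖ ^ 2 := Complex.im_mul_ofReal _ _
    constructor
    · have h4 := Complex.conj_eq_iff_im.1 hSreal
      rw [h3] at h4
      exact (mul_eq_zero.1 h4).resolve_right hpos.ne'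
    · rw [h2] at hb
      exact le_of_mul_le_mul_right hb hpos

/-- the bound on the quadratic form gives the inequality for Hadamard products -/
theorem hadamard_of_form {n : ℕ} (A B : Matrix (Fin n) (Fin n) ℂ) (hB : B.PosSemidef)
    (main : ∀ x : Perm (Fin n) → ℂ,
      (∑ σ : Perm (Fin n), ∑ τ : Perm (Fin n),
        star (x σ) * (∏ i, A (σ i) (τ i)) * x τ).re
        ≤ A.permanent.re * ∑ σ : Perm (Fin n), ‖x σ‖ ^ 2) :
    (A.hadamard B).permanent.re ≤ A.permanent.re * ∏ i, (B i i).re := by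
  have hN0 : (0 : ℝ) < (Fintype.card (Perm (Fin n)) : ℝ) := by
    exact_mod_cast Fintype.card_pos
  obtain ⟨C, hC⟩ := CStarAlgebra.nonneg_iff_eq_star_mul_self.mp hB.nonneg
  have hb : ∀ i j, B i j = ∑ k, star (C k i) * C k j := by
    intro i j
    rw [hC, Matrix.mul_apply]
    rfl
  set X : (Fin n → Fin n) → Equiv.Perm (Fin n) → ℂ := fun k σ => ∏ i, C (k i) (σ i) with hX
  have hXX : ∀ σ τ : Equiv.Perm (Fin n), ∑ k, star (X k σ) * X k τ = ∏ i, B (σ i) (τ i) := by
    intro σ τ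
    have h1 : ∏ i, B (σ i) (τ i) = ∏ i, ∑ k ∈ Finset.univ, star (C k (σ i)) * C k (τ i) :=
      Finset.prod_congr rfl fun i _ => hb _ _
    rw [h1, Finset.prod_univ_sum, Fintype.piFinset_univ]
    refine Finset.sum_congr rfl fun k _ => ?_
    rw [hX]
    simp only [star_prod]
    rw [← Finset.prod_mul_distrib]
  have hsum := Finset.sum_le_sum fun (k : Fin n → Fin n) (_ : k ∈ Finset.univ) => main (X k)
  rw [← Complex.re_sum, ← Finset.mul_sum] at hsum
  have hL : ∑ k, ∑ σ : Equiv.Perm (Fin n), ∑ τ : Equiv.Perm (Fin n),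
      star (X k σ) * (∏ i, A (σ i) (τ i)) * X k τ
      = (Fintype.card (Perm (Fin n)) : ℂ) * (A.hadamard B).permanent := by
    rw [Finset.sum_comm]
    have h1 : ∀ σ : Equiv.Perm (Fin n), ∑ k, ∑ τ : Equiv.Perm (Fin n),
        star (X k σ) * (∏ i, A (σ i) (τ i)) * X k τ = (A.hadamard B).permanent := by
      intro σ
      rw [Finset.sum_comm, ← row_sum (A.hadamard B) σ]
      refine Finset.sum_congr rfl fun τ _ => ?_
      simp only [Matrix.hadamard_apply]
      rw [Finset.prod_mul_distrib, ← hXX σ τ, Finset.mul_sum]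
      refine Finset.sum_congr rfl fun k _ => ?_
      ring
    rw [Finset.sum_congr rfl fun σ _ => h1 σ, Finset.sum_const, Finset.card_univ, nsmul_eq_mul]
  have hR : ∑ k, ∑ σ : Equiv.Perm (Fin n), ‖X k σ‖ ^ 2
      = (Fintype.card (Perm (Fin n)) : ℝ) * ∏ i, (B i i).re := by
    rw [Finset.sum_comm]
    have h1 : ∀ σ : Equiv.Perm (Fin n), ∑ k, ‖X k σ‖ ^ 2 = ∏ i, (B i i).re := by
      intro σ
      have h2 : ((∑ k, ‖X k σ‖ ^ 2 : ℝ) : ℂ) = ((∏ i, (B i i).re : ℝ) : ℂ) := by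
        have h3 : ∀ k, star (X k σ) * X k σ = ((‖X k σ‖ ^ 2 : ℝ) : ℂ) := fun k => by
          rw [mul_comm, Complex.star_def, Complex.mul_conj, Complex.normSq_eq_norm_sq]
        rw [Complex.ofReal_sum, ← Finset.sum_congr rfl fun k _ => h3 k, hXX σ σ,
          Equiv.prod_comp σ (fun i => B i i), Complex.ofReal_prod]
        refine Finset.prod_congr rfl fun i _ => ?_
        have h4 := hB.1.coe_re_apply_self i
        exact h4.symm
      exact_mod_cast h2
    rw [Finset.sum_congr rfl fun σ _ => h1 σ, Finset.sum_const, Finset.card_univ, nsmul_eq_mul]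
  rw [hL, hR] at hsum
  have h5 : ((Fintype.card (Perm (Fin n)) : ℂ) * (A.hadamard B).permanent).re
      = (Fintype.card (Perm (Fin n)) : ℝ) * (A.hadamard B).permanent.re := by
    have : (Fintype.card (Perm (Fin n)) : ℂ) = ((Fintype.card (Perm (Fin n)) : ℝ) : ℂ) := by
      norm_cast
    rw [this, Complex.re_ofReal_mul]
  rw [h5] at hsum
  have h6 : (Fintype.card (Perm (Fin n)) : ℝ) * (A.hadamard B).permanent.re
      ≤ (Fintype.card (Perm (Fin n)) : ℝ) * (A.permanent.re * ∏ i, (B i i).re) := by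
    calc _ ≤ _ := hsum
      _ = _ := by ring
  exact le_of_mul_le_mul_left h6 hN0

end PGB
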