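import Pool.Agent.Lib.PGB.Basic

/-!
# PGB.Glue: disjoint unions and cut vertices

`D` is multiplicative for disjoint unions without edges between the parts (`D_disc`), and there is
a formula for the union of two parts that have one vertex in common (`D_cut`). The same for the
permanent (`pr_disc`, `pr_cut`).
-/

set_option autoImplicit false

open scoped ComplexOrder
open Finset Equiv

namespace PGB

variable {V : Type*} [Fintype V] [DecidableEq V] {R : Type*} [Ring R] [Algebra ℂ R]

namespace GlueAux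

theorem wt_entry {A : Matrix V V ℂ} {C : Perm V} (hw : wt A C.support C ≠ 0) {v : V}
    (hv : v ∈ C.support) : A (C v) v ≠ 0 := by
  unfold wt at hw
  rw [Finset.prod_ne_zero_iff] at hw
  exact hw v hv

theorem noE_symm {A : Matrix V V ℂ} {S₁ S₂ : Finset V} (hE : NoE A S₁ S₂) : NoE A S₂ S₁ :=
  fun i hi j hj => ⟨(hE j hj i hi).2, (hE j hj i hi).1⟩

theorem noE_sub {A : Matrix V V ℂ} {S₁ S₂ T : Finset V} (hE : NoE A S₁ S₂) (h : T ⊆ S₁) :
    NoE A T S₂ :=
  fun i hi j hj => hE i (h hi) j hj

theorem pow_mem_support {C : Perm V} {z : V} (hz : z ∈ C.support) (k : ℕ) :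
    (C ^ k) z ∈ C.support := by
  rwa [Perm.pow_apply_mem_support]

theorem mem_CZ {S : Finset V} {z : V} {C : Perm V} :
    C ∈ CZ S z ↔ C.IsCycle ∧ z ∈ C.support ∧ C.support ⊆ S := by
  classical
  unfold CZ
  simp only [Finset.mem_filter, Finset.mem_univ, true_and]

/-- Cycles of nonzero weight through a point of one of two parts without edges between them. -/
theorem cyc_in {A : Matrix V V ℂ} {S₁ S₂ : Finset V} {z : V} (hE : NoE A S₁ S₂) {C : Perm V}
    (hC : C.IsCycle) (hz : z ∈ C.support) (hS : C.support ⊆ S₁ ∪ S₂)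
    (hw : wt A C.support C ≠ 0) (h1 : z ∈ S₁) : C.support ⊆ S₁ := by
  have key : ∀ k : ℕ, (C ^ k) z ∈ S₁ := by
    intro k
    induction k with
    | zero => simpa using h1
    | succ k ih =>
      have hv : (C ^ k) z ∈ C.support := pow_mem_support hz k
      have h3 : (C ^ (k + 1)) z = C ((C ^ k) z) := by
        rw [pow_succ', Perm.mul_apply]
      rw [h3]
      have h4 : C ((C ^ k) z) ∈ S₁ ∪ S₂ := hS (by rwa [Perm.apply_mem_support])
      rcases Finset.mem_union.1 h4 with h5 | h5
      · exact h5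
      · exact absurd (hE _ ih _ h5).2 (wt_entry hw hv)
  intro x hx
  obtain ⟨k, hk⟩ := hC.exists_pow_eq (Perm.mem_support.1 hz) (Perm.mem_support.1 hx)
  rw [← hk]
  exact key k

end GlueAux

open GlueAux

theorem cyc_side {A : Matrix V V ℂ} {S₁ S₂ : Finset V} {z : V} (hE : NoE A S₁ S₂) {C : Perm V}
    (hC : C.IsCycle) (hz : z ∈ C.support) (hS : C.support ⊆ insert z (S₁ ∪ S₂))
    (hw : wt A C.support C ≠ 0) (h1 : C z ∈ S₁) : C.support ⊆ insert z S₁ := by
  have key : ∀ k : ℕ, (C ^ k) z ∈ insert z S₁ := by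
    intro k
    induction k with
    | zero => simp
    | succ k ih =>
      have hv : (C ^ k) z ∈ C.support := pow_mem_support hz k
      have h3 : (C ^ (k + 1)) z = C ((C ^ k) z) := by
        rw [pow_succ', Perm.mul_apply]
      rw [h3]
      rcases Finset.mem_insert.1 ih with h4 | h4
      · rw [h4]; exact Finset.mem_insert_of_mem h1
      · have h5 : C ((C ^ k) z) ∈ insert z (S₁ ∪ S₂) := hS (by rwa [Perm.apply_mem_support])
        rcases Finset.mem_insert.1 h5 with h6 | h6
        · rw [h6]; exact Finset.mem_insert_self _ _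
        · rcases Finset.mem_union.1 h6 with h7 | h7
          · exact Finset.mem_insert_of_mem h7
          · exact absurd (hE _ h4 _ h7).2 (wt_entry hw hv)
  intro x hx
  obtain ⟨k, hk⟩ := hC.exists_pow_eq (Perm.mem_support.1 hz) (Perm.mem_support.1 hx)
  rw [← hk]
  exact key k

theorem D_disc (U : Perm V →* R) (A : Matrix V V ℂ) {S₁ S₂ : Finset V} (hd : Disjoint S₁ S₂)
    (hE : NoE A S₁ S₂) : D U A (S₁ ∪ S₂) = D U A S₁ * D U A S₂ := by
  induction hn : S₁.card using Nat.strong_induction_on generalizing S₁ with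
  | _ n ih =>
    rcases Finset.eq_empty_or_nonempty S₁ with h0 | ⟨z, hz⟩
    · subst h0
      rw [D_empty, one_mul, Finset.empty_union]
    · have hz2 : z ∉ S₂ := Finset.disjoint_left.1 hd hz
      have hzU : z ∈ S₁ ∪ S₂ := Finset.mem_union_left _ hz
      rw [D_rec U A hzU, D_rec U A hz]
      have e1 : (S₁ ∪ S₂).erase z = S₁.erase z ∪ S₂ := by
        rw [Finset.erase_union_distrib, Finset.erase_eq_of_notMem hz2]
      have e2 : D U A ((S₁ ∪ S₂).erase z) = D U A (S₁.erase z) * D U A S₂ := by
        rw [e1]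
        exact ih (S₁.erase z).card (by rw [← hn]; exact Finset.card_erase_lt_of_mem hz)
          (hd.mono_left (Finset.erase_subset _ _)) (noE_sub hE (Finset.erase_subset _ _)) rfl
      have e3 : ∑ C ∈ CZ (S₁ ∪ S₂) z,
          wt A C.support C • (U C * D U A ((S₁ ∪ S₂) \ C.support)) =
          ∑ C ∈ CZ S₁ z, wt A C.support C • (U C * D U A ((S₁ ∪ S₂) \ C.support)) := by
        symm
        apply Finset.sum_subset
        · intro C hC
          rw [mem_CZ] at hC ⊢
          exact ⟨hC.1, hC.2.1, hC.2.2.trans Finset.subset_union_left⟩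
        · intro C hC hC'
          rw [mem_CZ] at hC hC'
          by_cases hw : wt A C.support C = 0
          · rw [hw, zero_smul]
          · exact absurd ⟨hC.1, hC.2.1, cyc_in hE hC.1 hC.2.1 hC.2.2 hw hz⟩ hC'
      have e4 : ∀ C ∈ CZ S₁ z,
          wt A C.support C • (U C * D U A ((S₁ ∪ S₂) \ C.support)) =
          (wt A C.support C • (U C * D U A (S₁ \ C.support))) * D U A S₂ := by
        intro C hC
        rw [mem_CZ] at hC
        have h5 : (S₁ ∪ S₂) \ C.support = S₁ \ C.support ∪ S₂ := by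
          rw [Finset.union_sdiff_distrib]
          congr 1
          exact Finset.sdiff_eq_self_of_disjoint (hd.symm.mono_right hC.2.2)
        have h6 : (S₁ \ C.support).card < n := by
          rw [← hn]
          apply Finset.card_lt_card
          rw [Finset.ssubset_iff_of_subset Finset.sdiff_subset]
          exact ⟨z, hz, fun h => (Finset.mem_sdiff.1 h).2 hC.2.1⟩
        rw [h5, ih _ h6 (hd.mono_left Finset.sdiff_subset) (noE_sub hE Finset.sdiff_subset) rfl,
          smul_mul_assoc, mul_assoc]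
      rw [e2, e3, Finset.sum_congr rfl e4, ← Finset.sum_mul, add_mul, smul_mul_assoc]

namespace GlueAux

/-- The sum over the cycles through the common vertex in one of the two parts. -/
theorem side (U : Perm V →* R) (A : Matrix V V ℂ) {S₁ S₂ : Finset V} {z : V} (h1 : z ∉ S₁)
    (h2 : z ∉ S₂) (hd : Disjoint S₁ S₂) (hE : NoE A S₁ S₂) :
    ∑ C ∈ CZ (insert z S₁) z,
      wt A C.support C • (U C * D U A (insert z (S₁ ∪ S₂) \ C.support)) =
      (D U A (insert z S₁) - A z z • D U A S₁) * D U A S₂ := by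
  have e0 := D_rec U A (S := insert z S₁) (Finset.mem_insert_self z S₁)
  rw [Finset.erase_insert h1] at e0
  have e1 : D U A (insert z S₁) - A z z • D U A S₁ =
      ∑ C ∈ CZ (insert z S₁) z, wt A C.support C • (U C * D U A (insert z S₁ \ C.support)) := by
    rw [e0, add_sub_cancel_left]
  rw [e1, Finset.sum_mul]
  refine Finset.sum_congr rfl fun C hC => ?_
  rw [mem_CZ] at hC
  have hdisj : Disjoint S₂ C.support := by
    refine Disjoint.mono_right hC.2.2 ?_
    rw [Finset.disjoint_insert_right]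
    exact ⟨h2, hd.symm⟩
  have h5 : insert z (S₁ ∪ S₂) \ C.support = (S₁ \ C.support) ∪ S₂ := by
    rw [Finset.insert_sdiff_of_mem _ hC.2.1, Finset.union_sdiff_distrib]
    congr 1
    exact Finset.sdiff_eq_self_of_disjoint hdisj
  have h6 : insert z S₁ \ C.support = S₁ \ C.support := Finset.insert_sdiff_of_mem _ hC.2.1
  rw [h5, h6, D_disc U A (hd.mono_left Finset.sdiff_subset) (noE_sub hE Finset.sdiff_subset),
    smul_mul_assoc, mul_assoc]

end GlueAux

theorem D_cut (U : Perm V →* R) (A : Matrix V V ℂ) {S₁ S₂ : Finset V} {z : V} (h1 : z ∉ S₁)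
    (h2 : z ∉ S₂) (hd : Disjoint S₁ S₂) (hE : NoE A S₁ S₂) :
    D U A (insert z (S₁ ∪ S₂)) = D U A (insert z S₁) * D U A S₂ +
      D U A S₁ * D U A (insert z S₂) - A z z • (D U A S₁ * D U A S₂) := by
  have hz : z ∉ S₁ ∪ S₂ := by
    rw [Finset.mem_union]; tauto
  have e0 := D_rec U A (S := insert z (S₁ ∪ S₂)) (Finset.mem_insert_self z _)
  rw [Finset.erase_insert hz, D_disc U A hd hE] at e0
  have hdj : Disjoint (CZ (insert z S₁) z) (CZ (insert z S₂) z) := by
    rw [Finset.disjoint_left]
    intro C hC hC'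
    rw [mem_CZ] at hC hC'
    have h3 : C.support ⊆ {z} := by
      intro x hx
      rw [Finset.mem_singleton]
      rcases Finset.mem_insert.1 (hC.2.2 hx) with h4 | h4
      · exact h4
      · rcases Finset.mem_insert.1 (hC'.2.2 hx) with h5 | h5
        · exact h5
        · exact absurd h5 (Finset.disjoint_left.1 hd h4)
    have h4 := hC.1.two_le_card_support
    have h5 := Finset.card_le_card h3
    rw [Finset.card_singleton] at h5
    omega
  have hsub : CZ (insert z S₁) z ∪ CZ (insert z S₂) z ⊆ CZ (insert z (S₁ ∪ S₂)) z := by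
    intro C hC
    rw [Finset.mem_union, mem_CZ, mem_CZ] at hC
    rw [mem_CZ]
    rcases hC with hC | hC
    · exact ⟨hC.1, hC.2.1, hC.2.2.trans (Finset.insert_subset_insert _ Finset.subset_union_left)⟩
    · exact ⟨hC.1, hC.2.1, hC.2.2.trans (Finset.insert_subset_insert _ Finset.subset_union_right)⟩
  have e1 : ∑ C ∈ CZ (insert z (S₁ ∪ S₂)) z,
      wt A C.support C • (U C * D U A (insert z (S₁ ∪ S₂) \ C.support)) =
      ∑ C ∈ CZ (insert z S₁) z ∪ CZ (insert z S₂) z,
        wt A C.support C • (U C * D U A (insert z (S₁ ∪ S₂) \ C.support)) := by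
    symm
    apply Finset.sum_subset hsub
    intro C hC hC'
    rw [mem_CZ] at hC
    rw [Finset.mem_union, mem_CZ, mem_CZ] at hC'
    by_cases hw : wt A C.support C = 0
    · rw [hw, zero_smul]
    · exfalso
      apply hC'
      have h3 : C z ∈ insert z (S₁ ∪ S₂) := hC.2.2 (by
        rw [Perm.apply_mem_support]; exact hC.2.1)
      rcases Finset.mem_insert.1 h3 with h4 | h4
      · exact absurd h4 (Perm.mem_support.1 hC.2.1)
      · rcases Finset.mem_union.1 h4 with h5 | h5
        · left
          exact ⟨hC.1, hC.2.1, cyc_side hE hC.1 hC.2.1 hC.2.2 hw h5⟩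
        · right
          refine ⟨hC.1, hC.2.1, cyc_side (noE_symm hE) hC.1 hC.2.1 ?_ hw h5⟩
          rw [Finset.union_comm]
          exact hC.2.2
  have e2 := side U A h1 h2 hd hE
  have e3 := side U A h2 h1 hd.symm (noE_symm hE)
  rw [Finset.union_comm S₂ S₁] at e3
  have c1 : Commute (D U A (insert z S₂)) (D U A S₁) := by
    refine D_comm2 U A A ?_
    rw [Finset.disjoint_insert_left]
    exact ⟨h1, hd.symm⟩
  have c2 : Commute (D U A S₂) (D U A S₁) := D_comm2 U A A hd.symm
  rw [sub_mul, smul_mul_assoc, c1.eq, c2.eq] at e3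
  rw [sub_mul, smul_mul_assoc] at e2
  rw [e0, e1, Finset.sum_union hdj, e2, e3]
  abel

theorem pr_disc (A : Matrix V V ℂ) {S₁ S₂ : Finset V} (hd : Disjoint S₁ S₂)
    (hE : NoE A S₁ S₂) : pr A (S₁ ∪ S₂) = pr A S₁ * pr A S₂ := by
  have h := D_disc (1 : Perm V →* ℂ) A hd hE
  simpa only [D_trivial] using h

theorem pr_cut (A : Matrix V V ℂ) {S₁ S₂ : Finset V} {z : V} (h1 : z ∉ S₁)
    (h2 : z ∉ S₂) (hd : Disjoint S₁ S₂) (hE : NoE A S₁ S₂) :
    pr A (insert z (S₁ ∪ S₂)) = pr A (insert z S₁) * pr A S₂ +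
      pr A S₁ * pr A (insert z S₂) - A z z * (pr A S₁ * pr A S₂) := by
  have h := D_cut (1 : Perm V →* ℂ) A h1 h2 hd hE
  simpa only [D_trivial, smul_eq_mul] using h

end PGB
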