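import Pool.Agent.Lib.PGB.Schur
import Pool.Agent.Lib.Pot4.Main

/-!
# PGB.Small: at most four vertices

PROOF of `top_option`: let `B' = fromBlocks`-like matrix on `Option ι` (`B' none none = 1`,
`B' (some i) (some j) = B i j`, `0` otherwise); it is positive semidefinite and its permanent is that of
`B` (a permutation of `Option ι` with nonzero product fixes `none`; `Equiv.optionCongr`,
`Equiv.Perm.decomposeOption`). For `x : Perm ι → ℂ` use `hT` for the function on `Perm (Option ι)` that is
`x σ` at `optionCongr σ` and `0` at the other permutations.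

PROOF of `top_small`: for `card ι = 4` transport `Pot4.soules_four` along `ι ≃ Fin 4`; for smaller `ι` by
downward induction with `top_option`.

PROOF of `D_le_small`: `D_le_of_top` with `ι = {x // x ∈ S}`.
-/

set_option autoImplicit false

open scoped ComplexOrder InnerProductSpace
open Finset Equiv

namespace PGB

namespace SmallAux

/-- the matrix `1 ⊕ B` on `Option ι` -/
def mext {ι : Type} (B : Matrix ι ι ℂ) : Matrix (Option ι) (Option ι) ℂ :=
  Matrix.of fun a b => match a, b with
    | none, none => 1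
    | some i, some j => B i j
    | _, _ => 0

theorem mext_psd {ι : Type} [Fintype ι] [DecidableEq ι] (B : Matrix ι ι ℂ) (hB : B.PosSemidef) :
    (mext B).PosSemidef := by
  classical
  open MatrixOrder in
  obtain ⟨N, rfl⟩ := CStarAlgebra.nonneg_iff_eq_star_mul_self.mp hB.nonneg
  have h : mext (star N * N) = (mext N).conjTranspose * mext N := by
    ext a b
    rw [Matrix.mul_apply, Fintype.sum_option]
    rcases a with _ | i <;> rcases b with _ | j <;>
      simp [mext, Matrix.mul_apply, Matrix.star_eq_conjTranspose]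
  rw [h]
  exact Matrix.posSemidef_conjTranspose_mul_self _

theorem sum_perm_option {ι : Type} [Fintype ι] [DecidableEq ι] {M : Type*} [AddCommMonoid M]
    (f : Perm (Option ι) → M) (hf : ∀ σ : Perm (Option ι), σ none ≠ none → f σ = 0) :
    ∑ σ, f σ = ∑ τ : Perm ι, f (optionCongr τ) := by
  rw [← Equiv.sum_comp (Equiv.Perm.decomposeOption (α := ι)).symm f, Fintype.sum_prod_type,
    Fintype.sum_option]
  have h2 : ∑ a : ι, ∑ τ : Perm ι, f (Equiv.Perm.decomposeOption.symm (some a, τ)) = 0 := by
    refine Finset.sum_eq_zero fun a _ => Finset.sum_eq_zero fun τ _ => hf _ ?_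
    simp
  rw [h2, add_zero]
  refine Finset.sum_congr rfl fun τ _ => ?_
  congr 1
  simp only [Equiv.Perm.decomposeOption_symm_apply, Equiv.swap_self]
  rfl

theorem mext_permanent {ι : Type} [Fintype ι] [DecidableEq ι] (B : Matrix ι ι ℂ) :
    (mext B).permanent = B.permanent := by
  unfold Matrix.permanent
  rw [sum_perm_option]
  · refine Finset.sum_congr rfl fun τ _ => ?_
    rw [Fintype.prod_option]
    simp [mext]
  · intro σ hσ
    refine Finset.prod_eq_zero (Finset.mem_univ none) ?_
    rcases h : σ none with _ | i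
    · exact absurd h hσ
    · simp [mext]

/-- extension of a function by zero -/
noncomputable def fe {ι : Type} [DecidableEq ι] (x : Perm ι → ℂ) (σ : Perm (Option ι)) : ℂ :=
  if σ none = none then x (removeNone σ) else 0

theorem fe_congr {ι : Type} [DecidableEq ι] (x : Perm ι → ℂ) (τ : Perm ι) :
    fe x (optionCongr τ) = x τ := by
  simp [fe]

theorem fe_zero {ι : Type} [DecidableEq ι] (x : Perm ι → ℂ) (σ : Perm (Option ι))
    (h : σ none ≠ none) : fe x σ = 0 := by
  simp [fe, h]

end SmallAux

open SmallAux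

theorem top_option {ι : Type} [Fintype ι] [DecidableEq ι] (B : Matrix ι ι ℂ) (hB : B.PosSemidef)
    (hT : ∀ B' : Matrix (Option ι) (Option ι) ℂ, B'.PosSemidef → Top B') : Top B := by
  intro x
  have h := hT (mext B) (mext_psd B hB) (fe x)
  rw [mext_permanent] at h
  have h1 : ∑ σ : Perm (Option ι), ∑ τ : Perm (Option ι),
      star (fe x σ) * (∏ i, mext B (σ i) (τ i)) * fe x τ
      = ∑ σ : Perm ι, ∑ τ : Perm ι, star (x σ) * (∏ i, B (σ i) (τ i)) * x τ := by
    rw [sum_perm_option]
    · refine Finset.sum_congr rfl fun σ _ => ?_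
      rw [sum_perm_option]
      · refine Finset.sum_congr rfl fun τ _ => ?_
        rw [fe_congr, fe_congr, Fintype.prod_option]
        simp [mext]
      · intro τ hτ
        rw [fe_zero x τ hτ, mul_zero]
    · intro σ hσ
      refine Finset.sum_eq_zero fun τ _ => ?_
      rw [fe_zero x σ hσ, star_zero, zero_mul, zero_mul]
  have h2 : ∑ σ : Perm (Option ι), ‖fe x σ‖ ^ 2 = ∑ σ : Perm ι, ‖x σ‖ ^ 2 := by
    rw [sum_perm_option]
    · exact Finset.sum_congr rfl fun σ _ => by rw [fe_congr]
    · intro σ hσ
      rw [fe_zero x σ hσ]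
      simp
  rwa [h1, h2] at h

namespace SmallAux

theorem top_transport {ι κ : Type} [Fintype ι] [DecidableEq ι] [Fintype κ] [DecidableEq κ]
    (e : κ ≃ ι) (B : Matrix ι ι ℂ) (h : Top (B.submatrix e e)) : Top B := by
  intro x
  have hp : (B.submatrix e e).permanent = B.permanent := by
    unfold Matrix.permanent
    rw [← Equiv.sum_comp e.permCongr]
    refine Finset.sum_congr rfl fun σ _ => ?_
    rw [← Equiv.prod_comp e]
    simp [Equiv.permCongr_apply]
  have h0 := h fun σ => x (e.permCongr σ)
  rw [hp] at h0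
  have h1 : ∑ σ : Perm κ, ∑ τ : Perm κ, star (x (e.permCongr σ)) *
      (∏ i, (B.submatrix e e) (σ i) (τ i)) * x (e.permCongr τ)
      = ∑ σ : Perm ι, ∑ τ : Perm ι, star (x σ) * (∏ i, B (σ i) (τ i)) * x τ := by
    rw [← Equiv.sum_comp e.permCongr]
    refine Finset.sum_congr rfl fun σ _ => ?_
    rw [← Equiv.sum_comp e.permCongr]
    refine Finset.sum_congr rfl fun τ _ => ?_
    rw [← Equiv.prod_comp e]
    simp [Equiv.permCongr_apply]
  have h2 : ∑ σ : Perm κ, ‖x (e.permCongr σ)‖ ^ 2 = ∑ σ : Perm ι, ‖x σ‖ ^ 2 :=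
    Equiv.sum_comp e.permCongr fun σ => ‖x σ‖ ^ 2
  simp only [h1, h2] at h0
  exact h0

theorem top_aux (k : ℕ) : ∀ (ι : Type) [Fintype ι] [DecidableEq ι], Fintype.card ι + k = 4 →
    ∀ B : Matrix ι ι ℂ, B.PosSemidef → Top B := by
  induction k with
  | zero =>
    intro ι _ _ hc B hB
    have e : Fin 4 ≃ ι := (Fintype.equivFinOfCardEq (by simpa using hc)).symm
    refine top_transport e B ?_
    intro f
    exact Pot4.soules_four _ (hB.submatrix e) f
  | succ k ih =>
    intro ι _ _ hc B hB
    refine top_option B hB fun B' hB' => ih (Option ι) ?_ B' hB'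
    rw [Fintype.card_option]
    omega

end SmallAux

theorem top_small {ι : Type} [Fintype ι] [DecidableEq ι] (hι : Fintype.card ι ≤ 4)
    (B : Matrix ι ι ℂ) (hB : B.PosSemidef) : Top B :=
  top_aux (4 - Fintype.card ι) ι (by omega) B hB

variable {V : Type} [Fintype V] [DecidableEq V]
variable {H : Type*} [NormedAddCommGroup H] [InnerProductSpace ℂ H] [CompleteSpace H]

theorem D_le_small (U : Perm V →* (H →L[ℂ] H)) (hU : Uni U) {A : Matrix V V ℂ} {S : Finset V}
    (hA : PSDon A S) (hS : S.card ≤ 4) : D U A S ≤ pr A S • (1 : H →L[ℂ] H) := by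
  refine D_le_of_top U hU hA (Equiv.refl {x // x ∈ S}) ?_
  refine top_small ?_ _ (hA.submatrix _ fun i => i.2)
  rw [Fintype.card_coe]
  exact hS

end PGB
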