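import Pool.Agent.Lib.PGB.Schur

/-!
# PGB.Split: a positive semidefinite matrix with a cut vertex is a sum of two

PROOF of `split`. For a set `T` not containing `z` and `x : V → ℂ` put
`q_T x = re ∑_{i, j ∈ T} star (x i) A i j x j + 2 re ∑_{i ∈ T} star (x i) A i z` (so that
`q_T x + t` is the form of `upd A z t` on `insert z T` at the vector `x` with `x z = 1`; use
`star (A i z) = A z i`). The form of `A` on `insert z (S₁ ∪ S₂)` at a vector with `x z = 1` is
`q_{S₁} x + q_{S₂} x + A z z` (no entries between `S₁` and `S₂`), and the values on `S₁` and on `S₂` are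
independent, so `- q_{S₁} x ≤ q_{S₂} y + re (A z z)` for all `x, y`. Let `α = sup_x (- q_{S₁} x)`
(bounded above by `re (A z z)`, take `y = 0`; nonempty) and `β = re (A z z) - α`. Then
`q_{S₁} x + α ≥ 0` and `q_{S₂} y + β ≥ 0` for all `x, y`. For a vector with `x z = c ≠ 0` divide by `c`
(the form is multiplied by `|c|²`), for `x z = 0` use `PSDon A S₁`. The forms are real because `A` is
Hermitian on the set.
-/

set_option autoImplicit false

open scoped ComplexOrder
open Finset Equiv

namespace PGB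

variable {V : Type*} [Fintype V] [DecidableEq V]

namespace SplitAux

/-- the form on `T` -/
noncomputable def Q (A : Matrix V V ℂ) (T : Finset V) (x : V → ℂ) : ℂ :=
  ∑ i ∈ T, ∑ j ∈ T, star (x i) * A i j * x j

/-- the linear part -/
noncomputable def ell (A : Matrix V V ℂ) (T : Finset V) (z : V) (x : V → ℂ) : ℂ :=
  ∑ i ∈ T, star (x i) * A i z

theorem upd_zz (A : Matrix V V ℂ) (z : V) (t : ℂ) : upd A z t z z = t := by
  simp [upd]

theorem upd_ne (A : Matrix V V ℂ) {z i j : V} (t : ℂ) (h : ¬(i = z ∧ j = z)) :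
    upd A z t i j = A i j := by
  simp [upd, h]

theorem upd_self (A : Matrix V V ℂ) (z : V) : upd A z (A z z) = A := by
  ext i j
  by_cases h : i = z ∧ j = z
  · rw [h.1, h.2, upd_zz]
  · rw [upd_ne A _ h]

theorem form_insert {A : Matrix V V ℂ} {T : Finset V} {z : V} (h : z ∉ T) (t : ℂ) (x : V → ℂ)
    (hH : ∀ j ∈ T, star (A j z) = A z j) :
    ∑ i ∈ insert z T, ∑ j ∈ insert z T, star (x i) * upd A z t i j * x j =
      star (x z) * t * x z + star (ell A T z x * x z) + ell A T z x * x z + Q A T x := by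
  rw [Finset.sum_insert h, Finset.sum_insert h, upd_zz]
  have h1 : ∑ j ∈ T, star (x z) * upd A z t z j * x j = star (ell A T z x * x z) := by
    unfold ell
    rw [star_mul, star_sum, Finset.mul_sum]
    refine Finset.sum_congr rfl fun j hj => ?_
    have hjz : j ≠ z := fun e => h (e ▸ hj)
    rw [upd_ne A t (fun e => hjz e.2), star_mul, star_star, hH j hj]
    ring
  have h2 : ∑ i ∈ T, ∑ j ∈ insert z T, star (x i) * upd A z t i j * x j =
      ell A T z x * x z + Q A T x := by
    unfold ell Q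
    rw [Finset.sum_mul, ← Finset.sum_add_distrib]
    refine Finset.sum_congr rfl fun i hi => ?_
    have hiz : i ≠ z := fun e => h (e ▸ hi)
    rw [Finset.sum_insert h, upd_ne A t (fun e => hiz e.1)]
    congr 1
    refine Finset.sum_congr rfl fun j _ => ?_
    rw [upd_ne A t (fun e => hiz e.1)]
  rw [h1, h2]
  ring

/-- the real function whose supremum is taken -/
noncomputable def q (A : Matrix V V ℂ) (T : Finset V) (z : V) (x : V → ℂ) : ℝ :=
  (Q A T x).re + 2 * (ell A T z x).re

theorem Q_congr {A : Matrix V V ℂ} {T : Finset V} {x y : V → ℂ} (h : ∀ i ∈ T, x i = y i) :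
    Q A T x = Q A T y := by
  refine Finset.sum_congr rfl fun i hi => Finset.sum_congr rfl fun j hj => ?_
  rw [h i hi, h j hj]

theorem ell_congr {A : Matrix V V ℂ} {T : Finset V} {z : V} {x y : V → ℂ}
    (h : ∀ i ∈ T, x i = y i) : ell A T z x = ell A T z y := by
  refine Finset.sum_congr rfl fun i hi => ?_
  rw [h i hi]

theorem q_congr {A : Matrix V V ℂ} {T : Finset V} {z : V} {x y : V → ℂ}
    (h : ∀ i ∈ T, x i = y i) : q A T z x = q A T z y := by
  unfold q
  rw [Q_congr h, ell_congr h]

theorem q_zero (A : Matrix V V ℂ) (T : Finset V) (z : V) : q A T z (fun _ => 0) = 0 := by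
  simp [q, Q, ell]

theorem psd_of_q {A : Matrix V V ℂ} {T : Finset V} {z : V} (h : z ∉ T)
    (hH : ∀ j ∈ T, star (A j z) = A z j) (hT : PSDon A T) {t : ℝ}
    (ht : ∀ x, 0 ≤ q A T z x + t) : PSDon (upd A z (t : ℂ)) (insert z T) := by
  intro x
  rw [form_insert h _ x hH]
  have hQ : 0 ≤ Q A T x := hT x
  rw [Complex.nonneg_iff] at hQ ⊢
  have hstar : ∀ w : ℂ, star w = (starRingEnd ℂ) w := fun _ => rfl
  have hre : (star (x z) * (t : ℂ) * x z + star (ell A T z x * x z) + ell A T z x * x z +
      Q A T x).re = t * Complex.normSq (x z) + 2 * (ell A T z x * x z).re + (Q A T x).re := by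
    rw [hstar, hstar]
    simp only [Complex.add_re, Complex.mul_re, Complex.conj_re, Complex.conj_im, Complex.ofReal_re,
      Complex.ofReal_im, Complex.normSq_apply, Complex.mul_im]
    ring
  have him : (star (x z) * (t : ℂ) * x z + star (ell A T z x * x z) + ell A T z x * x z +
      Q A T x).im = 0 := by
    rw [hstar, hstar, Complex.add_im, ← hQ.2]
    simp only [Complex.add_im, Complex.mul_re, Complex.conj_re, Complex.conj_im, Complex.ofReal_re,
      Complex.ofReal_im, Complex.mul_im]
    ring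
  refine ⟨?_, him.symm⟩
  rw [hre]
  by_cases hc : x z = 0
  · rw [hc]
    simp only [map_zero, mul_zero, Complex.zero_re, zero_add]
    exact hQ.1
  · have h1 := ht (fun i => x i / x z)
    have hn : 0 < Complex.normSq (x z) := Complex.normSq_pos.2 hc
    have hQ1 : Q A T (fun i => x i / x z) = ((Complex.normSq (x z))⁻¹ : ℝ) * Q A T x := by
      unfold Q
      rw [Finset.mul_sum]
      refine Finset.sum_congr rfl fun i _ => ?_
      rw [Finset.mul_sum]
      refine Finset.sum_congr rfl fun j _ => ?_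
      have h3 : ((Complex.normSq (x z) : ℝ) : ℂ) = (starRingEnd ℂ) (x z) * x z := by
        rw [Complex.normSq_eq_conj_mul_self]
      have h4 : (starRingEnd ℂ) (x z) ≠ 0 := (map_ne_zero _).2 hc
      rw [hstar, hstar, map_div₀, Complex.ofReal_inv, h3]
      field_simp
    have hl1 : ell A T z (fun i => x i / x z) = ((Complex.normSq (x z))⁻¹ : ℝ) *
        (ell A T z x * x z) := by
      unfold ell
      rw [Finset.sum_mul, Finset.mul_sum]
      refine Finset.sum_congr rfl fun i _ => ?_
      have h3 : ((Complex.normSq (x z) : ℝ) : ℂ) = (starRingEnd ℂ) (x z) * x z := by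
        rw [Complex.normSq_eq_conj_mul_self]
      have h4 : (starRingEnd ℂ) (x z) ≠ 0 := (map_ne_zero _).2 hc
      rw [hstar, hstar, map_div₀, Complex.ofReal_inv, h3]
      field_simp
    unfold q at h1
    rw [hQ1, hl1, Complex.re_ofReal_mul, Complex.re_ofReal_mul] at h1
    have h2 := mul_nonneg hn.le h1
    have h5 : Complex.normSq (x z) * ((Complex.normSq (x z))⁻¹ * (Q A T x).re +
        2 * ((Complex.normSq (x z))⁻¹ * (ell A T z x * x z).re) + t) =
        t * Complex.normSq (x z) + 2 * (ell A T z x * x z).re + (Q A T x).re := by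
      field_simp
      ring
    rw [h5] at h2
    exact h2

end SplitAux

open SplitAux in
theorem split {A : Matrix V V ℂ} {S₁ S₂ : Finset V} {z : V} (h1 : z ∉ S₁) (h2 : z ∉ S₂)
    (hd : Disjoint S₁ S₂) (hE : NoE A S₁ S₂) (hA : PSDon A (insert z (S₁ ∪ S₂))) :
    ∃ α β : ℝ, (α : ℂ) + (β : ℂ) = A z z ∧ PSDon (upd A z α) (insert z S₁) ∧
      PSDon (upd A z β) (insert z S₂) := by
  have hz : z ∈ insert z (S₁ ∪ S₂) := Finset.mem_insert_self _ _
  have hm1 : ∀ i ∈ S₁, i ∈ insert z (S₁ ∪ S₂) := fun i hi =>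
    Finset.mem_insert_of_mem (Finset.mem_union_left _ hi)
  have hm2 : ∀ i ∈ S₂, i ∈ insert z (S₁ ∪ S₂) := fun i hi =>
    Finset.mem_insert_of_mem (Finset.mem_union_right _ hi)
  have hH1 : ∀ j ∈ S₁, star (A j z) = A z j := fun j hj => hA.herm (hm1 j hj) hz
  have hH2 : ∀ j ∈ S₂, star (A j z) = A z j := fun j hj => hA.herm (hm2 j hj) hz
  have hH : ∀ j ∈ S₁ ∪ S₂, star (A j z) = A z j := fun j hj =>
    hA.herm (Finset.mem_insert_of_mem hj) hz
  have hzz : ((A z z).re : ℂ) = A z z := by
    have h3 : (starRingEnd ℂ) (A z z) = A z z := hA.herm hz hz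
    exact Complex.conj_eq_iff_re.1 h3
  have hz12 : z ∉ S₁ ∪ S₂ := by
    rw [Finset.mem_union]
    exact fun h => h.elim h1 h2
  have hQu : ∀ x, Q A (S₁ ∪ S₂) x = Q A S₁ x + Q A S₂ x := by
    intro x
    unfold Q
    rw [Finset.sum_union hd]
    congr 1
    · refine Finset.sum_congr rfl fun i hi => ?_
      rw [Finset.sum_union hd]
      have h3 : ∑ j ∈ S₂, star (x i) * A i j * x j = 0 :=
        Finset.sum_eq_zero fun j hj => by rw [(hE i hi j hj).1]; ring
      rw [h3, add_zero]
    · refine Finset.sum_congr rfl fun i hi => ?_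
      rw [Finset.sum_union hd]
      have h3 : ∑ j ∈ S₁, star (x i) * A i j * x j = 0 :=
        Finset.sum_eq_zero fun j hj => by rw [(hE j hj i hi).2]; ring
      rw [h3, zero_add]
  have hlu : ∀ x, ell A (S₁ ∪ S₂) z x = ell A S₁ z x + ell A S₂ z x := fun x =>
    Finset.sum_union hd
  have key : ∀ x y : V → ℂ, -q A S₁ z x ≤ q A S₂ z y + (A z z).re := by
    intro x y
    obtain ⟨w, hw, hw1, hw2⟩ : ∃ w : V → ℂ, w z = 1 ∧ (∀ i ∈ S₁, w i = x i) ∧
        ∀ i ∈ S₂, w i = y i := by
      refine ⟨fun i => if i = z then 1 else if i ∈ S₁ then x i else y i, by simp, ?_, ?_⟩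
      · intro i hi
        have h6 : i ≠ z := fun e => h1 (e ▸ hi)
        simp [h6, hi]
      · intro i hi
        have h6 : i ≠ z := fun e => h2 (e ▸ hi)
        have h8 : i ∉ S₁ := fun e => Finset.disjoint_left.1 hd e hi
        simp [h6, h8]
    have h3 := hA w
    have h4 := form_insert hz12 (A z z) w hH
    rw [upd_self] at h4
    rw [h4, hw, hQu, hlu, Complex.nonneg_iff] at h3
    have h9 := h3.1
    have hstar : ∀ w : ℂ, star w = (starRingEnd ℂ) w := fun _ => rfl
    rw [hstar, hstar] at h9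
    simp only [map_one, one_mul, mul_one, Complex.add_re, Complex.conj_re] at h9
    rw [← q_congr hw1, ← q_congr hw2]
    unfold q
    linarith
  have hbdd : BddAbove (Set.range fun x => -q A S₁ z x) := by
    refine ⟨(A z z).re, ?_⟩
    rintro _ ⟨x, rfl⟩
    have h3 := key x fun _ => 0
    rw [q_zero] at h3
    linarith
  have hne : (Set.range fun x => -q A S₁ z x).Nonempty := ⟨_, ⟨fun _ => 0, rfl⟩⟩
  refine ⟨sSup (Set.range fun x => -q A S₁ z x),
    (A z z).re - sSup (Set.range fun x => -q A S₁ z x), ?_, ?_, ?_⟩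
  · rw [Complex.ofReal_sub, hzz]
    ring
  · refine psd_of_q h1 hH1 (hA.mono hm1) fun x => ?_
    have h3 := le_csSup hbdd ⟨x, rfl⟩
    linarith
  · refine psd_of_q h2 hH2 (hA.mono hm2) fun y => ?_
    have h3 : sSup (Set.range fun x => -q A S₁ z x) ≤ q A S₂ z y + (A z z).re := by
      refine csSup_le hne ?_
      rintro _ ⟨x, rfl⟩
      exact key x y
    linarith

end PGB
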