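import Pool.Agent.Lib.PGB.Glue
import Pool.Agent.Lib.PGB.Split
import Pool.Agent.Lib.PGB.Small
import Pool.Agent.Lib.PGB.Bal
import Pool.Agent.Lib.PGB.Cyc

/-!
# PGB.Main: permanent on top for matrices whose graph has simple blocks

PROOF of `main` by strong induction on `S.card`, for all `A`. If `Insep A S`: use `hok` for `T = S`
(`D_le_small`; for a cycle `D_le_cyc` if `m ≥ 5`, `S.card = m` and `D_le_small` if `1 ≤ m ≤ 4`, and
`m = 0` is impossible since `ZMod 0` is infinite; `D_le_bal`). Otherwise there are `S₁ ∪ S₂ = S`,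
`S₁ ≠ S`, `S₂ ≠ S`, `(S₁ ∩ S₂).card ≤ 1`, no entries between the differences (`A i j = 0`, and `A j i = 0` by
`PSDon.herm`). (i) `S₁ ∩ S₂ = ∅`: `D_disc`, `pr_disc`, and `mul_le` for the two factors (`D_nonneg`,
`PSDon.mono`, induction). (ii) `S₁ ∩ S₂ = {z}`: put `P = S₁.erase z`, `Q = S₂.erase z`, so
`S = insert z (P ∪ Q)`, `insert z P = S₁`, `insert z Q = S₂`. With `α, β` from `split`, by `D_cut` and
`D_upd` (`(insert z P).erase z = P`)
`D U A S = D U (upd A z α) (insert z P) * D U A Q + D U A P * D U (upd A z β) (insert z Q)`, and the same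
for `pr`. Each product is bounded by `mul_le` (induction for `upd A z α` on `S₁`, etc.; all sets are
smaller than `S`). The hypothesis `hok` is inherited by subsets and by `upd A z α`: `Insep` uses only
off-diagonal entries, `CycOn` as well, and for `Bal` one needs `0 ≤ α`, which holds since `α` is a diagonal
entry of a matrix that is `PSDon`.
-/

set_option autoImplicit false

open scoped ComplexOrder InnerProductSpace
open Finset Equiv

namespace PGB

variable {V : Type} [Fintype V] [DecidableEq V]
variable {H : Type*} [NormedAddCommGroup H] [InnerProductSpace ℂ H] [CompleteSpace H]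

theorem mul_le {a b : H →L[ℂ] H} {α β : ℂ} (ha : 0 ≤ a) (hb : 0 ≤ b) (hα : 0 ≤ α) (hβ : 0 ≤ β)
    (haα : a ≤ α • (1 : H →L[ℂ] H)) (hbβ : b ≤ β • (1 : H →L[ℂ] H)) (hab : Commute a b) :
    a * b ≤ (α * β) • (1 : H →L[ℂ] H) := by
  have h1 : 0 ≤ (α • (1 : H →L[ℂ] H) - a) * b := by
    refine Commute.mul_nonneg (sub_nonneg.2 haα) hb ?_
    exact ((Commute.one_left b).smul_left α).sub_left hab
  have h2 : 0 ≤ α • (β • (1 : H →L[ℂ] H) - b) := by
    have h3 := sub_nonneg.2 hbβ
    rw [ContinuousLinearMap.nonneg_iff_isPositive] at h3 ⊢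
    exact h3.smul_of_nonneg hα
  have e : (α * β) • (1 : H →L[ℂ] H) - a * b =
      (α • (1 : H →L[ℂ] H) - a) * b + α • (β • (1 : H →L[ℂ] H) - b) := by
    rw [sub_mul, smul_mul_assoc, one_mul, smul_sub, smul_smul]
    abel
  rw [← sub_nonneg, e]
  exact add_nonneg h1 h2

/-- every nonseparable set of vertices in `S` is small, a cycle, or balanced -/
def Ok (A : Matrix V V ℂ) (S : Finset V) : Prop :=
  ∀ T ⊆ S, Insep A T → T.card ≤ 4 ∨ (∃ m, ∃ c : ZMod m → V, CycOn A m c T) ∨ Bal A T

namespace MainAux

theorem D_comm (U : Perm V →* (H →L[ℂ] H)) (A B : Matrix V V ℂ) {S T : Finset V}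
    (h : Disjoint S T) : Commute (D U A S) (D U B T) := by
  have := X_comm2 U A B 1 1 h
  rwa [X_one_eq, X_one_eq] at this

theorem upd_off {A : Matrix V V ℂ} {z : V} {t : ℂ} {i j : V} (h : i ≠ j) :
    upd A z t i j = A i j := by
  unfold upd
  simp only [Matrix.of_apply]
  rw [if_neg]
  rintro ⟨h1, h2⟩
  exact h (h1.trans h2.symm)

theorem upd_zz {A : Matrix V V ℂ} {z : V} {t : ℂ} : upd A z t z z = t := by
  unfold upd
  simp

theorem upd_ne {A : Matrix V V ℂ} {z : V} {t : ℂ} {i j : V} (h : i ≠ z) :
    upd A z t i j = A i j := by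
  unfold upd
  simp only [Matrix.of_apply]
  rw [if_neg]
  rintro ⟨h1, _⟩
  exact h h1

theorem ok_upd {A : Matrix V V ℂ} {S T : Finset V} (hok : Ok A S) (hT : T ⊆ S) {z : V} {t : ℂ}
    (ht : 0 ≤ t) : Ok (upd A z t) T := by
  intro W hW hI
  have hI' : Insep A W := by
    intro S₁ S₂ h1 h2 h3
    refine hI S₁ S₂ h1 h2 fun i hi j hj => ?_
    have hij : i ≠ j := by
      rintro rfl
      exact (Finset.mem_sdiff.1 hi).2 (Finset.mem_sdiff.1 hj).1
    rw [upd_off hij]
    exact h3 i hi j hj
  rcases hok W (hW.trans hT) hI' with h | ⟨m, c, h1, h2, h3⟩ | ⟨u, hu1, hu2⟩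
  · exact Or.inl h
  · refine Or.inr (Or.inl ⟨m, c, h1, h2, fun i j hij => ?_⟩)
    by_cases he : i = j
    · exact Or.inl he
    · rw [upd_off (fun h => he (h1 h))] at hij
      exact h3 i j hij
  · refine Or.inr (Or.inr ⟨u, hu1, fun i hi j hj => ?_⟩)
    by_cases hz : i = z ∧ j = z
    · rw [hz.1, hz.2, upd_zz]
      have h5 : star (u z) * t * u z = (u z * star (u z)) * t := by ring
      rw [h5, Complex.star_def, Complex.mul_conj]
      exact mul_nonneg (Complex.zero_le_real.2 (Complex.normSq_nonneg _)) ht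
    · have e : upd A z t i j = A i j := by
        unfold upd
        simp only [Matrix.of_apply]
        rw [if_neg hz]
      rw [e]
      exact hu2 i hi j hj

theorem ok_mono {A : Matrix V V ℂ} {S T : Finset V} (hok : Ok A S) (hT : T ⊆ S) : Ok A T :=
  fun W hW hI => hok W (hW.trans hT) hI

theorem diag_nonneg {A : Matrix V V ℂ} {S : Finset V} (hA : PSDon A S) {z : V} (hz : z ∈ S) :
    0 ≤ A z z := by
  have h := hA (fun i => if i = z then 1 else 0)
  have e : ∑ i ∈ S, ∑ j ∈ S, star (if i = z then (1 : ℂ) else 0) * A i j *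
      (if j = z then (1 : ℂ) else 0) = A z z := by
    rw [Finset.sum_eq_single z]
    · rw [Finset.sum_eq_single z]
      · simp
      · intro j _ hj
        simp [hj]
      · intro h; exact absurd hz h
    · intro i _ hi
      refine Finset.sum_eq_zero fun j _ => ?_
      simp [hi]
    · intro h; exact absurd hz h
  rw [e] at h
  exact h

end MainAux

open MainAux

theorem main (U : Perm V →* (H →L[ℂ] H)) (hU : Uni U) (A : Matrix V V ℂ) (S : Finset V)
    (hA : PSDon A S) (hok : Ok A S) : D U A S ≤ pr A S • (1 : H →L[ℂ] H) := by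
  induction hn : S.card using Nat.strong_induction_on generalizing A S with
  | _ n ih =>
  have ih' : ∀ (B : Matrix V V ℂ) (T : Finset V), T.card < S.card → PSDon B T → Ok B T →
      D U B T ≤ pr B T • (1 : H →L[ℂ] H) := fun B T hT hB hk => ih T.card (hn ▸ hT) B T hB hk rfl
  by_cases hI : Insep A S
  · rcases hok S Finset.Subset.rfl hI with h | ⟨m, c, h⟩ | h
    · exact D_le_small U hU hA h
    · have hm : m ≠ 0 := by
        rintro rfl
        have : Infinite (ZMod 0) := inferInstanceAs (Infinite ℤ)
        exact not_injective_infinite_finite c h.1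
      rcases Nat.lt_or_ge 4 m with h4 | h4
      · exact D_le_cyc U hU hA h4 h
      · refine D_le_small U hU hA ?_
        have : NeZero m := ⟨hm⟩
        have e : S = Finset.univ.image c := by
          ext v
          rw [h.2.1 v]
          simp
        rw [e]
        refine Finset.card_image_le.trans ?_
        rw [Finset.card_univ, ZMod.card]
        exact h4
    · exact D_le_bal U hU hA h
  · unfold Insep at hI
    push Not at hI
    obtain ⟨S₁, S₂, hun, hcard, hE, hne1, hne2⟩ := hI
    have hs1 : S₁ ⊆ S := hun ▸ Finset.subset_union_left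
    have hs2 : S₂ ⊆ S := hun ▸ Finset.subset_union_right
    have hc1 : S₁.card < S.card := Finset.card_lt_card (Finset.ssubset_iff_subset_ne.2 ⟨hs1, hne1⟩)
    have hc2 : S₂.card < S.card := Finset.card_lt_card (Finset.ssubset_iff_subset_ne.2 ⟨hs2, hne2⟩)
    rcases Nat.lt_or_ge 0 (S₁ ∩ S₂).card with hc | hc
    · have hc' : (S₁ ∩ S₂).card = 1 := le_antisymm hcard hc
      obtain ⟨z, hz⟩ := Finset.card_eq_one.1 hc'
      have hz1 : z ∈ S₁ := (Finset.mem_inter.1 (hz ▸ Finset.mem_singleton_self z)).1
      have hz2 : z ∈ S₂ := (Finset.mem_inter.1 (hz ▸ Finset.mem_singleton_self z)).2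
      have hmem : ∀ i, i ∈ S₁ → i ∈ S₂ → i = z := fun i h1 h2 => by
        have : i ∈ S₁ ∩ S₂ := Finset.mem_inter.2 ⟨h1, h2⟩
        rw [hz] at this
        exact Finset.mem_singleton.1 this
      set P := S₁.erase z with hP
      set Q := S₂.erase z with hQ
      have hzP : z ∉ P := Finset.notMem_erase z S₁
      have hzQ : z ∉ Q := Finset.notMem_erase z S₂
      have hiP : insert z P = S₁ := Finset.insert_erase hz1
      have hiQ : insert z Q = S₂ := Finset.insert_erase hz2
      have hPS : P ⊆ S₁ := Finset.erase_subset _ _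
      have hQS : Q ⊆ S₂ := Finset.erase_subset _ _
      have hd : Disjoint P Q := by
        rw [Finset.disjoint_left]
        intro i h1 h2
        exact hzP (hmem i (hPS h1) (hQS h2) ▸ h1)
      have hNE : NoE A P Q := by
        intro i hi j hj
        have h1 : A i j = 0 := by
          refine hE i (Finset.mem_sdiff.2 ⟨hPS hi, fun h => ?_⟩) j
            (Finset.mem_sdiff.2 ⟨hQS hj, fun h => ?_⟩)
          · exact hzP (hmem i (hPS hi) h ▸ hi)
          · exact hzQ (hmem j h (hQS hj) ▸ hj)
        refine ⟨h1, ?_⟩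
        have := hA.herm (hs1 (hPS hi)) (hs2 (hQS hj))
        rw [← this, h1, star_zero]
      have hSeq : S = insert z (P ∪ Q) := by
        rw [← hun, ← hiP, ← hiQ, Finset.insert_union, Finset.union_insert, Finset.insert_idem]
      have hA' : PSDon A (insert z (P ∪ Q)) := hSeq ▸ hA
      obtain ⟨α, β, hαβ, hα, hβ⟩ := split hzP hzQ hd hNE hA'
      have hα0 : (0 : ℂ) ≤ (α : ℂ) := by
        have := diag_nonneg hα (Finset.mem_insert_self z P)
        rwa [upd_zz] at this
      have hβ0 : (0 : ℂ) ≤ (β : ℂ) := by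
        have := diag_nonneg hβ (Finset.mem_insert_self z Q)
        rwa [upd_zz] at this
      have hPA : PSDon A P := hA.mono (hPS.trans hs1)
      have hQA : PSDon A Q := hA.mono (hQS.trans hs2)
      have cP : P.card < S.card := (Finset.card_le_card hPS).trans_lt hc1
      have cQ : Q.card < S.card := (Finset.card_le_card hQS).trans_lt hc2
      have eD : D U A S = D U (upd A z α) (insert z P) * D U A Q +
          D U A P * D U (upd A z β) (insert z Q) := by
        rw [hSeq, D_cut U A hzP hzQ hd hNE, D_upd U A α (Finset.mem_insert_self z P),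
          D_upd U A β (Finset.mem_insert_self z Q), Finset.erase_insert hzP,
          Finset.erase_insert hzQ, ← hαβ]
        simp only [add_mul, mul_add, smul_mul_assoc, mul_smul_comm]
        module
      have eP : pr A S = pr (upd A z α) (insert z P) * pr A Q +
          pr A P * pr (upd A z β) (insert z Q) := by
        rw [hSeq, pr_cut A hzP hzQ hd hNE, pr_upd A α (Finset.mem_insert_self z P),
          pr_upd A β (Finset.mem_insert_self z Q), Finset.erase_insert hzP,
          Finset.erase_insert hzQ, ← hαβ]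
        ring
      rw [eD, eP, add_smul]
      refine add_le_add ?_ ?_
      · refine mul_le (D_nonneg U hU hα) (D_nonneg U hU hQA) (pr_nonneg hα) (pr_nonneg hQA) ?_ ?_ ?_
        · exact ih' _ _ (by rw [hiP]; exact hc1) hα
            (ok_upd hok (by rw [hiP]; exact hs1) hα0)
        · exact ih' _ _ cQ hQA (ok_mono hok (hQS.trans hs2))
        · refine D_comm U _ _ ?_
          rw [Finset.disjoint_insert_left]
          exact ⟨hzQ, hd⟩
      · refine mul_le (D_nonneg U hU hPA) (D_nonneg U hU hβ) (pr_nonneg hPA) (pr_nonneg hβ) ?_ ?_ ?_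
        · exact ih' _ _ cP hPA (ok_mono hok (hPS.trans hs1))
        · exact ih' _ _ (by rw [hiQ]; exact hc2) hβ
            (ok_upd hok (by rw [hiQ]; exact hs2) hβ0)
        · refine D_comm U _ _ ?_
          rw [Finset.disjoint_insert_right]
          exact ⟨hzP, hd⟩
    · have hc' : S₁ ∩ S₂ = ∅ := Finset.card_eq_zero.1 (Nat.le_zero.1 hc)
      have hd : Disjoint S₁ S₂ := Finset.disjoint_iff_inter_eq_empty.2 hc'
      have hNE : NoE A S₁ S₂ := by
        intro i hi j hj
        have h1 : A i j = 0 := by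
          refine hE i (Finset.mem_sdiff.2 ⟨hi, fun h => ?_⟩) j
            (Finset.mem_sdiff.2 ⟨hj, fun h => ?_⟩)
          · exact Finset.disjoint_left.1 hd hi h
          · exact Finset.disjoint_left.1 hd h hj
        refine ⟨h1, ?_⟩
        have := hA.herm (hs1 hi) (hs2 hj)
        rw [← this, h1, star_zero]
      rw [← hun, D_disc U A hd hNE, pr_disc A hd hNE]
      have hA1 := hA.mono hs1
      have hA2 := hA.mono hs2
      exact mul_le (D_nonneg U hU hA1) (D_nonneg U hU hA2) (pr_nonneg hA1) (pr_nonneg hA2)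
        (ih' _ _ hc1 hA1 (ok_mono hok hs1)) (ih' _ _ hc2 hA2 (ok_mono hok hs2))
        (D_comm U _ _ hd)

end PGB
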