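import Pool.Agent.Lib.PGB.Defs

/-!
# PGB.Rec: expansion of `X` at a vertex

PROOF of `X_rec`. Split the sum over `σ ∈ PS S` according to `σ z = z` or `σ z ≠ z`.
(a) `σ z = z`: `σ ∈ PS (S.erase z)` (and conversely), `wt A S σ = A z z * wt A (S.erase z) σ`
(`Finset.mul_prod_erase`).
(b) `σ z ≠ z`: the map `σ ↦ (C, τ) = (σ.cycleOf z, (σ.cycleOf z)⁻¹ * σ)` is a bijection onto the pairs
with `C ∈ CZ S z` and `τ ∈ PS (S \ C.support)` (inverse `(C, τ) ↦ C * τ`; `C` and `τ` are disjoint, so
`(C * τ).cycleOf z = C`). The cycle factors of `C * τ` are those of `τ` and `C`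
(`Equiv.Perm.Disjoint.cycleFactorsFinset_mul_eq_union`, `Equiv.Perm.IsCycle.cycleFactorsFinset_eq_singleton`),
`C` is not one of those of `τ`, so `Pm U s (C * τ) = act U s C * Pm U s τ`
(`Finset.noncommProd_insert_of_notMem`). The weight splits: on `C.support` one has `(C * τ) i = C i`
(`τ` fixes `i`), on `S \ C.support` one has `(C * τ) i = τ i` (`τ i` is not in `C.support`:
either `τ i = i` or `τ i ∈ τ.support`), and `C.support ⊆ S`.
-/

set_option autoImplicit false

open scoped ComplexOrder
open Finset Equiv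

namespace PGB

variable {V : Type*} [Fintype V] [DecidableEq V] {R : Type*} [Ring R] [Algebra ℂ R]

theorem mem_PS {S : Finset V} {σ : Perm V} : σ ∈ PS S ↔ σ.support ⊆ S := by
  simp [PS]

theorem Pm_one (U : Perm V →* R) (s : ℝ) : Pm U s 1 = 1 := by
  have h : (1 : Perm V).cycleFactorsFinset = ∅ := Perm.cycleFactorsFinset_one
  unfold Pm
  rw [Finset.noncommProd_congr h (fun _ _ => rfl)]
  exact Finset.noncommProd_empty _ _

/-- multiplicativity over disjoint cycles -/
theorem Pm_mul (U : Perm V →* R) (s : ℝ) {C τ : Perm V} (hC : C.IsCycle) (h : Perm.Disjoint C τ) :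
    Pm U s (C * τ) = act U s C * Pm U s τ := by
  have h1 : (C * τ).cycleFactorsFinset = insert C τ.cycleFactorsFinset := by
    rw [h.cycleFactorsFinset_mul_eq_union, hC.cycleFactorsFinset_eq_singleton]
    rfl
  have h2 : C ∉ τ.cycleFactorsFinset := by
    intro hmem
    have h3 : C.support ⊆ τ.support := Perm.mem_cycleFactorsFinset_support_le hmem
    have h4 := Perm.disjoint_iff_disjoint_support.1 h
    obtain ⟨x, hx⟩ := hC.nonempty_support
    exact (Finset.disjoint_left.1 h4) hx (h3 hx)
  unfold Pm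
  rw [Finset.noncommProd_congr h1 (fun _ _ => rfl)]
  rw [Finset.noncommProd_insert_of_notMem _ _ _ _ h2]

theorem X_empty (U : Perm V →* R) (A : Matrix V V ℂ) (s : ℝ) : X U A s ∅ = 1 := by
  have h : PS (∅ : Finset V) = {1} := by
    ext σ
    rw [mem_PS, Finset.mem_singleton, Finset.subset_empty, Perm.support_eq_empty_iff]
  unfold X
  rw [h, Finset.sum_singleton, Pm_one]
  simp [wt]

namespace RecAux

theorem filter_fix {S : Finset V} {z : V} :
    (PS S).filter (fun σ : Perm V => σ z = z) = PS (S.erase z) := by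
  ext σ
  rw [Finset.mem_filter, mem_PS, mem_PS]
  constructor
  · rintro ⟨h1, h2⟩ i hi
    refine Finset.mem_erase.2 ⟨?_, h1 hi⟩
    rintro rfl
    exact (Perm.mem_support.1 hi) h2
  · intro h
    refine ⟨h.trans (Finset.erase_subset _ _), ?_⟩
    by_contra hz
    exact (Finset.notMem_erase z S) (h (Perm.mem_support.2 hz))

theorem wt_mul (A : Matrix V V ℂ) {S : Finset V} {C τ : Perm V} (hC : C.support ⊆ S)
    (h : Perm.Disjoint C τ) :
    wt A S (C * τ) = wt A C.support C * wt A (S \ C.support) τ := by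
  unfold wt
  rw [← Finset.prod_sdiff hC, mul_comm]
  congr 1
  · refine Finset.prod_congr rfl (fun i hi => ?_)
    have h1 : τ i = i := by
      rcases h i with h2 | h2
      · exact absurd h2 (Perm.mem_support.1 hi)
      · exact h2
    rw [Perm.mul_apply, h1]
  · refine Finset.prod_congr rfl (fun i hi => ?_)
    have h1 : C i = i := Perm.notMem_support.1 (Finset.mem_sdiff.1 hi).2
    have h2 : C (τ i) = τ i := by
      rcases h (τ i) with h3 | h3
      · exact h3
      · have h4 : τ i = i := τ.injective h3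
        rw [h4, h1]
    rw [Perm.mul_apply, h2]

end RecAux

open RecAux

theorem X_rec (U : Perm V →* R) (A : Matrix V V ℂ) (s : ℝ) {S : Finset V} {z : V} (hz : z ∈ S) :
    X U A s S = A z z • X U A s (S.erase z) +
      ∑ C ∈ CZ S z, wt A C.support C • (act U s C * X U A s (S \ C.support)) := by
  classical
  have hsplit := (Finset.sum_filter_add_sum_filter_not (PS S) (fun σ : Perm V => σ z = z)
    (fun σ => wt A S σ • Pm U s σ)).symm
  have hX : X U A s S = ∑ σ ∈ PS S, wt A S σ • Pm U s σ := rfl
  rw [hX, hsplit]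
  congr 1
  · rw [filter_fix]
    unfold X
    rw [Finset.smul_sum]
    refine Finset.sum_congr rfl (fun σ hσ => ?_)
    have hσz : σ z = z := by
      have h1 := mem_PS.1 hσ
      by_contra hne
      exact (Finset.notMem_erase z S) (h1 (Perm.mem_support.2 hne))
    have hw : wt A S σ = A z z * wt A (S.erase z) σ := by
      unfold wt
      rw [← Finset.mul_prod_erase S _ hz, hσz]
    rw [hw, mul_smul]
  · have hR : ∀ C ∈ CZ S z, wt A C.support C • (act U s C * X U A s (S \ C.support)) =
        ∑ τ ∈ PS (S \ C.support), wt A S (C * τ) • Pm U s (C * τ) := by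
      intro C hC
      have hC' : C.IsCycle ∧ z ∈ C.support ∧ C.support ⊆ S := by
        simpa [CZ] using hC
      unfold X
      rw [Finset.mul_sum, Finset.smul_sum]
      refine Finset.sum_congr rfl (fun τ hτ => ?_)
      have hd : Perm.Disjoint C τ := by
        rw [Perm.disjoint_iff_disjoint_support]
        exact Finset.disjoint_of_subset_right (mem_PS.1 hτ) Finset.disjoint_sdiff
      rw [wt_mul A hC'.2.2 hd, Pm_mul U s hC'.1 hd, mul_smul_comm, smul_smul]
    rw [Finset.sum_congr rfl hR, Finset.sum_sigma']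
    symm
    refine Finset.sum_bij' (fun x _ => x.1 * x.2)
      (fun σ _ => ⟨σ.cycleOf z, σ * (σ.cycleOf z)⁻¹⟩) ?_ ?_ ?_ ?_ ?_
    · rintro ⟨C, τ⟩ hx
      rw [Finset.mem_sigma] at hx
      obtain ⟨hC, hτ⟩ := hx
      have hC' : C.IsCycle ∧ z ∈ C.support ∧ C.support ⊆ S := by
        simpa [CZ] using hC
      have hτ' := mem_PS.1 hτ
      rw [Finset.mem_filter, mem_PS]
      refine ⟨?_, ?_⟩
      · refine (Perm.support_mul_le C τ).trans ?_
        exact Finset.union_subset hC'.2.2 (hτ'.trans Finset.sdiff_subset)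
      · have h1 : τ z = z := by
          by_contra hne
          exact (Finset.mem_sdiff.1 (hτ' (Perm.mem_support.2 hne))).2 hC'.2.1
        show ¬ (C * τ) z = z
        rw [Perm.mul_apply, h1]
        exact Perm.mem_support.1 hC'.2.1
    · intro σ hσ
      rw [Finset.mem_filter, mem_PS] at hσ
      obtain ⟨hσS, hσz⟩ := hσ
      have hmem : σ.cycleOf z ∈ σ.cycleFactorsFinset :=
        Perm.cycleOf_mem_cycleFactorsFinset_iff.2 (Perm.mem_support.2 hσz)
      have hle : (σ.cycleOf z).support ⊆ σ.support :=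
        Perm.mem_cycleFactorsFinset_support_le hmem
      have hdisj : Perm.Disjoint (σ * (σ.cycleOf z)⁻¹) (σ.cycleOf z) :=
        Perm.disjoint_mul_inv_of_mem_cycleFactorsFinset hmem
      rw [Finset.mem_sigma]
      refine ⟨?_, ?_⟩
      · simp only [CZ, Finset.mem_filter, Finset.mem_univ, true_and]
        refine ⟨Perm.isCycle_cycleOf σ hσz, ?_, hle.trans hσS⟩
        rw [Perm.mem_support, Perm.cycleOf_apply_self]
        exact hσz
      · rw [mem_PS]
        intro i hi
        rw [Finset.mem_sdiff]
        refine ⟨?_, ?_⟩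
        · have h1 := (Perm.support_mul_le σ (σ.cycleOf z)⁻¹) hi
          rcases Finset.mem_union.1 h1 with h2 | h2
          · exact hσS h2
          · rw [Perm.support_inv] at h2
            exact hσS (hle h2)
        · exact Finset.disjoint_left.1 (Perm.disjoint_iff_disjoint_support.1 hdisj) hi
    · rintro ⟨C, τ⟩ hx
      rw [Finset.mem_sigma] at hx
      obtain ⟨hC, hτ⟩ := hx
      have hC' : C.IsCycle ∧ z ∈ C.support ∧ C.support ⊆ S := by
        simpa [CZ] using hC
      have hτ' := mem_PS.1 hτ
      have hd : Perm.Disjoint C τ := by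
        rw [Perm.disjoint_iff_disjoint_support]
        exact Finset.disjoint_of_subset_right hτ' Finset.disjoint_sdiff
      have h1 : τ z = z := by
        by_contra hne
        exact (Finset.mem_sdiff.1 (hτ' (Perm.mem_support.2 hne))).2 hC'.2.1
      have h2 : (C * τ).cycleOf z = C := by
        rw [Perm.cycleOf_mul_of_apply_right_eq_self hd.commute z h1]
        exact hC'.1.cycleOf_eq (Perm.mem_support.1 hC'.2.1)
      have h3 : C * τ * C⁻¹ = τ := by
        rw [hd.commute.eq]; group
      simp only [h2, h3]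
    · intro σ hσ
      rw [Finset.mem_filter, mem_PS] at hσ
      obtain ⟨hσS, hσz⟩ := hσ
      have hmem : σ.cycleOf z ∈ σ.cycleFactorsFinset :=
        Perm.cycleOf_mem_cycleFactorsFinset_iff.2 (Perm.mem_support.2 hσz)
      have hdisj : Perm.Disjoint (σ * (σ.cycleOf z)⁻¹) (σ.cycleOf z) :=
        Perm.disjoint_mul_inv_of_mem_cycleFactorsFinset hmem
      show σ.cycleOf z * (σ * (σ.cycleOf z)⁻¹) = σ
      rw [← hdisj.commute.eq]
      group
    · rintro ⟨C, τ⟩ _
      rfl

end PGB
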